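import Mathlib

/-!
# Four subspaces: small compatible subspaces
-/

set_option linter.unusedSectionVars false

namespace Pool.Agent.Q34.SD

open Module Submodule

variable {N : Type*} [AddCommGroup N] [Module ℂ N] [FiniteDimensional ℂ N]

/-- The subspace `S` is the sum of its intersections with the members of each complementary pair
of the family. -/
def Cpt (F : Set (Submodule ℂ N)) (S : Submodule ℂ N) : Prop :=
  ∀ X ∈ F, ∀ Y ∈ F, IsCompl X Y → S ≤ (S ⊓ X) ⊔ (S ⊓ Y)

/-- The family has a small compatible subspace. -/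
def HasSmall (F : Set (Submodule ℂ N)) : Prop :=
  ∃ S : Submodule ℂ N, S ≠ ⊥ ∧ finrank ℂ S ≤ 2 ∧ Cpt F S

theorem le_of_two {X Y S : Submodule ℂ N} (hXY : Disjoint X Y) (hS : finrank ℂ S ≤ 2)
    (hX : S ⊓ X ≠ ⊥) (hY : S ⊓ Y ≠ ⊥) : S ≤ (S ⊓ X) ⊔ (S ⊓ Y) := by
  have h1 : (S ⊓ X) ⊔ (S ⊓ Y) ≤ S := sup_le inf_le_left inf_le_left
  have h2 : (S ⊓ X) ⊓ (S ⊓ Y) = ⊥ := by
    refine le_bot_iff.1 ?_
    rw [← hXY.eq_bot]
    exact inf_le_inf inf_le_right inf_le_right
  have h3 := Submodule.finrank_sup_add_finrank_inf_eq (S ⊓ X) (S ⊓ Y)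
  rw [h2, finrank_bot] at h3
  have h4 : finrank ℂ ↥(S ⊓ X) ≠ 0 := fun h => hX (Submodule.finrank_eq_zero.1 h)
  have h5 : finrank ℂ ↥(S ⊓ Y) ≠ 0 := fun h => hY (Submodule.finrank_eq_zero.1 h)
  exact (Submodule.eq_of_le_of_finrank_le h1 (by omega)).ge

theorem ne_bot_of_mem {X S : Submodule ℂ N} {x : N} (hx : x ≠ 0) (hxX : x ∈ X) (hxS : x ∈ S) :
    S ⊓ X ≠ ⊥ := by
  intro h
  have h1 : x ∈ S ⊓ X := ⟨hxS, hxX⟩
  rw [h, Submodule.mem_bot] at h1
  exact hx h1

/-- A line that lies in a member of each complementary pair. -/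
theorem hasSmall_line {F : Set (Submodule ℂ N)} {v : N} (hv : v ≠ 0)
    (h : ∀ X ∈ F, ∀ Y ∈ F, IsCompl X Y → v ∈ X ∨ v ∈ Y) : HasSmall F := by
  refine ⟨span ℂ {v}, ?_, ?_, ?_⟩
  · intro h0
    exact hv ((Submodule.span_singleton_eq_bot).1 h0)
  · rw [finrank_span_singleton hv]
    norm_num
  · intro X hX Y hY hXY
    rcases h X hX Y hY hXY with h1 | h1
    · refine le_trans ?_ le_sup_left
      exact le_inf le_rfl ((Submodule.span_singleton_le_iff_mem _ _).2 h1)
    · refine le_trans ?_ le_sup_right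
      exact le_inf le_rfl ((Submodule.span_singleton_le_iff_mem _ _).2 h1)

/-- A plane that meets all members of the complementary pairs. -/
theorem hasSmall_plane {F : Set (Submodule ℂ N)} {a b : N} (ha : a ≠ 0)
    (h : ∀ X ∈ F, ∀ Y ∈ F, IsCompl X Y → ∃ x ∈ X, x ≠ 0 ∧ x ∈ span ℂ {a, b}) : HasSmall F := by
  classical
  have hfr : finrank ℂ (span ℂ ({a, b} : Set N)) ≤ 2 := by
    have h1 := finrank_span_finset_le_card (R := ℂ) ({a, b} : Finset N)
    rw [Finset.coe_pair] at h1
    exact h1.trans Finset.card_le_two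
  refine ⟨span ℂ {a, b}, ?_, hfr, ?_⟩
  · intro h0
    have h1 : a ∈ span ℂ ({a, b} : Set N) := Submodule.subset_span (by simp)
    rw [h0, Submodule.mem_bot] at h1
    exact ha h1
  · intro X hX Y hY hXY
    obtain ⟨x, hxX, hx0, hxS⟩ := h X hX Y hY hXY
    obtain ⟨y, hyY, hy0, hyS⟩ := h Y hY X hX hXY.symm
    exact le_of_two hXY.disjoint hfr (ne_bot_of_mem hx0 hxX hxS) (ne_bot_of_mem hy0 hyY hyS)

theorem not_compl_self [Nontrivial N] {X : Submodule ℂ N} (h : IsCompl X X) : False := by
  have h1 : X = ⊥ := by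
    have := h.disjoint.eq_bot
    rwa [inf_idem] at this
  have h2 : X = ⊤ := by
    have := h.codisjoint.eq_top
    rwa [sup_idem] at this
  exact bot_ne_top (h1.symm.trans h2)

variable {F : Set (Submodule ℂ N)} {A B C E : Submodule ℂ N}

/-- A common vector of members of two complementary pairs. -/
theorem small_of_common [Nontrivial N]
    (hF : ∀ X ∈ F, X = A ∨ X = B ∨ X = C ∨ X = E) (hAB : IsCompl A B) (hCE : IsCompl C E)
    {v : N} (hv : v ≠ 0) (hvA : v ∈ A) (hvC : v ∈ C) : HasSmall F := by
  have hz : ∀ {X Y : Submodule ℂ N}, IsCompl X Y → v ∈ X → v ∈ Y → False := by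
    intro X Y h h1 h2
    exact hv ((Submodule.disjoint_def.1 h.disjoint) v h1 h2)
  by_cases hBE : IsCompl B E
  · obtain ⟨a, ha, b, hb, hab⟩ : ∃ a ∈ B, ∃ b ∈ E, a + b = v := by
      have h1 : v ∈ B ⊔ E := by
        rw [hBE.codisjoint.eq_top]
        trivial
      exact Submodule.mem_sup.1 h1
    have ha0 : a ≠ 0 := by
      rintro rfl
      rw [zero_add] at hab
      exact hz hCE hvC (hab ▸ hb)
    have hb0 : b ≠ 0 := by
      rintro rfl
      rw [add_zero] at hab
      exact hz hAB hvA (hab ▸ ha)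
    have hva : v ∈ span ℂ ({a, b} : Set N) := by
      rw [← hab]
      exact Submodule.add_mem _ (Submodule.subset_span (by simp)) (Submodule.subset_span (by simp))
    refine hasSmall_plane (a := a) (b := b) ha0 ?_
    intro X hX Y hY hXY
    rcases hF X hX with rfl | rfl | rfl | rfl
    · exact ⟨v, hvA, hv, hva⟩
    · exact ⟨a, ha, ha0, Submodule.subset_span (by simp)⟩
    · exact ⟨v, hvC, hv, hva⟩
    · exact ⟨b, hb, hb0, Submodule.subset_span (by simp)⟩
  · refine hasSmall_line hv ?_
    intro X hX Y hY hXY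
    rcases hF X hX with rfl | rfl | rfl | rfl
    · exact Or.inl hvA
    · rcases hF Y hY with rfl | rfl | rfl | rfl
      · exact Or.inr hvA
      · exact (not_compl_self hXY).elim
      · exact Or.inr hvC
      · exact (hBE hXY).elim
    · exact Or.inl hvC
    · rcases hF Y hY with rfl | rfl | rfl | rfl
      · exact Or.inr hvA
      · exact (hBE hXY.symm).elim
      · exact Or.inr hvC
      · exact (not_compl_self hXY).elim

/-- Two disjoint complementary pairs, the first member is not zero. -/
theorem small_of_disjoint' [Nontrivial N]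
    (hF : ∀ X ∈ F, X = A ∨ X = B ∨ X = C ∨ X = E) (hAB : IsCompl A B) (hCE : IsCompl C E)
    (hA : A ≠ ⊥) : HasSmall F := by
  set p : N →ₗ[ℂ] N := A.projection B hAB with hp
  set q : N →ₗ[ℂ] N := C.projection E hCE with hq
  have hpA : ∀ x, p x ∈ A := fun x => Submodule.projection_apply_mem hAB x
  have hqC : ∀ x, q x ∈ C := fun x => Submodule.projection_apply_mem hCE x
  have hpB : ∀ x, x - p x ∈ B := by
    intro x
    have h1 := (Submodule.projection_apply_eq_zero_iff hAB (x := x - p x)).1
    apply h1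
    rw [← hp, map_sub, hp, Submodule.projection_apply_of_mem_left hAB (hpA x), sub_self]
  have hqE : ∀ x, x - q x ∈ E := by
    intro x
    have h1 := (Submodule.projection_apply_eq_zero_iff hCE (x := x - q x)).1
    apply h1
    rw [← hq, map_sub, hq, Submodule.projection_apply_of_mem_left hCE (hqC x), sub_self]
  -- the operator `v ↦ p (2 q v - v)` on `A`
  let T : A →ₗ[ℂ] A := (LinearMap.codRestrict A p hpA) ∘ₗ ((2 : ℂ) • q - LinearMap.id) ∘ₗ A.subtype
  have hT : ∀ x : A, ((T x : A) : N) = p ((2 : ℂ) • q x - x) := fun x => rfl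
  have hnt : Nontrivial A := Submodule.nontrivial_iff_ne_bot.2 hA
  obtain ⟨lam, hlam⟩ := Module.End.exists_eigenvalue T
  obtain ⟨w, hw⟩ := hlam.exists_hasEigenvector
  have hw1 : T w = lam • w := Module.End.mem_eigenspace_iff.1 hw.1
  set v : N := (w : N) with hv
  have hvA : v ∈ A := w.2
  have hv0 : v ≠ 0 := fun h => hw.2 (Subtype.ext h)
  set d : N := (2 : ℂ) • q v - v with hd
  have hpd : p d = lam • v := by
    have h1 := congrArg (fun x : A => (x : N)) hw1
    exact h1
  have hplus : v + d ∈ C := by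
    have h1 : v + d = (2 : ℂ) • q v := by rw [hd]; abel
    rw [h1]
    exact Submodule.smul_mem _ _ (hqC v)
  have hminus : v - d ∈ E := by
    have h1 : v - d = (2 : ℂ) • (v - q v) := by rw [hd]; module
    rw [h1]
    exact Submodule.smul_mem _ _ (hqE v)
  have hu : d - lam • v ∈ B := by
    have h1 := hpB d
    rwa [hpd] at h1
  have hzAB : ∀ x, x ∈ A → x ∈ B → x = 0 := fun x h1 h2 =>
    (Submodule.disjoint_def.1 hAB.disjoint) x h1 h2
  have hzCE : ∀ x, x ∈ C → x ∈ E → x = 0 := fun x h1 h2 =>
    (Submodule.disjoint_def.1 hCE.disjoint) x h1 h2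
  by_cases hu0 : d - lam • v = 0
  · have hdv : d = lam • v := sub_eq_zero.1 hu0
    by_cases hl : lam = 1
    · have h1 : v ∈ C := by
        rw [hdv, hl, one_smul, ← two_smul ℂ] at hplus
        exact (Submodule.smul_mem_iff _ two_ne_zero).1 hplus
      exact small_of_common hF hAB hCE hv0 hvA h1
    · have h1 : v ∈ E := by
        have h2 : v - d = (1 - lam) • v := by rw [hdv]; module
        rw [h2] at hminus
        exact (Submodule.smul_mem_iff _ (sub_ne_zero.2 (Ne.symm hl))).1 hminus
      exact small_of_common (fun X hX => by have := hF X hX; tauto) hAB hCE.symm hv0 hvA h1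
  · have hd' : d = lam • v + (d - lam • v) := by abel
    have hSv : v ∈ span ℂ ({v, d - lam • v} : Set N) := Submodule.subset_span (by simp)
    have hSu : d - lam • v ∈ span ℂ ({v, d - lam • v} : Set N) := Submodule.subset_span (by simp)
    have hSd : d ∈ span ℂ ({v, d - lam • v} : Set N) := by
      have h1 := Submodule.add_mem _ (Submodule.smul_mem _ lam hSv) hSu
      rwa [← hd'] at h1
    have hplus0 : v + d ≠ 0 := by
      intro h0
      apply hu0
      apply hzAB _ _ hu
      have h1 : d - lam • v = (-1 - lam) • v := by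
        have h2 : d = -v := by
          rw [eq_neg_iff_add_eq_zero, add_comm]
          exact h0
        rw [h2]
        module
      rw [h1]
      exact Submodule.smul_mem _ _ hvA
    have hminus0 : v - d ≠ 0 := by
      intro h0
      apply hu0
      apply hzAB _ _ hu
      have h1 : d - lam • v = (1 - lam) • v := by
        have h2 : d = v := (sub_eq_zero.1 h0).symm
        rw [h2]
        module
      rw [h1]
      exact Submodule.smul_mem _ _ hvA
    refine hasSmall_plane (a := v) (b := d - lam • v) hv0 ?_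
    intro X hX Y hY hXY
    rcases hF X hX with rfl | rfl | rfl | rfl
    · exact ⟨v, hvA, hv0, hSv⟩
    · exact ⟨_, hu, hu0, hSu⟩
    · exact ⟨_, hplus, hplus0, Submodule.add_mem _ hSv hSd⟩
    · exact ⟨_, hminus, hminus0, Submodule.sub_mem _ hSv hSd⟩

/-- Two disjoint complementary pairs. -/
theorem small_of_disjoint [Nontrivial N]
    (hF : ∀ X ∈ F, X = A ∨ X = B ∨ X = C ∨ X = E) (hAB : IsCompl A B) (hCE : IsCompl C E) :
    HasSmall F := by
  by_cases hA : A = ⊥
  · have hB : B ≠ ⊥ := by
      rintro rfl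
      rw [hA] at hAB
      exact not_compl_self hAB
    exact small_of_disjoint' (fun X hX => by have := hF X hX; tauto) hAB.symm hCE hB
  · exact small_of_disjoint' hF hAB hCE hA

/-- All complementary pairs contain the first member. -/
theorem small_of_star [Nontrivial N]
    (hF : ∀ X ∈ F, X = A ∨ X = B ∨ X = C ∨ X = E) (h1 : ¬ IsCompl B C) (h2 : ¬ IsCompl B E)
    (h3 : ¬ IsCompl C E) : HasSmall F := by
  have key : ∀ X ∈ F, ∀ Y ∈ F, IsCompl X Y → X = A ∨ Y = A := by
    intro X hX Y hY hXY
    have h1' : ¬ IsCompl C B := fun h => h1 h.symm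
    have h2' : ¬ IsCompl E B := fun h => h2 h.symm
    have h3' : ¬ IsCompl E C := fun h => h3 h.symm
    have h4 : ∀ Z : Submodule ℂ N, ¬ IsCompl Z Z := fun Z h => not_compl_self h
    rcases hF X hX with rfl | rfl | rfl | rfl
    · exact Or.inl rfl
    all_goals
      rcases hF Y hY with rfl | rfl | rfl | rfl
      · exact Or.inr rfl
      all_goals first | exact (h1 hXY).elim | exact (h2 hXY).elim | exact (h3 hXY).elim | exact (h1' hXY).elim | exact (h2' hXY).elim | exact (h3' hXY).elim | exact (h4 _ hXY).elim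
  by_cases hA : A = ⊥
  · obtain ⟨v, hv⟩ := exists_ne (0 : N)
    refine hasSmall_line hv ?_
    intro X hX Y hY hXY
    rcases key X hX Y hY hXY with h | h
    · right
      have h5 : Y = ⊤ := by
        rw [h, hA] at hXY
        exact eq_top_of_bot_isCompl hXY
      rw [h5]
      trivial
    · left
      have h5 : X = ⊤ := by
        rw [h, hA] at hXY
        exact eq_top_of_isCompl_bot hXY
      rw [h5]
      trivial
  · obtain ⟨v, hv, hv0⟩ := (Submodule.ne_bot_iff _).1 hA
    refine hasSmall_line hv0 ?_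
    intro X hX Y hY hXY
    rcases key X hX Y hY hXY with h | h
    · exact Or.inl (h ▸ hv)
    · exact Or.inr (h ▸ hv)

/-- The complementary pairs form a triangle. -/
theorem small_of_triangle [Nontrivial N]
    (hF : ∀ X ∈ F, X = A ∨ X = B ∨ X = C ∨ X = E) (hAB : IsCompl A B) (hAC : IsCompl A C)
    (h1 : ¬ IsCompl A E) (h2 : ¬ IsCompl B E) (h3 : ¬ IsCompl C E) : HasSmall F := by
  -- forget `E`
  obtain ⟨S, hS0, hS, hc⟩ := small_of_disjoint (F := {X | X ∈ F ∧ (X = A ∨ X = B ∨ X = C)})
    (A := A) (B := B) (C := C) (E := A) (fun X hX => by have := hX.2; tauto) hAB hAC.symm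
  refine ⟨S, hS0, hS, ?_⟩
  intro X hX Y hY hXY
  have h4 : ∀ Z ∈ F, ¬ IsCompl Z E := by
    intro Z hZ hZE
    rcases hF Z hZ with rfl | rfl | rfl | rfl
    · exact h1 hZE
    · exact h2 hZE
    · exact h3 hZE
    · exact not_compl_self hZE
  have hX' : X = A ∨ X = B ∨ X = C := by
    rcases hF X hX with h | h | h | h
    · exact Or.inl h
    · exact Or.inr (Or.inl h)
    · exact Or.inr (Or.inr h)
    · exact (h4 Y hY (h ▸ hXY.symm)).elim
  have hY' : Y = A ∨ Y = B ∨ Y = C := by
    rcases hF Y hY with h | h | h | h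
    · exact Or.inl h
    · exact Or.inr (Or.inl h)
    · exact Or.inr (Or.inr h)
    · exact (h4 X hX (h ▸ hXY)).elim
  exact hc X ⟨hX, hX'⟩ Y ⟨hY, hY'⟩ hXY

/-- **Four subspaces** always have a nonzero compatible subspace of dimension at most two. -/
theorem small_of_four [Nontrivial N]
    (hF : ∀ X ∈ F, X = A ∨ X = B ∨ X = C ∨ X = E) : HasSmall F := by
  have r1 : ∀ X ∈ F, X = A ∨ X = C ∨ X = B ∨ X = E := fun X hX => by have := hF X hX; tauto
  have r2 : ∀ X ∈ F, X = A ∨ X = E ∨ X = B ∨ X = C := fun X hX => by have := hF X hX; tauto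
  have r3 : ∀ X ∈ F, X = B ∨ X = A ∨ X = C ∨ X = E := fun X hX => by have := hF X hX; tauto
  have r4 : ∀ X ∈ F, X = C ∨ X = A ∨ X = B ∨ X = E := fun X hX => by have := hF X hX; tauto
  have r5 : ∀ X ∈ F, X = E ∨ X = A ∨ X = B ∨ X = C := fun X hX => by have := hF X hX; tauto
  have r6 : ∀ X ∈ F, X = A ∨ X = B ∨ X = E ∨ X = C := fun X hX => by have := hF X hX; tauto
  have r7 : ∀ X ∈ F, X = A ∨ X = C ∨ X = E ∨ X = B := fun X hX => by have := hF X hX; tauto
  have r8 : ∀ X ∈ F, X = B ∨ X = C ∨ X = E ∨ X = A := fun X hX => by have := hF X hX; tauto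
  have sy : ∀ X Y : Submodule ℂ N, IsCompl X Y ↔ IsCompl Y X := fun X Y => ⟨fun h => h.symm, fun h => h.symm⟩
  by_cases e12 : IsCompl A B
  · by_cases e34 : IsCompl C E
    · exact small_of_disjoint hF e12 e34
    by_cases e13 : IsCompl A C
    · by_cases e24 : IsCompl B E
      · exact small_of_disjoint r1 e13 e24
      by_cases e14 : IsCompl A E
      · by_cases e23 : IsCompl B C
        · exact small_of_disjoint r2 e14 e23
        · exact small_of_star hF e23 e24 e34
      · exact small_of_triangle hF e12 e13 e14 e24 e34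
    · by_cases e14 : IsCompl A E
      · by_cases e23 : IsCompl B C
        · exact small_of_disjoint r2 e14 e23
        · by_cases e24 : IsCompl B E
          · exact small_of_triangle r6 e12 e14 e13 e23 (fun h => e34 h.symm)
          · exact small_of_star hF e23 e24 e34
      · exact small_of_star r3 e13 e14 e34
  · by_cases e13 : IsCompl A C
    · by_cases e24 : IsCompl B E
      · exact small_of_disjoint r1 e13 e24
      by_cases e14 : IsCompl A E
      · by_cases e23 : IsCompl B C
        · exact small_of_disjoint r2 e14 e23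
        · by_cases e34 : IsCompl C E
          · exact small_of_triangle r7 e13 e14 e12 (fun h => e23 h.symm) (fun h => e24 h.symm)
          · exact small_of_star hF e23 e24 e34
      · exact small_of_star r4 e12 e14 e24
    · by_cases e14 : IsCompl A E
      · by_cases e23 : IsCompl B C
        · exact small_of_disjoint r2 e14 e23
        · exact small_of_star r5 e12 e13 e23
      · -- `A` is isolated
        by_cases e23 : IsCompl B C
        · by_cases e24 : IsCompl B E
          · by_cases e34 : IsCompl C E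
            · exact small_of_triangle r8 e23 e24 (fun h => e12 h.symm) (fun h => e13 h.symm)
                (fun h => e14 h.symm)
            · exact small_of_star r3 e13 e14 e34
          · exact small_of_star r4 e12 e14 e24
        · exact small_of_star r5 e12 e13 e23

end Pool.Agent.Q34.SD
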