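import Mathlib
import Pool.Agent.Q34.SD.Four
import Pool.Agent.W437.HP.Link

/-!
# Irreducible systems of involutions with at most four eigenspaces
-/

set_option linter.unusedSectionVars false

namespace Pool.Agent.Q34.SD

open Module Submodule Pool.Agent.W437.HP

variable {N : Type*} [AddCommGroup N] [Module ℂ N] [FiniteDimensional ℂ N] {I : Type*}
  {d : I → End ℂ N}

/-- The eigenspace of the eigenvalue one. -/
def pos (t : End ℂ N) : Submodule ℂ N := LinearMap.ker (t - 1)

/-- The eigenspace of the eigenvalue minus one. -/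
def neg (t : End ℂ N) : Submodule ℂ N := LinearMap.ker (t + 1)

theorem mem_pos {t : End ℂ N} {x : N} : x ∈ pos t ↔ t x = x := by
  unfold pos
  rw [LinearMap.mem_ker, LinearMap.sub_apply, sub_eq_zero]
  rfl

theorem mem_neg {t : End ℂ N} {x : N} : x ∈ neg t ↔ t x = -x := by
  unfold neg
  rw [LinearMap.mem_ker, LinearMap.add_apply, eq_neg_iff_add_eq_zero]
  rfl

theorem isCompl_pos_neg {t : End ℂ N} (h : t * t = 1) : IsCompl (pos t) (neg t) := by
  have h2 : ∀ x, t (t x) = x := fun x => LinearMap.congr_fun h x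
  refine IsCompl.of_eq ?_ ?_
  · rw [Submodule.eq_bot_iff]
    rintro x ⟨h3, h4⟩
    have h5 : t x = x := mem_pos.1 h3
    have h6 : t x = -x := mem_neg.1 h4
    rw [h5] at h6
    have h7 : (2 : ℂ) • x = 0 := by
      rw [two_smul]
      nth_rewrite 1 [h6]
      exact neg_add_cancel x
    exact (smul_eq_zero.1 h7).resolve_left two_ne_zero
  · rw [Submodule.eq_top_iff']
    intro x
    have h3 : x = (2 : ℂ)⁻¹ • (x + t x) + (2 : ℂ)⁻¹ • (x - t x) := by
      rw [← smul_add]
      have h4 : x + t x + (x - t x) = (2 : ℂ) • x := by rw [two_smul]; abel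
      rw [h4, smul_smul, inv_mul_cancel₀ two_ne_zero, one_smul]
    rw [h3]
    refine Submodule.add_mem_sup (Submodule.smul_mem _ _ ?_) (Submodule.smul_mem _ _ ?_)
    · rw [mem_pos, map_add, h2, add_comm]
    · rw [mem_neg, map_sub, h2, neg_sub]

/-- A system of involutions without proper stable subspaces. -/
structure Irr (d : I → End ℂ N) : Prop where
  inv : ∀ i, d i * d i = 1
  irr : ∀ M : Submodule ℂ N, (∀ i, ∀ x ∈ M, d i x ∈ M) → M = ⊥ ∨ M = ⊤

/-- The set of the eigenspaces. -/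
def Eig (d : I → End ℂ N) : Set (Submodule ℂ N) := {X | ∃ i, X = pos (d i) ∨ X = neg (d i)}

theorem stable_of_le {t : End ℂ N} {S : Submodule ℂ N} (h : S ≤ (S ⊓ pos t) ⊔ (S ⊓ neg t)) :
    ∀ x ∈ S, t x ∈ S := by
  intro x hx
  obtain ⟨a, ha, b, hb, rfl⟩ := Submodule.mem_sup.1 (h hx)
  rw [map_add, mem_pos.1 ha.2, mem_neg.1 hb.2]
  exact Submodule.add_mem _ ha.1 (Submodule.neg_mem _ hb.1)

theorem exists_four {α : Type*} [Nonempty α] {s : Set α} (h : s.encard ≤ 4) :
    ∃ a b c e : α, ∀ x ∈ s, x = a ∨ x = b ∨ x = c ∨ x = e := by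
  classical
  have hfin : s.Finite := Set.finite_of_encard_le_coe (k := 4) (by exact_mod_cast h)
  have hcard : hfin.toFinset.card ≤ 4 := by
    have h1 := hfin.encard_eq_coe_toFinset_card
    rw [h1] at h
    exact_mod_cast h
  obtain ⟨f, hf⟩ : ∃ f : Fin 4 → α, ∀ x ∈ s, ∃ k, f k = x := by
    let e := hfin.toFinset.equivFin
    refine ⟨fun k => if hk : (k : ℕ) < hfin.toFinset.card then (e.symm ⟨k, hk⟩ : α)
      else Classical.arbitrary α, ?_⟩
    intro x hx
    have hx' : x ∈ hfin.toFinset := by simpa using hx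
    have h1 := (e ⟨x, hx'⟩).2
    refine ⟨⟨(e ⟨x, hx'⟩ : ℕ), h1.trans_le hcard⟩, ?_⟩
    simp only [h1, dif_pos]
    have h2 : (⟨((e ⟨x, hx'⟩ : Fin _) : ℕ), h1⟩ : Fin hfin.toFinset.card) = e ⟨x, hx'⟩ := rfl
    rw [h2, Equiv.symm_apply_apply]
  refine ⟨f 0, f 1, f 2, f 3, ?_⟩
  intro x hx
  obtain ⟨k, hk⟩ := hf x hx
  fin_cases k
  · exact Or.inl hk.symm
  · exact Or.inr (Or.inl hk.symm)
  · exact Or.inr (Or.inr (Or.inl hk.symm))
  · exact Or.inr (Or.inr (Or.inr hk.symm))

namespace Irr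

/-- The dimension is at most two. -/
theorem finrank_le_two (h : Irr d) (h4 : (Eig d).encard ≤ 4) : finrank ℂ N ≤ 2 := by
  rcases subsingleton_or_nontrivial N with hN | hN
  · rw [Module.finrank_zero_of_subsingleton]
    norm_num
  obtain ⟨A, B, C, E, hF⟩ := exists_four h4
  obtain ⟨S, hS0, hS, hc⟩ := small_of_four hF
  have hst : ∀ i, ∀ x ∈ S, d i x ∈ S := fun i => stable_of_le
    (hc _ ⟨i, Or.inl rfl⟩ _ ⟨i, Or.inr rfl⟩ (isCompl_pos_neg (h.inv i)))
  rcases h.irr S hst with h1 | h1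
  · exact (hS0 h1).elim
  · rw [h1, finrank_top] at hS
    exact hS

/-- The involutions are not scalars. -/
theorem not_scalar (h : Irr d) (h4 : (Eig d).encard ≤ 4) (h2 : finrank ℂ N = 2) (i : I) :
    pos (d i) ≠ ⊤ ∧ neg (d i) ≠ ⊤ := by
  by_contra hcon
  have hnt : Nontrivial N := Module.nontrivial_of_finrank_pos (R := ℂ) (by omega)
  have hbt : (⊥ : Submodule ℂ N) ≠ ⊤ := bot_ne_top
  have hci := isCompl_pos_neg (h.inv i)
  -- both `⊤` and `⊥` are eigenspaces
  have htop : (⊤ : Submodule ℂ N) ∈ Eig d ∧ (⊥ : Submodule ℂ N) ∈ Eig d := by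
    rw [not_and_or, not_not, not_not] at hcon
    rcases hcon with h1 | h1
    · refine ⟨⟨i, Or.inl h1.symm⟩, i, Or.inr ?_⟩
      rw [h1] at hci
      exact (eq_bot_of_top_isCompl hci).symm
    · refine ⟨⟨i, Or.inr h1.symm⟩, i, Or.inl ?_⟩
      rw [h1] at hci
      exact (eq_bot_of_isCompl_top hci).symm
  obtain ⟨F, hF⟩ : ∃ F, F = Eig d \ {⊤, ⊥} := ⟨_, rfl⟩
  have hsub : ({⊤, ⊥} : Set (Submodule ℂ N)) ⊆ Eig d := by
    rintro X (rfl | rfl)
    · exact htop.1
    · exact htop.2
  have hF2 : F.encard ≤ 2 := by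
    have h3 := Set.encard_sdiff_add_encard_of_subset hsub
    rw [← hF, Set.encard_pair hbt.symm] at h3
    have h5 : F.encard + 2 ≤ 2 + 2 := by
      rw [h3]
      refine h4.trans (le_of_eq ?_)
      norm_num
    exact (ENat.add_le_add_iff_right (by decide)).1 h5
  have hmem : ∀ X, X ∈ F ↔ X ∈ Eig d ∧ X ≠ ⊤ ∧ X ≠ ⊥ := by
    intro X
    rw [hF]
    simp only [Set.mem_sdiff, Set.mem_insert_iff, Set.mem_singleton_iff, not_or]
  -- a scalar involution preserves all subspaces
  have hsc : ∀ j, (pos (d j) = ⊤ ∨ neg (d j) = ⊤) → ∀ M : Submodule ℂ N, ∀ x ∈ M, d j x ∈ M := by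
    rintro j (h1 | h1) M x hx
    · have h3 : x ∈ pos (d j) := by rw [h1]; trivial
      rw [mem_pos.1 h3]
      exact hx
    · have h3 : x ∈ neg (d j) := by rw [h1]; trivial
      rw [mem_neg.1 h3]
      exact Submodule.neg_mem _ hx
  -- the eigenspaces of the others
  have hns : ∀ j, ¬ (pos (d j) = ⊤ ∨ neg (d j) = ⊤) → F = {pos (d j), neg (d j)} := by
    intro j hj
    rw [not_or] at hj
    have hcj := isCompl_pos_neg (h.inv j)
    have h1 : pos (d j) ≠ ⊥ := by
      intro h0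
      rw [h0] at hcj
      exact hj.2 (eq_top_of_bot_isCompl hcj)
    have h3 : neg (d j) ≠ ⊥ := by
      intro h0
      rw [h0] at hcj
      exact hj.1 (eq_top_of_isCompl_bot hcj)
    have hne : pos (d j) ≠ neg (d j) := by
      intro h0
      rw [h0] at hcj
      exact not_compl_self hcj
    have h5 : ({pos (d j), neg (d j)} : Set (Submodule ℂ N)) ⊆ F := by
      rintro X (rfl | rfl)
      · exact (hmem _).2 ⟨⟨j, Or.inl rfl⟩, hj.1, h1⟩
      · exact (hmem _).2 ⟨⟨j, Or.inr rfl⟩, hj.2, h3⟩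
    refine ((Set.toFinite _).eq_of_subset_of_encard_le h5 ?_).symm
    rw [Set.encard_pair hne]
    exact hF2
  by_cases hFe : F.Nonempty
  · obtain ⟨M, hM⟩ := hFe
    have hst : ∀ j, ∀ x ∈ M, d j x ∈ M := by
      intro j
      by_cases hj : pos (d j) = ⊤ ∨ neg (d j) = ⊤
      · exact hsc j hj M
      · have h1 := hns j hj
        rw [h1] at hM
        rcases hM with rfl | rfl
        · intro x hx
          rw [mem_pos.1 hx]
          exact hx
        · intro x hx
          rw [mem_neg.1 hx]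
          exact Submodule.neg_mem _ hx
    have hM' := (hmem M).1 hM
    rcases h.irr M hst with h1 | h1
    · exact hM'.2.2 h1
    · exact hM'.2.1 h1
  · have hall : ∀ j, pos (d j) = ⊤ ∨ neg (d j) = ⊤ := by
      intro j
      by_contra hj
      exact hFe ⟨pos (d j), by rw [hns j hj]; exact Or.inl rfl⟩
    obtain ⟨v, hv⟩ := exists_ne (0 : N)
    rcases h.irr (span ℂ {v}) (fun j => hsc j (hall j) _) with h1 | h1
    · exact hv (Submodule.span_singleton_eq_bot.1 h1)
    · have h3 := finrank_span_singleton (K := ℂ) hv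
      rw [h1, finrank_top, h2] at h3
      norm_num at h3

end Irr

/-- An eigenbasis of an involution of a plane that is not scalar. -/
theorem exists_eigenbasis {t : End ℂ N} (ht : t * t = 1) (h2 : finrank ℂ N = 2)
    (h : pos t ≠ ⊤ ∧ neg t ≠ ⊤) :
    ∃ p q : N, t p = p ∧ t q = -q ∧ p ≠ 0 ∧ q ≠ 0 ∧ (∀ x, ∃ a b : ℂ, x = a • p + b • q) ∧
      (∀ x ∈ pos t, ∃ a : ℂ, x = a • p) ∧ ∀ x ∈ neg t, ∃ b : ℂ, x = b • q := by
  have hc := isCompl_pos_neg ht
  have h3 := Submodule.finrank_sup_add_finrank_inf_eq (pos t) (neg t)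
  rw [hc.codisjoint.eq_top, hc.disjoint.eq_bot, finrank_bot, finrank_top, h2] at h3
  have h4 : finrank ℂ (pos t) ≠ 2 := by
    intro h5
    exact h.1 (Submodule.eq_top_of_finrank_eq (h5.trans h2.symm))
  have h5 : finrank ℂ (neg t) ≠ 2 := by
    intro h5
    exact h.2 (Submodule.eq_top_of_finrank_eq (h5.trans h2.symm))
  have h6 : finrank ℂ (pos t) = 1 := by omega
  have h7 : finrank ℂ (neg t) = 1 := by omega
  obtain ⟨p, hp0, hp⟩ := finrank_eq_one_iff'.1 h6
  obtain ⟨q, hq0, hq⟩ := finrank_eq_one_iff'.1 h7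
  have hpos : ∀ x ∈ pos t, ∃ a : ℂ, x = a • (p : N) := by
    intro x hx
    obtain ⟨a, ha⟩ := hp ⟨x, hx⟩
    exact ⟨a, (congrArg (fun z : pos t => (z : N)) ha).symm⟩
  have hneg : ∀ x ∈ neg t, ∃ b : ℂ, x = b • (q : N) := by
    intro x hx
    obtain ⟨a, ha⟩ := hq ⟨x, hx⟩
    exact ⟨a, (congrArg (fun z : neg t => (z : N)) ha).symm⟩
  refine ⟨p, q, mem_pos.1 p.2, mem_neg.1 q.2, fun h0 => hp0 (Subtype.ext h0),
    fun h0 => hq0 (Subtype.ext h0), ?_, hpos, hneg⟩
  intro x
  have hx : x ∈ pos t ⊔ neg t := by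
    rw [hc.codisjoint.eq_top]
    trivial
  obtain ⟨y, hy, z, hz, rfl⟩ := Submodule.mem_sup.1 hx
  obtain ⟨a, rfl⟩ := hpos y hy
  obtain ⟨b, rfl⟩ := hneg z hz
  exact ⟨a, b, rfl⟩

/-- A nonscalar involution of a plane preserves alternating forms. -/
theorem isSp_invol {t : End ℂ N} (ht : t * t = 1) (h2 : finrank ℂ N = 2)
    (h : pos t ≠ ⊤ ∧ neg t ≠ ⊤) {w : N →ₗ[ℂ] N →ₗ[ℂ] ℂ} (hw : ∀ x, w x x = 0) :
    IsSp w t := by
  obtain ⟨p, q, hp, hq, -, -, hs, -, -⟩ := exists_eigenbasis ht h2 h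
  intro x y
  obtain ⟨a, b, rfl⟩ := hs x
  obtain ⟨a', b', rfl⟩ := hs y
  have h3 : w q p = -w p q := w_anti hw q p
  simp only [map_add, map_smul, hp, hq, LinearMap.add_apply, LinearMap.smul_apply, smul_neg,
    smul_eq_mul, hw, map_neg, LinearMap.neg_apply, h3]
  ring

/-- The Lie algebra generated by the involutions contains all operators that preserve an
alternating form. -/
theorem Irr.EE_mem (hI : Irr d) (h2 : finrank ℂ N = 2)
    (hns : ∀ i, pos (d i) ≠ ⊤ ∧ neg (d i) ≠ ⊤) {G : Submodule ℂ (End ℂ N)}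
    (hG : ∀ i, d i ∈ G) (hbr : ∀ a ∈ G, ∀ b ∈ G, a * b - b * a ∈ G)
    {w : N →ₗ[ℂ] N →ₗ[ℂ] ℂ} (hw : ∀ x, w x x = 0) (x y : N) : EE w x y ∈ G := by
  have hnt : Nontrivial N := Module.nontrivial_of_finrank_pos (R := ℂ) (by omega)
  -- an involution
  obtain ⟨i⟩ : Nonempty I := by
    by_contra hI0
    rw [not_nonempty_iff] at hI0
    obtain ⟨v, hv⟩ := exists_ne (0 : N)
    rcases hI.irr (span ℂ {v}) (fun j => (hI0.false j).elim) with h1 | h1
    · exact hv (Submodule.span_singleton_eq_bot.1 h1)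
    · have h3 := finrank_span_singleton (K := ℂ) hv
      rw [h1, finrank_top, h2] at h3
      norm_num at h3
  obtain ⟨h, hh⟩ : ∃ h, h = d i := ⟨_, rfl⟩
  have hhG : h ∈ G := hh ▸ hG i
  have hhi : h * h = 1 := hh ▸ hI.inv i
  have hhn : pos h ≠ ⊤ ∧ neg h ≠ ⊤ := hh ▸ hns i
  obtain ⟨p, q, hp, hq, hp0, hq0, hs, hpos, hneg⟩ := exists_eigenbasis hhi h2 hhn
  have hext : ∀ a b : End ℂ N, a p = b p → a q = b q → a = b := by
    intro a b h1 h3
    refine LinearMap.ext fun z => ?_
    obtain ⟨r, s, rfl⟩ := hs z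
    rw [map_add, map_add, map_smul, map_smul, map_smul, map_smul, h1, h3]
  have hup : ∀ X ∈ G, (1 + h) * X * (1 - h) ∈ G := by
    intro X hX
    have h1 := hbr h hhG _ (hbr h hhG X hX)
    have h3 := hbr h hhG X hX
    have h5 : (1 + h) * X * (1 - h) = (2 : ℂ)⁻¹ • (h * (h * X - X * h) - (h * X - X * h) * h) +
        (h * X - X * h) := by
      have h6 : h * (h * X - X * h) - (h * X - X * h) * h =
          (h * h) * X + X * (h * h) - (2 : ℂ) • (h * X * h) := by
        rw [two_smul]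
        noncomm_ring
      rw [h6, hhi, one_mul, mul_one, ← two_smul ℂ X, ← smul_sub, smul_smul,
        inv_mul_cancel₀ two_ne_zero, one_smul]
      noncomm_ring
    rw [h5]
    exact Submodule.add_mem _ (Submodule.smul_mem _ _ h1) h3
  have hdn : ∀ X ∈ G, (1 - h) * X * (1 + h) ∈ G := by
    intro X hX
    have h1 := hbr h hhG _ (hbr h hhG X hX)
    have h3 := hbr h hhG X hX
    have h5 : (1 - h) * X * (1 + h) = (2 : ℂ)⁻¹ • (h * (h * X - X * h) - (h * X - X * h) * h) -
        (h * X - X * h) := by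
      have h6 : h * (h * X - X * h) - (h * X - X * h) * h =
          (h * h) * X + X * (h * h) - (2 : ℂ) • (h * X * h) := by
        rw [two_smul]
        noncomm_ring
      rw [h6, hhi, one_mul, mul_one, ← two_smul ℂ X, ← smul_sub, smul_smul,
        inv_mul_cancel₀ two_ne_zero, one_smul]
      noncomm_ring
    rw [h5]
    exact Submodule.sub_mem _ (Submodule.smul_mem _ _ h1) h3
  -- the lowering operator
  obtain ⟨c, hc0, F', hF'G, hF'p, hF'q⟩ : ∃ c : ℂ, c ≠ 0 ∧ ∃ F' ∈ G, F' p = c • q ∧ F' q = 0 := by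
    obtain ⟨j, hj⟩ : ∃ j, d j p ∉ pos h := by
      by_contra hcon
      push Not at hcon
      have hst : ∀ j, ∀ x ∈ pos h, d j x ∈ pos h := by
        intro j x hx
        obtain ⟨a, rfl⟩ := hpos x hx
        rw [map_smul]
        exact Submodule.smul_mem _ _ (hcon j)
      rcases hI.irr _ hst with h1 | h1
      · have h3 : p ∈ pos h := mem_pos.2 hp
        rw [h1] at h3
        exact hp0 ((Submodule.mem_bot ℂ).1 h3)
      · exact hhn.1 h1
    obtain ⟨a, b, hab⟩ := hs (d j p)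
    have hb0 : b ≠ 0 := by
      rintro rfl
      apply hj
      rw [hab, zero_smul, add_zero]
      exact Submodule.smul_mem _ _ (mem_pos.2 hp)
    refine ⟨4 * b, mul_ne_zero (by norm_num) hb0, _, hdn _ (hG j), ?_, ?_⟩
    · change (d j (p + h p)) - h (d j (p + h p)) = _
      rw [hp, ← two_smul ℂ p, map_smul, map_smul, hab, map_add, map_smul, map_smul, hp, hq]
      module
    · change (d j (q + h q)) - h (d j (q + h q)) = _
      rw [hq, add_neg_cancel, map_zero, map_zero, sub_zero]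
  -- the raising operator
  obtain ⟨e, he0, E', hE'G, hE'q, hE'p⟩ : ∃ c : ℂ, c ≠ 0 ∧ ∃ F' ∈ G, F' q = c • p ∧ F' p = 0 := by
    obtain ⟨j, hj⟩ : ∃ j, d j q ∉ neg h := by
      by_contra hcon
      push Not at hcon
      have hst : ∀ j, ∀ x ∈ neg h, d j x ∈ neg h := by
        intro j x hx
        obtain ⟨a, rfl⟩ := hneg x hx
        rw [map_smul]
        exact Submodule.smul_mem _ _ (hcon j)
      rcases hI.irr _ hst with h1 | h1
      · have h3 : q ∈ neg h := mem_neg.2 hq
        rw [h1] at h3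
        exact hq0 ((Submodule.mem_bot ℂ).1 h3)
      · exact hhn.2 h1
    obtain ⟨a, b, hab⟩ := hs (d j q)
    have ha0 : a ≠ 0 := by
      rintro rfl
      apply hj
      rw [hab, zero_smul, zero_add]
      exact Submodule.smul_mem _ _ (mem_neg.2 hq)
    refine ⟨4 * a, mul_ne_zero (by norm_num) ha0, _, hup _ (hG j), ?_, ?_⟩
    · change (d j (q - h q)) + h (d j (q - h q)) = _
      rw [hq, sub_neg_eq_add, ← two_smul ℂ q, map_smul, map_smul, hab, map_add, map_smul,
        map_smul, hp, hq]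
      module
    · change (d j (p - h p)) + h (d j (p - h p)) = _
      rw [hp, sub_self, map_zero, map_zero, add_zero]
  have hqp : w q p = -w p q := w_anti hw q p
  have k1 : EE w p p ∈ G := by
    have h1 : EE w p p = (2 * w p q * e⁻¹) • E' := by
      apply hext
      · rw [EE_apply, LinearMap.smul_apply, hE'p, hw, zero_smul, smul_zero, add_zero]
      · rw [EE_apply, LinearMap.smul_apply, hE'q, smul_smul, ← add_smul]
        congr 1
        field_simp
        ring
    rw [h1]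
    exact Submodule.smul_mem _ _ hE'G
  have k2 : EE w q q ∈ G := by
    have h1 : EE w q q = (2 * w q p * c⁻¹) • F' := by
      apply hext
      · rw [EE_apply, LinearMap.smul_apply, hF'p, smul_smul, ← add_smul]
        congr 1
        field_simp
        ring
      · rw [EE_apply, LinearMap.smul_apply, hF'q, hw, zero_smul, smul_zero, add_zero]
    rw [h1]
    exact Submodule.smul_mem _ _ hF'G
  have k3 : EE w p q ∈ G := by
    have h1 : EE w p q = (w q p) • h := by
      apply hext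
      · rw [EE_apply, LinearMap.smul_apply, hp, hw, zero_smul, add_zero]
      · rw [EE_apply, LinearMap.smul_apply, hq, hw, zero_smul, zero_add, hqp, smul_neg,
          neg_smul, neg_neg]
    rw [h1]
    exact Submodule.smul_mem _ _ hhG
  obtain ⟨a, b, rfl⟩ := hs x
  obtain ⟨a', b', rfl⟩ := hs y
  rw [EE_add_left, EE_add_right, EE_add_right, EE_smul_left, EE_smul_left, EE_smul_right,
    EE_smul_right, EE_smul_left, EE_smul_left, EE_smul_right, EE_smul_right, EE_comm w q p]
  exact Submodule.add_mem _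
    (Submodule.add_mem _ (Submodule.smul_mem _ _ (Submodule.smul_mem _ _ k1))
      (Submodule.smul_mem _ _ (Submodule.smul_mem _ _ k3)))
    (Submodule.add_mem _ (Submodule.smul_mem _ _ (Submodule.smul_mem _ _ k3))
      (Submodule.smul_mem _ _ (Submodule.smul_mem _ _ k2)))

/-- An alternating form on a plane. -/
theorem exists_form (h2 : finrank ℂ N = 2) :
    ∃ w : N →ₗ[ℂ] N →ₗ[ℂ] ℂ, (∀ x, w x x = 0) ∧ ∀ x, (∀ y, w x y = 0) → x = 0 := by
  let b : Basis (Fin 2) ℂ N := Module.finBasisOfFinrankEq ℂ N h2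
  let l : Fin 2 → N →ₗ[ℂ] ℂ := fun k => b.coord k
  refine ⟨(l 0).smulRight (l 1) - (l 1).smulRight (l 0), ?_, ?_⟩
  · intro x
    simp only [LinearMap.sub_apply, LinearMap.smulRight_apply, LinearMap.smul_apply, smul_eq_mul]
    ring
  · intro x hx
    have h0 := hx (b 0)
    have h1 := hx (b 1)
    simp only [LinearMap.sub_apply, LinearMap.smulRight_apply, LinearMap.smul_apply,
      smul_eq_mul, l, Basis.coord_apply, Basis.repr_self] at h0 h1
    apply b.ext_elem
    intro k
    fin_cases k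
    · simpa using h1
    · simpa using h0

end Pool.Agent.Q34.SD
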