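import Mathlib

/-!
# Decomposition into irreducible pieces by orthogonal idempotents
-/

set_option linter.unusedSectionVars false

namespace Pool.Agent.Q34.SD

open Module Submodule

variable {V : Type*} [AddCommGroup V] [Module ℂ V] [FiniteDimensional ℂ V]

/-- The subspace is stable under the operators. -/
def Stb (G : Set (End ℂ V)) (M : Submodule ℂ V) : Prop := ∀ y ∈ G, ∀ x ∈ M, y x ∈ M

/-- The subspace is irreducible. -/
def IsIrr (G : Set (End ℂ V)) (N : Submodule ℂ V) : Prop :=
  Stb G N ∧ N ≠ ⊥ ∧ ∀ M ≤ N, Stb G M → M = ⊥ ∨ M = N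

theorem exists_irr (G : Set (End ℂ V)) : ∀ (n : ℕ) (M : Submodule ℂ V), Stb G M → M ≠ ⊥ →
    finrank ℂ M ≤ n → ∃ N ≤ M, IsIrr G N := by
  intro n
  induction n with
  | zero =>
    intro M _ h0 h
    exact (h0 (Submodule.finrank_eq_zero.1 (Nat.le_zero.1 h))).elim
  | succ n ih =>
    intro M hM h0 h
    by_cases h1 : ∃ M' ≤ M, Stb G M' ∧ M' ≠ ⊥ ∧ M' ≠ M
    · obtain ⟨M', hle, hst, hb, hne⟩ := h1
      have h2 : finrank ℂ M' < finrank ℂ M := Submodule.finrank_lt_finrank_of_lt (lt_of_le_of_ne hle hne)
      obtain ⟨N, hN, hi⟩ := ih M' hst hb (by omega)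
      exact ⟨N, hN.trans hle, hi⟩
    · push Not at h1
      refine ⟨M, le_rfl, hM, h0, fun M' hle hst => ?_⟩
      by_cases hb : M' = ⊥
      · exact Or.inl hb
      · exact Or.inr (h1 M' hle hst hb)

/-- Equivariant projections. -/
def CR (G : Set (End ℂ V)) : Prop :=
  ∀ M : Submodule ℂ V, Stb G M →
    ∃ π : End ℂ V, (∀ y ∈ G, π * y = y * π) ∧ (∀ w, π w ∈ M) ∧ ∀ w ∈ M, π w = w

/-- A family of orthogonal idempotents with irreducible images and the given sum. -/
structure Dec (G : Set (End ℂ V)) (e : End ℂ V) (A : Type) [Fintype A] (π : A → End ℂ V) :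
    Prop where
  comm : ∀ a, ∀ y ∈ G, π a * y = y * π a
  idem : ∀ a, π a * π a = π a
  irr : ∀ a, IsIrr G (LinearMap.range (π a))
  orth : ∀ a b, a ≠ b → π a * π b = 0
  sum : ∑ a, π a = e

theorem Dec.mul_left {G : Set (End ℂ V)} {e : End ℂ V} {A : Type} [Fintype A] [DecidableEq A]
    {π : A → End ℂ V} (h : Dec G e A π) (a : A) : e * π a = π a := by
  rw [← h.sum, Finset.sum_mul, Finset.sum_eq_single a]
  · exact h.idem a
  · intro b _ hb
    exact h.orth b a hb
  · intro h1
    exact (h1 (Finset.mem_univ _)).elim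

theorem Dec.mul_right {G : Set (End ℂ V)} {e : End ℂ V} {A : Type} [Fintype A] [DecidableEq A]
    {π : A → End ℂ V} (h : Dec G e A π) (a : A) : π a * e = π a := by
  rw [← h.sum, Finset.mul_sum, Finset.sum_eq_single a]
  · exact h.idem a
  · intro b _ hb
    exact h.orth a b hb.symm
  · intro h1
    exact (h1 (Finset.mem_univ _)).elim

theorem exists_dec {G : Set (End ℂ V)} (hcr : CR G) : ∀ (n : ℕ) (e : End ℂ V),
    (∀ y ∈ G, e * y = y * e) → e * e = e → finrank ℂ (LinearMap.range e) ≤ n →
    ∃ (A : Type) (_ : Fintype A) (_ : DecidableEq A) (π : A → End ℂ V), Dec G e A π := by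
  intro n
  induction n with
  | zero =>
    intro e _ _ h
    have h0 : e = 0 := by
      rw [← LinearMap.range_eq_bot]
      exact Submodule.finrank_eq_zero.1 (Nat.le_zero.1 h)
    refine ⟨Empty, inferInstance, inferInstance, fun a => a.elim, ?_⟩
    exact ⟨fun a => a.elim, fun a => a.elim, fun a => a.elim, fun a => a.elim, by
      rw [h0]; exact Finset.sum_empty⟩
  | succ n ih =>
    intro e he hee h
    by_cases h0 : e = 0
    · refine ⟨Empty, inferInstance, inferInstance, fun a => a.elim, ?_⟩
      exact ⟨fun a => a.elim, fun a => a.elim, fun a => a.elim, fun a => a.elim, by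
        rw [h0]; exact Finset.sum_empty⟩
    have hst : Stb G (LinearMap.range e) := by
      rintro y hy _ ⟨x, rfl⟩
      exact ⟨y x, LinearMap.congr_fun (he y hy) x⟩
    obtain ⟨N, hNle, hN⟩ := exists_irr G _ (LinearMap.range e) hst
      (fun h1 => h0 (LinearMap.range_eq_bot.1 h1)) le_rfl
    obtain ⟨q, hq, hqN, hqid⟩ := hcr N hN.1
    have heN : ∀ w ∈ N, e w = w := by
      intro w hw
      obtain ⟨x, rfl⟩ := hNle hw
      exact LinearMap.congr_fun hee x
    have heq : e * q = q := LinearMap.ext fun x => heN _ (hqN x)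
    have hqq : q * q = q := LinearMap.ext fun x => hqid _ (hqN x)
    obtain ⟨p, hp⟩ : ∃ p, p = q * e := ⟨_, rfl⟩
    have hpp : p * p = p := by
      rw [hp]
      calc q * e * (q * e) = q * (e * q) * e := by noncomm_ring
      _ = q * e := by rw [heq, hqq]
    have hep : e * p = p := by rw [hp, ← mul_assoc, heq]
    have hpe : p * e = p := by rw [hp, mul_assoc, hee]
    have hpN : LinearMap.range p = N := by
      apply le_antisymm
      · rintro _ ⟨x, rfl⟩
        rw [hp]
        exact hqN _
      · intro w hw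
        refine ⟨w, ?_⟩
        rw [hp]
        change q (e w) = w
        rw [heN w hw, hqid w hw]
    have hpc : ∀ y ∈ G, p * y = y * p := by
      intro y hy
      rw [hp, mul_assoc, he y hy, ← mul_assoc, hq y hy, mul_assoc]
    obtain ⟨e', he'⟩ : ∃ e', e' = e - p := ⟨_, rfl⟩
    have hee' : e' * e' = e' := by
      rw [he', sub_mul, mul_sub, mul_sub, hee, hep, hpe, hpp, sub_self, sub_zero]
    have hpe' : p * e' = 0 := by rw [he', mul_sub, hpe, hpp, sub_self]
    have he'p : e' * p = 0 := by rw [he', sub_mul, hep, hpp, sub_self]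
    have hc' : ∀ y ∈ G, e' * y = y * e' := by
      intro y hy
      rw [he', sub_mul, mul_sub, he y hy, hpc y hy]
    have hlt : LinearMap.range e' < LinearMap.range e := by
      refine lt_of_le_of_ne ?_ ?_
      · rintro _ ⟨x, rfl⟩
        refine ⟨e' x, ?_⟩
        have h1 : e * e' = e' := by rw [he', mul_sub, hee, hep]
        exact LinearMap.congr_fun h1 x
      · intro h1
        apply hN.2.1
        rw [Submodule.eq_bot_iff]
        intro w hw
        have h2 : w ∈ LinearMap.range e' := h1 ▸ hNle hw
        obtain ⟨x, rfl⟩ := h2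
        have h3 : p (e' x) = e' x := by
          rw [hp]
          change q (e (e' x)) = _
          rw [heN _ hw, hqid _ hw]
        rw [← h3]
        exact LinearMap.congr_fun hpe' x
    have hfr := Submodule.finrank_lt_finrank_of_lt hlt
    obtain ⟨A, hA1, hA2, π, hd⟩ := ih e' hc' hee' (by omega)
    refine ⟨Option A, inferInstance, inferInstance, fun a => a.elim p π, ?_⟩
    refine ⟨?_, ?_, ?_, ?_, ?_⟩
    · rintro (_ | a)
      · exact hpc
      · exact hd.comm a
    · rintro (_ | a)
      · exact hpp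
      · exact hd.idem a
    · rintro (_ | a)
      · change IsIrr G (LinearMap.range p)
        rw [hpN]
        exact hN
      · exact hd.irr a
    · rintro (_ | a) (_ | b) hab
      · exact (hab rfl).elim
      · change p * π b = 0
        rw [← hd.mul_left b, ← mul_assoc, hpe', zero_mul]
      · change π a * p = 0
        rw [← hd.mul_right a, mul_assoc, he'p, mul_zero]
      · exact hd.orth a b fun h1 => hab (by rw [h1])
    · rw [Fintype.sum_option]
      change p + ∑ a, π a = e
      rw [hd.sum, he']
      abel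

end Pool.Agent.Q34.SD
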