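import Mathlib
import Pool.Agent.Q34.SD.Irr
import Pool.Agent.Q34.SD.Dec
import Pool.Agent.W548.Odd.Hodge
import Pool.Agent.W437.HR.Pcs
import Pool.Agent.W437.HQ.Endo

/-!
# The pieces of an abelian variety whose Lagrangian subspace has at most four conjugates
-/

set_option linter.unusedSectionVars false

namespace Pool.Agent.Q34.SD

open Matrix Module Submodule Pool.Agent.H204R3.CM Pool.Agent.H194R3.CM Pool.Agent.W437.HC
  Pool.Agent.W437.HD Pool.Agent.W437.HP Pool.Agent.W437.HR Pool.Agent.W437.HQ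
  Pool.Agent.W548.Odd

variable {g : ℕ} {Z : Matrix (Fin g) (Fin g) ℂ}

/-- The homology with complex coefficients. -/
abbrev VV (g : ℕ) : Type := Fin g ⊕ Fin g → ℂ

/-- The square matrices. -/
abbrev MM (g : ℕ) : Type := Matrix (Fin g ⊕ Fin g) (Fin g ⊕ Fin g) ℂ

/-- The conjugates of the operator. -/
noncomputable def Ds (Z : Matrix (Fin g) (Fin g) ℂ) (σ : ℂ ≃+* ℂ) : MM g :=
  (DZ Z).map (σ : ℂ →+* ℂ)

/-- The Lie algebra generated by the conjugates. -/
abbrev LG (Z : Matrix (Fin g) (Fin g) ℂ) : Submodule ℂ (MM g) := LA (DZ '' {Z})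

/-- The operators of the Lie algebra. -/
abbrev GE (Z : Matrix (Fin g) (Fin g) ℂ) : Set (End ℂ (VV g)) :=
  ((GG (LG Z) : Submodule ℂ (End ℂ (VV g))) : Set (End ℂ (VV g)))

theorem Ds_mem (σ : ℂ ≃+* ℂ) : Ds Z σ ∈ LG Z :=
  LA_aut (σ : ℂ →+* ℂ) (LA_self ⟨Z, rfl, rfl⟩)

theorem Ds_one : Ds Z (RingEquiv.refl ℂ) = DZ Z := by
  ext i j
  rfl

theorem Ds_sq (hpos : (imM Z).PosDef) (σ : ℂ ≃+* ℂ) : Ds Z σ * Ds Z σ = 1 := by
  have h1 : (DZ Z * DZ Z).map (σ : ℂ →+* ℂ) = Ds Z σ * Ds Z σ := Matrix.map_mul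
  rw [← h1, DZ_sq (hpos.isUnit.map Matrix.detMonoidHom)]
  exact Matrix.map_one _ (map_zero _) (map_one _)

theorem LG_le (Z : Matrix (Fin g) (Fin g) ℂ) : LG Z ≤ lieM (DZ Z) ℂ := by
  refine LA_le_lieM ?_
  rintro _ ⟨Z', hZ', rfl⟩
  rw [Set.mem_singleton_iff.1 hZ']
  exact D_mem _

theorem perSet (hZ : Zᵀ = Z) (hpos : (imM Z).PosDef) : IsPer {Z} := by
  intro Z' hZ'
  rw [Set.mem_singleton_iff.1 hZ']
  exact ⟨hZ, hpos⟩

/-- Elements of the commutant commute with the whole Hodge Lie algebra. -/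
theorem lie_comm (hZ : Zᵀ = Z) {c : MM g} (hc : InCm (DZ '' {Z}) c) {X : MM g}
    (hX : X ∈ lieM (DZ Z) ℂ) : c * X = X * c := by
  refine Cm_induction (p := fun c : MM g => c * X = X * c) ?_ ?_ ?_ ?_ c hc
  · intro u hu
    exact comm_lie hZ (hu _ (LA_self ⟨Z, rfl, rfl⟩)) hX
  · rw [zero_mul, mul_zero]
  · intro a b ha hb
    rw [add_mul, mul_add, ha, hb]
  · intro r a ha
    rw [smul_mul_assoc, mul_smul_comm, ha]

/-- The commutant in terms of operators. -/
theorem inCm_of_comm {p : End ℂ (VV g)} (hp : ∀ y ∈ GE Z, p * y = y * p) :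
    InCm (DZ '' {Z}) ((ph (Fin g ⊕ Fin g)).symm p) := by
  intro X hX
  apply (ph (Fin g ⊕ Fin g)).injective
  rw [map_mul, map_mul, AlgEquiv.apply_symm_apply]
  exact hp _ (mem_GG.2 hX)

theorem comm_of_inCm {c : MM g} (hc : InCm (DZ '' {Z}) c) :
    ∀ y ∈ GE Z, ph (Fin g ⊕ Fin g) c * y = y * ph (Fin g ⊕ Fin g) c := by
  intro y hy
  obtain ⟨A, hA, rfl⟩ := exists_GG hy
  rw [← map_mul, ← map_mul, hc A hA]

theorem cr_GE (hZ : Zᵀ = Z) (hpos : (imM Z).PosDef) : CR (GE Z) := by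
  obtain ⟨S, Si, H⟩ := hermZ (perSet hZ hpos) (Set.mem_singleton Z)
  intro M hM
  exact H.setup.cr M hM

/-- A subspace is stable if it is stable under the conjugates. -/
theorem stb_of_conj {M : Submodule ℂ (VV g)}
    (h : ∀ σ : ℂ ≃+* ℂ, ∀ x ∈ M, Ds Z σ *ᵥ x ∈ M) : Stb (GE Z) M := by
  have h1 : LG Z ≤ { carrier := {X : MM g | ∀ x ∈ M, X *ᵥ x ∈ M}
                     zero_mem' := fun x _ => by rw [zero_mulVec]; exact M.zero_mem
                     add_mem' := fun {a b} ha hb x hx => by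
                       rw [add_mulVec]; exact M.add_mem (ha x hx) (hb x hx)
                     smul_mem' := fun c a ha x hx => by
                       rw [smul_mulVec]; exact M.smul_mem _ (ha x hx) } := by
    refine LA_le_of_conj ?_ ?_
    · rintro _ ⟨Z', hZ', rfl⟩ σ x hx
      rw [Set.mem_singleton_iff.1 hZ']
      exact h σ x hx
    · intro A hA C hC x hx
      rw [sub_mulVec, ← mulVec_mulVec, ← mulVec_mulVec]
      exact M.sub_mem (hA _ (hC x hx)) (hC _ (hA x hx))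
  intro y hy x hx
  obtain ⟨A, hA, rfl⟩ := exists_GG hy
  exact h1 hA x hx

/-- The family of the subspaces cut out by the conjugates of the Lagrangian subspace on the
eigenspaces of an endomorphism has at most four members. -/
def Four (Z : Matrix (Fin g) (Fin g) ℂ) (φ : Matrix (Fin g ⊕ Fin g) (Fin g ⊕ Fin g) ℚ) : Prop :=
  ∀ lam : ℂ, {U : Submodule ℂ (VV g) | ∃ σ : ℂ ≃+* ℂ,
    U = LinearMap.ker (ph (Fin g ⊕ Fin g) (qm φ) - algebraMap ℂ (End ℂ (VV g)) lam) ⊓
      neg (ph (Fin g ⊕ Fin g) (Ds Z σ))}.encard ≤ 4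

section piece

variable (hZ : Zᵀ = Z) (hpos : (imM Z).PosDef) {p : End ℂ (VV g)}
  (hp : ∀ y ∈ GE Z, p * y = y * p) (hpp : p * p = p)

include hZ hp in
theorem stab_lie (X : MM g) (hX : X ∈ lieM (DZ Z) ℂ) (x : VV g) (hx : x ∈ LinearMap.range p) :
    X *ᵥ x ∈ LinearMap.range p := by
  have h1 := lie_comm hZ (inCm_of_comm hp) hX
  obtain ⟨y, rfl⟩ := hx
  refine ⟨X *ᵥ y, ?_⟩
  have h2 := congrArg (ph (Fin g ⊕ Fin g)) h1
  rw [map_mul, map_mul, AlgEquiv.apply_symm_apply] at h2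
  exact LinearMap.congr_fun h2 y

/-- The involutions of a piece. -/
noncomputable def dd (σ : ℂ ≃+* ℂ) : End ℂ (LinearMap.range p) :=
  rsN (LinearMap.range p) (stab_lie hZ hp) ⟨Ds Z σ, LG_le Z (Ds_mem σ)⟩

include hpos in
theorem dd_irr (hirr : IsIrr (GE Z) (LinearMap.range p)) : Irr (dd hZ hp) := by
  refine ⟨fun σ => ?_, fun M hM => ?_⟩
  · refine LinearMap.ext fun x => Subtype.ext ?_
    change Ds Z σ *ᵥ (Ds Z σ *ᵥ (x : VV g)) = x
    rw [mulVec_mulVec, Ds_sq hpos, one_mulVec]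
  · have h1 : Stb (GE Z) (M.map (LinearMap.range p).subtype) := by
      apply stb_of_conj
      rintro σ _ ⟨x, hx, rfl⟩
      exact ⟨dd hZ hp σ x, hM σ x hx, rfl⟩
    rcases hirr.2.2 _ (Submodule.map_subtype_le _ M) h1 with h2 | h2
    · left
      rw [Submodule.eq_bot_iff]
      intro x hx
      have h3 : (x : VV g) ∈ M.map (LinearMap.range p).subtype := ⟨x, hx, rfl⟩
      rw [h2] at h3
      exact Subtype.ext ((Submodule.mem_bot ℂ).1 h3)
    · right
      rw [Submodule.eq_top_iff']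
      intro x
      have h3 : (x : VV g) ∈ M.map (LinearMap.range p).subtype := by
        rw [h2]
        exact x.2
      obtain ⟨y, hy, hyx⟩ := h3
      have h4 : y = x := Subtype.ext hyx
      rwa [← h4]

theorem map_conj_neg (Z : Matrix (Fin g) (Fin g) ℂ) :
    (DZ Z).map (starRingEnd ℂ) = -DZ Z := DZ_conj Z

/-- Complex conjugation followed by an automorphism. -/
noncomputable def cs (σ : ℂ ≃+* ℂ) : ℂ ≃+* ℂ :=
  (RingEquiv.ofBijective (starRingEnd ℂ) ⟨(starRingEnd ℂ).injective, star_involutive.surjective⟩).trans σ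

theorem Ds_cs (σ : ℂ ≃+* ℂ) : Ds Z (cs σ) = -Ds Z σ := by
  have h1 : Ds Z (cs σ) = ((DZ Z).map (starRingEnd ℂ)).map (σ : ℂ →+* ℂ) := by
    ext i j
    rfl
  rw [h1, map_conj_neg]
  ext i j
  simp [Ds]

include hpos hpp in
theorem dd_eig (hirr : IsIrr (GE Z) (LinearMap.range p))
    {φ : Matrix (Fin g ⊕ Fin g) (Fin g ⊕ Fin g) ℚ} (hφ : InCm (DZ '' {Z}) (qm φ))
    (h4 : Four Z φ) : (Eig (dd hZ hp)).encard ≤ 4 := by
  have hp0 : p ≠ 0 := by
    intro h0
    exact hirr.2.1 (LinearMap.range_eq_bot.2 h0)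
  -- the space of the equivariant maps
  let H : Submodule ℂ (End ℂ (VV g)) :=
    { carrier := {c | (∀ y ∈ GE Z, c * y = y * c) ∧ c * p = c}
      zero_mem' := ⟨fun y _ => by rw [zero_mul, mul_zero], zero_mul _⟩
      add_mem' := fun {a b} ha hb => ⟨fun y hy => by
        rw [add_mul, mul_add, ha.1 y hy, hb.1 y hy], by rw [add_mul, ha.2, hb.2]⟩
      smul_mem' := fun r a ha => ⟨fun y hy => by
        rw [smul_mul_assoc, mul_smul_comm, ha.1 y hy], by rw [smul_mul_assoc, ha.2]⟩ }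
  let f : End ℂ (VV g) := ph (Fin g ⊕ Fin g) (qm φ)
  have hf : ∀ y ∈ GE Z, f * y = y * f := comm_of_inCm hφ
  let T : Module.End ℂ H :=
    { toFun := fun c => ⟨f * c.1, fun y hy => by
        rw [mul_assoc, c.2.1 y hy, ← mul_assoc, hf y hy, mul_assoc], by
        rw [mul_assoc, c.2.2]⟩
      map_add' := fun a b => Subtype.ext (mul_add f a.1 b.1)
      map_smul' := fun r a => Subtype.ext (mul_smul_comm r f a.1) }
  have hpH : p ∈ H := ⟨hp, hpp⟩
  have hnt : Nontrivial H := ⟨⟨⟨p, hpH⟩, 0, fun h0 => hp0 (congrArg Subtype.val h0)⟩⟩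
  obtain ⟨lam, hlam⟩ := Module.End.exists_eigenvalue (K := ℂ) (V := H) T
  obtain ⟨w, hw⟩ := hlam.exists_hasEigenvector
  have hw1 : T w = lam • w := Module.End.mem_eigenspace_iff.1 hw.1
  obtain ⟨c, hc⟩ : ∃ c, c = w.1 := ⟨_, rfl⟩
  have hcc : ∀ y ∈ GE Z, c * y = y * c := hc ▸ w.2.1
  have hcp : c * p = c := hc ▸ w.2.2
  have hfc : f * c = lam • c := by
    have h1 := congrArg Subtype.val hw1
    rw [hc]
    exact h1
  have hc0 : c ≠ 0 := by
    intro h0
    exact hw.2 (Subtype.ext (hc ▸ h0))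
  -- `c` is injective on the piece
  have hinj : ∀ x ∈ LinearMap.range p, c x = 0 → x = 0 := by
    have hst : Stb (GE Z) (LinearMap.range p ⊓ LinearMap.ker c) := by
      rintro y hy x ⟨hx1, hx2⟩
      refine ⟨hirr.1 y hy x hx1, ?_⟩
      have h1 : c (y x) = y (c x) := LinearMap.congr_fun (hcc y hy) x
      have h2 : c x = 0 := hx2
      change c (y x) = 0
      rw [h1, h2, map_zero]
    rcases hirr.2.2 _ inf_le_left hst with h1 | h1
    · intro x hx hx0
      have h2 : x ∈ LinearMap.range p ⊓ LinearMap.ker c := ⟨hx, hx0⟩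
      rw [h1] at h2
      exact (Submodule.mem_bot ℂ).1 h2
    · exfalso
      apply hc0
      rw [← hcp]
      refine LinearMap.ext fun x => ?_
      have h2 : p x ∈ LinearMap.range p ⊓ LinearMap.ker c := by
        rw [h1]
        exact ⟨x, rfl⟩
      exact h2.2
  have hcE : ∀ x, c x ∈ LinearMap.ker (f - algebraMap ℂ (End ℂ (VV g)) lam) := by
    intro x
    rw [LinearMap.mem_ker, LinearMap.sub_apply, sub_eq_zero, Module.algebraMap_end_apply]
    exact LinearMap.congr_fun hfc x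
  -- the eigenspaces are the images of the members of the family
  let F : Submodule ℂ (VV g) → Submodule ℂ (LinearMap.range p) := fun U =>
    (U.comap c).comap (LinearMap.range p).subtype
  have key : ∀ σ : ℂ ≃+* ℂ, neg (dd hZ hp σ) =
      F (LinearMap.ker (f - algebraMap ℂ (End ℂ (VV g)) lam) ⊓
        neg (ph (Fin g ⊕ Fin g) (Ds Z σ))) := by
    intro σ
    ext x
    rw [mem_neg]
    have hcs : ∀ y, c (Ds Z σ *ᵥ y) = Ds Z σ *ᵥ (c y) := fun y =>
      LinearMap.congr_fun (hcc _ (mem_GG.2 (Ds_mem σ))) y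
    constructor
    · intro h1
      refine ⟨hcE _, ?_⟩
      have h2 : Ds Z σ *ᵥ (x : VV g) = -(x : VV g) :=
        congrArg (fun z : LinearMap.range p => (z : VV g)) h1
      change c (x : VV g) ∈ neg (ph (Fin g ⊕ Fin g) (Ds Z σ))
      rw [mem_neg]
      change Ds Z σ *ᵥ (c (x : VV g)) = _
      rw [← hcs, h2, map_neg]
    · rintro ⟨-, h1⟩
      have h2 : c (x : VV g) ∈ neg (ph (Fin g ⊕ Fin g) (Ds Z σ)) := h1
      rw [mem_neg] at h2
      have h3 : Ds Z σ *ᵥ (c (x : VV g)) = -c (x : VV g) := h2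
      rw [← hcs, ← map_neg, ← sub_eq_zero, ← map_sub] at h3
      apply Subtype.ext
      change Ds Z σ *ᵥ (x : VV g) = -(x : VV g)
      rw [← sub_eq_zero]
      refine hinj _ ?_ h3
      exact Submodule.sub_mem _ (stab_lie hZ hp _ (LG_le Z (Ds_mem σ)) _ x.2)
        (Submodule.neg_mem _ x.2)
  have hpn : ∀ σ : ℂ ≃+* ℂ, LinearMap.range p = LinearMap.range p →
      Pool.Agent.Q34.SD.pos (dd hZ hp σ) = neg (dd hZ hp (cs σ)) := by
    intro σ _
    ext x
    rw [mem_pos, mem_neg]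
    have h1 : ∀ y : LinearMap.range p, dd hZ hp (cs σ) y = -dd hZ hp σ y := by
      intro y
      apply Subtype.ext
      change Ds Z (cs σ) *ᵥ (y : VV g) = -(Ds Z σ *ᵥ (y : VV g))
      rw [Ds_cs, neg_mulVec]
    rw [h1, neg_inj]
  have hsub : Eig (dd hZ hp) ⊆ F '' {U : Submodule ℂ (VV g) | ∃ σ : ℂ ≃+* ℂ,
      U = LinearMap.ker (f - algebraMap ℂ (End ℂ (VV g)) lam) ⊓
        neg (ph (Fin g ⊕ Fin g) (Ds Z σ))} := by
    rintro X ⟨σ, rfl | rfl⟩
    · exact ⟨_, ⟨cs σ, rfl⟩, by rw [hpn σ rfl]; exact (key (cs σ)).symm⟩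
    · exact ⟨_, ⟨σ, rfl⟩, (key σ).symm⟩
  exact (Set.encard_le_encard hsub).trans ((Set.encard_image_le _ _).trans (h4 lam))

end piece

/-- The abelian variety has complex multiplication: the Hodge operator commutes with all its
conjugates. -/
def CommD (Z : Matrix (Fin g) (Fin g) ℂ) : Prop :=
  ∀ σ : ℂ ≃+* ℂ, DZ Z * Ds Z σ = Ds Z σ * DZ Z

/-- There are no stable lines if the abelian variety is simple and not of CM type. -/
theorem no_line (hZ : Zᵀ = Z) (hpos : (imM Z).PosDef) (hs : IsSimpleAV Z) (hcm : ¬ CommD Z)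
    {p : End ℂ (VV g)} (hp : ∀ y ∈ GE Z, p * y = y * p)
    (h1 : finrank ℂ (LinearMap.range p) = 1) : False := by
  let C : Submodule ℂ (MM g) :=
    { carrier := {c | InCm (DZ '' {Z}) c ∧ ∀ X ∈ LG Z, ∀ Y ∈ LG Z, (X * Y - Y * X) * c = 0}
      zero_mem' := ⟨fun y _ => by rw [zero_mul, mul_zero], fun _ _ _ _ => mul_zero _⟩
      add_mem' := fun {a b} ha hb => ⟨fun y hy => by
        rw [add_mul, mul_add, ha.1 y hy, hb.1 y hy], fun X hX Y hY => by
        rw [mul_add, ha.2 X hX Y hY, hb.2 X hX Y hY, add_zero]⟩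
      smul_mem' := fun r a ha => ⟨fun y hy => by
        rw [smul_mul_assoc, mul_smul_comm, ha.1 y hy], fun X hX Y hY => by
        rw [mul_smul_comm, ha.2 X hX Y hY, smul_zero]⟩ }
  have hC : ∀ (σ : ℂ ≃+* ℂ), ∀ X ∈ C, X.map σ ∈ C := by
    intro σ c hc
    refine ⟨InCm.aut hc.1 σ, ?_⟩
    intro X hX Y hY
    have h2 := hc.2 _ (LA_aut (σ.symm : ℂ →+* ℂ) hX) _ (LA_aut (σ.symm : ℂ →+* ℂ) hY)
    have h3 := congrArg (fun M : MM g => M.map (σ : ℂ →+* ℂ)) h2
    simp only [Matrix.map_mul, Matrix.map_sub _ (map_sub (σ : ℂ →+* ℂ))] at h3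
    have h4 : ∀ X : MM g, (X.map (σ.symm : ℂ →+* ℂ)).map (σ : ℂ →+* ℂ) = X := by
      intro X
      ext i j
      simp
    rw [h4, h4] at h3
    have h5 : (0 : MM g).map (σ : ℂ →+* ℂ) = 0 := Matrix.map_zero _ (map_zero _)
    rw [h5] at h3
    exact h3
  have hzero : ∀ c ∈ C, c = 0 := by
    refine rational_induction C hC ?_ rfl ?_ ?_
    · intro u hu
      rcases hdivZ (perSet hZ hpos) (Set.mem_singleton Z) hs u hu.1 with h2 | h2
      · rw [h2]
        ext i j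
        simp
      · exfalso
        apply hcm
        intro σ
        have h3 := hu.2 _ (LA_self ⟨Z, rfl, rfl⟩) _ (Ds_mem σ)
        have h4 : (DZ Z * Ds Z σ - Ds Z σ * DZ Z) * qm u = 0 := h3
        have h5 : DZ Z * Ds Z σ - Ds Z σ * DZ Z = 0 := by
          obtain ⟨v, hv⟩ := h2.exists_right_inv
          calc DZ Z * Ds Z σ - Ds Z σ * DZ Z =
              ((DZ Z * Ds Z σ - Ds Z σ * DZ Z) * qm u) * v := by rw [mul_assoc, hv, mul_one]
          _ = 0 := by rw [h4, zero_mul]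
        exact sub_eq_zero.1 h5
    · intro X Y hX hY
      rw [hX, hY, add_zero]
    · intro r X hX
      rw [hX, smul_zero]
  -- the projection to the line is in `C`
  obtain ⟨c, hc⟩ : ∃ c, c = (ph (Fin g ⊕ Fin g)).symm p := ⟨_, rfl⟩
  have hcC : c ∈ C := by
    refine ⟨hc ▸ inCm_of_comm hp, ?_⟩
    obtain ⟨v, hv0, hv⟩ := finrank_eq_one_iff'.1 h1
    have hmul : ∀ X ∈ LG Z, ∃ a : ℂ, X *ᵥ (v : VV g) = a • (v : VV g) := by
      intro X hX
      obtain ⟨a, ha⟩ := hv ⟨X *ᵥ (v : VV g), stab_lie hZ hp X (LG_le Z hX) _ v.2⟩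
      exact ⟨a, (congrArg (fun z : LinearMap.range p => (z : VV g)) ha).symm⟩
    intro X hX Y hY
    obtain ⟨a, ha⟩ := hmul X hX
    obtain ⟨b, hb⟩ := hmul Y hY
    apply (ph (Fin g ⊕ Fin g)).injective
    rw [map_mul, map_zero, hc, AlgEquiv.apply_symm_apply]
    refine LinearMap.ext fun x => ?_
    change (X * Y - Y * X) *ᵥ (p x) = 0
    obtain ⟨r, hr⟩ := hv ⟨p x, x, rfl⟩
    have hr' : p x = r • (v : VV g) := (congrArg (fun z : LinearMap.range p => (z : VV g)) hr).symm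
    rw [hr', mulVec_smul, sub_mulVec, ← mulVec_mulVec, ← mulVec_mulVec, hb, ha, mulVec_smul,
      mulVec_smul, ha, hb, smul_smul, smul_smul, mul_comm, sub_self, smul_zero]
  have h2 := hzero c hcC
  have h3 : p = 0 := by
    have h4 := congrArg (ph (Fin g ⊕ Fin g)) h2
    rwa [hc, AlgEquiv.apply_symm_apply, map_zero] at h4
  rw [h3, LinearMap.range_zero, finrank_bot] at h1
  exact zero_ne_one h1

/-- **The pieces are planes with the full Lie algebra of operators of trace zero.** -/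
theorem hasPcs_of_four (hZ : Zᵀ = Z) (hpos : (imM Z).PosDef) (hs : IsSimpleAV Z)
    (hcm : ¬ CommD Z) {φ : Matrix (Fin g ⊕ Fin g) (Fin g ⊕ Fin g) ℚ}
    (hφ : InCm (DZ '' {Z}) (qm φ)) (h4 : Four Z φ) : HasPcs (DZ Z) := by
  obtain ⟨A, hA1, hA2, π, hd⟩ := exists_dec (cr_GE hZ hpos) _ 1
    (fun y _ => by rw [one_mul, mul_one]) (one_mul 1) le_rfl
  have hirr : ∀ a, Irr (dd hZ (hd.comm a)) := fun a => dd_irr hZ hpos (hd.comm a) (hd.irr a)
  have hE : ∀ a, (Eig (dd hZ (hd.comm a))).encard ≤ 4 := fun a =>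
    dd_eig hZ hpos (hd.comm a) (hd.idem a) (hd.irr a) hφ h4
  have hfr : ∀ a, finrank ℂ (LinearMap.range (π a)) = 2 := by
    intro a
    have h1 := (hirr a).finrank_le_two (hE a)
    have h2 : finrank ℂ (LinearMap.range (π a)) ≠ 0 := fun h0 =>
      (hd.irr a).2.1 (Submodule.finrank_eq_zero.1 h0)
    have h3 : finrank ℂ (LinearMap.range (π a)) ≠ 1 := fun h0 =>
      no_line hZ hpos hs hcm (hd.comm a) h0
    omega
  have hns : ∀ a, ∀ σ, Pool.Agent.Q34.SD.pos (dd hZ (hd.comm a) σ) ≠ ⊤ ∧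
      neg (dd hZ (hd.comm a) σ) ≠ ⊤ := fun a σ => (hirr a).not_scalar (hE a) (hfr a) σ
  choose w hw1 hw2 using fun a => exists_form (hfr a)
  have hst : ∀ a, ∀ X ∈ lieM (DZ Z) ℂ, ∀ x ∈ LinearMap.range (π a),
      X *ᵥ x ∈ LinearMap.range (π a) := fun a => stab_lie hZ (hd.comm a)
  -- the elements of `LG` preserve the forms
  have hspG : ∀ a, ∀ X (hX : X ∈ LG Z), IsSp (w a) (rsN (LinearMap.range (π a)) (hst a)
      ⟨X, LG_le Z hX⟩) := by
    intro a
    have h1 : LG Z ≤ Submodule.map (lieM (DZ Z) ℂ).subtype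
        { carrier := {X : lieM (DZ Z) ℂ | IsSp (w a) (rsN (LinearMap.range (π a)) (hst a) X)}
          zero_mem' := fun x y => by
            rw [map_zero]
            simp
          add_mem' := fun {X Y} hX hY x y => by
            rw [map_add, LinearMap.add_apply, LinearMap.add_apply, map_add, map_add,
              LinearMap.add_apply, hX x y, hY x y]
            ring
          smul_mem' := fun r X hX x y => by
            rw [map_smul, LinearMap.smul_apply, LinearMap.smul_apply, map_smul, map_smul,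
              LinearMap.smul_apply, hX x y]
            simp } := by
      refine LA_le_of_conj ?_ ?_
      · rintro _ ⟨Z', hZ', rfl⟩ σ
        rw [Set.mem_singleton_iff.1 hZ']
        refine ⟨⟨Ds Z σ, LG_le Z (Ds_mem σ)⟩, ?_, rfl⟩
        exact isSp_invol ((hirr a).inv σ) (hfr a) (hns a σ) (hw1 a)
      · rintro _ ⟨X, hX, rfl⟩ _ ⟨Y, hY, rfl⟩
        refine ⟨brL (DZ Z) X Y, ?_, rfl⟩
        change IsSp (w a) (rsN (LinearMap.range (π a)) (hst a) (brL (DZ Z) X Y))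
        rw [rsN_brL]
        intro x y
        have hX' : IsSp (w a) (rsN (LinearMap.range (π a)) (hst a) X) := hX
        have hY' : IsSp (w a) (rsN (LinearMap.range (π a)) (hst a) Y) := hY
        simp only [LinearMap.sub_apply, Module.End.mul_apply, map_sub]
        rw [hX' _ y, hY' _ y, hY' x, hX' x]
        ring
    intro X hX
    obtain ⟨Y, hY, hYX⟩ := h1 hX
    have h2 : Y = ⟨X, LG_le Z hX⟩ := Subtype.ext hYX
    rw [← h2]
    exact hY
  refine ⟨A, hA1, hA2, fun a => LinearMap.range (π a), w,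
    fun a => LinearMap.codRestrict _ (π a) fun y => ⟨y, rfl⟩, hst, ?_, ?_, hw1, hw2, ?_, ?_, ?_⟩
  · intro y
    have h1 := LinearMap.congr_fun hd.sum y
    rw [LinearMap.sum_apply] at h1
    exact h1.symm
  · intro a
    exact Module.nontrivial_of_finrank_pos (R := ℂ) (by rw [hfr a]; norm_num)
  · -- the whole Hodge Lie algebra preserves the forms
    intro a X
    let β : VV g →ₗ[ℂ] VV g →ₗ[ℂ] ℂ :=
      ((w a).compl₁₂ (LinearMap.codRestrict _ (π a) fun y => ⟨y, rfl⟩)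
        (LinearMap.codRestrict _ (π a) fun y => ⟨y, rfl⟩))
    let Bm : MM g := LinearMap.toMatrix₂' ℂ β
    have hβ : ∀ x y, β x y = x ⬝ᵥ (Bm *ᵥ y) := by
      intro x y
      have h1 : Matrix.toLinearMap₂' ℂ Bm = β := Matrix.toLinearMap₂'_toMatrix' β
      rw [← h1, Matrix.toLinearMap₂'_apply']
    have hext : ∀ M M' : MM g, (∀ x y : VV g, x ⬝ᵥ (M *ᵥ y) = x ⬝ᵥ (M' *ᵥ y)) → M = M' := by
      intro M M' h1
      ext i j
      have h2 := h1 (Pi.single i 1) (Pi.single j 1)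
      rw [mulVec_single_one, mulVec_single_one, single_one_dotProduct,
        single_one_dotProduct] at h2
      exact h2
    have htr : ∀ (Y : MM g) (x y : VV g), (Y *ᵥ x) ⬝ᵥ (Bm *ᵥ y) = x ⬝ᵥ ((Yᵀ * Bm) *ᵥ y) := by
      intro Y x y
      rw [← vecMul_transpose, ← dotProduct_mulVec, mulVec_mulVec]
    have hβY : ∀ Y ∈ LG Z, Yᵀ * Bm + Bm * Y = 0 := by
      intro Y hY
      rw [add_eq_zero_iff_eq_neg]
      apply hext
      intro x y
      rw [← htr, neg_mulVec, dotProduct_neg, ← mulVec_mulVec, ← hβ, ← hβ]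
      have h1 := hspG a Y hY ⟨π a x, x, rfl⟩ ⟨π a y, y, rfl⟩
      have h2 : ∀ z : VV g, π a (Y *ᵥ z) = Y *ᵥ (π a z) := fun z =>
        LinearMap.congr_fun (hd.comm a _ (mem_GG.2 hY)) z
      have h3 : ∀ z : VV g, (LinearMap.codRestrict (LinearMap.range (π a)) (π a)
          (fun y => ⟨y, rfl⟩)) (Y *ᵥ z) = rsN (LinearMap.range (π a)) (hst a)
          ⟨Y, LG_le Z hY⟩ ⟨π a z, z, rfl⟩ := fun z => Subtype.ext (h2 z)
      change w a ((LinearMap.codRestrict (LinearMap.range (π a)) (π a)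
          (fun y => ⟨y, rfl⟩)) (Y *ᵥ x)) ⟨π a y, y, rfl⟩ = -w a ⟨π a x, x, rfl⟩
          ((LinearMap.codRestrict (LinearMap.range (π a)) (π a) (fun y => ⟨y, rfl⟩)) (Y *ᵥ y))
      rw [h3, h3]
      exact h1
    have hOO : Om g ℂ * Om g ℂ = -1 := Om_sq ℂ
    have hflip : ∀ Y : MM g, Yᵀ * Om g ℂ + Om g ℂ * Y = 0 → Om g ℂ * Yᵀ = -(Y * Om g ℂ) := by
      intro Y hY
      have h1 : Yᵀ * Om g ℂ = -(Om g ℂ * Y) := eq_neg_of_add_eq_zero_left hY
      have h4 : Om g ℂ * (Yᵀ * Om g ℂ) * Om g ℂ = -(Om g ℂ * Yᵀ) := by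
        rw [mul_assoc, mul_assoc Yᵀ, hOO, mul_neg_one, mul_neg]
      rw [h1, mul_neg, ← mul_assoc, hOO, neg_one_mul, neg_neg] at h4
      rw [h4, neg_neg]
    have hcm' : InCm (DZ '' {Z}) (Om g ℂ * Bm) := by
      intro Y hY
      have h1 : Bm * Y = -(Yᵀ * Bm) := eq_neg_of_add_eq_zero_right (hβY Y hY)
      have h2 := hflip Y (sp_LA (perSet hZ hpos) hY)
      rw [mul_assoc, h1, mul_neg, ← mul_assoc, h2, neg_mul, neg_neg, mul_assoc]
    have hX1 := lie_comm hZ hcm' X.2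
    have hX2 := hflip X.1 (sp_C hZ X.1 X.2)
    have hX3 : Bm * X.1 = -(X.1ᵀ * Bm) := by
      have h1 : Om g ℂ * (Bm * X.1) = Om g ℂ * -(X.1ᵀ * Bm) := by
        rw [← mul_assoc, hX1, mul_neg, ← mul_assoc, ← mul_assoc, hX2, neg_mul, neg_neg]
      have h2 := congrArg (fun M => -(Om g ℂ * M)) h1
      simp only [← mul_assoc, hOO] at h2
      simpa using h2
    intro x y
    have h1 : (X.1 *ᵥ (x : VV g)) ⬝ᵥ (Bm *ᵥ (y : VV g)) =
        -((x : VV g) ⬝ᵥ (Bm *ᵥ (X.1 *ᵥ (y : VV g)))) := by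
      rw [htr, mulVec_mulVec, hX3, neg_mulVec, dotProduct_neg, neg_neg]
    rw [← hβ, ← hβ] at h1
    have h2 : ∀ z : LinearMap.range (π a), (LinearMap.codRestrict (LinearMap.range (π a)) (π a)
        (fun y => ⟨y, rfl⟩)) (z : VV g) = z := by
      intro z
      obtain ⟨z0, hz0⟩ := z.2
      apply Subtype.ext
      change π a (z : VV g) = z
      rw [← hz0]
      exact LinearMap.congr_fun (hd.idem a) z0
    change w a ((LinearMap.codRestrict (LinearMap.range (π a)) (π a)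
          (fun y => ⟨y, rfl⟩)) ((rsN (LinearMap.range (π a)) (hst a) X x : LinearMap.range (π a)) : VV g))
        ((LinearMap.codRestrict (LinearMap.range (π a)) (π a) (fun y => ⟨y, rfl⟩)) (y : VV g)) =
      -w a ((LinearMap.codRestrict (LinearMap.range (π a)) (π a) (fun y => ⟨y, rfl⟩)) (x : VV g))
        ((LinearMap.codRestrict (LinearMap.range (π a)) (π a)
          (fun y => ⟨y, rfl⟩)) ((rsN (LinearMap.range (π a)) (hst a) X y : LinearMap.range (π a)) : VV g))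
      at h1
    rw [h2, h2, h2, h2] at h1
    exact h1
  · -- the action is full
    intro a x y
    have h1 := (hirr a).EE_mem (hfr a) (hns a)
      (G := Submodule.map (rsN (LinearMap.range (π a)) (hst a)) ⊤) ?_ ?_ (hw1 a) x y
    · obtain ⟨X, -, hX⟩ := h1
      exact ⟨X, hX⟩
    · intro σ
      exact ⟨⟨Ds Z σ, LG_le Z (Ds_mem σ)⟩, trivial, rfl⟩
    · rintro _ ⟨X, -, rfl⟩ _ ⟨Y, -, rfl⟩
      exact ⟨brL (DZ Z) X Y, trivial, rsN_brL _ _ X Y⟩
  · intro a X hX y
    have h1 := lie_comm hZ (inCm_of_comm (hd.comm a)) hX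
    have h2 := congrArg (ph (Fin g ⊕ Fin g)) h1
    rw [map_mul, map_mul, AlgEquiv.apply_symm_apply] at h2
    exact LinearMap.congr_fun h2 y

end Pool.Agent.Q34.SD
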