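import Mathlib
import Pool.Agent.Q34.SD.Pcs

/-!
# Period matrices with at most four conjugates
-/

set_option linter.unusedSectionVars false

namespace Pool.Agent.Q34.SD

open Matrix Module Submodule Pool.Agent.H204R3.CM Pool.Agent.H194R3.CM Pool.Agent.W437.HC
  Pool.Agent.W437.HD Pool.Agent.W437.HP Pool.Agent.W437.HR Pool.Agent.W437.HQ
  Pool.Agent.W548.Odd

variable {g : ℕ} {Z : Matrix (Fin g) (Fin g) ℂ}

/-- The kernel of the complexified period map `(a, b) ↦ a + M b`. -/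
def lag (M : Matrix (Fin g) (Fin g) ℂ) : Submodule ℂ (VV g) where
  carrier := {v | (fun i => v (Sum.inl i)) + M *ᵥ (fun i => v (Sum.inr i)) = 0}
  zero_mem' := by
    change (0 : Fin g → ℂ) + M *ᵥ (0 : Fin g → ℂ) = 0
    rw [mulVec_zero, add_zero]
  add_mem' := by
    intro a b ha hb
    change ((fun i => a (Sum.inl i)) + fun i => b (Sum.inl i)) +
      M *ᵥ ((fun i => a (Sum.inr i)) + fun i => b (Sum.inr i)) = 0
    rw [mulVec_add, add_add_add_comm, ha, hb, add_zero]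
  smul_mem' := by
    intro c a ha
    change (c • fun i => a (Sum.inl i)) + M *ᵥ (c • fun i => a (Sum.inr i)) = 0
    rw [mulVec_smul, ← smul_add, ha, smul_zero]

theorem mem_lag {M : Matrix (Fin g) (Fin g) ℂ} {v : VV g} :
    v ∈ lag M ↔ (fun i => v (Sum.inl i)) + M *ᵥ (fun i => v (Sum.inr i)) = 0 := Iff.rfl

theorem mem_lag' {M : Matrix (Fin g) (Fin g) ℂ} {v : VV g} :
    v ∈ lag M ↔ v = vecL M (fun i => v (Sum.inr i)) := by
  rw [mem_lag]
  constructor
  · intro h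
    funext i
    rcases i with i | i
    · have h1 := congrFun h i
      change v (Sum.inl i) + (M *ᵥ fun i => v (Sum.inr i)) i = 0 at h1
      change v (Sum.inl i) = -(M *ᵥ fun i => v (Sum.inr i)) i
      exact eq_neg_of_add_eq_zero_left h1
    · rfl
  · intro h
    funext i
    have h1 := congrFun h (Sum.inl i)
    change v (Sum.inl i) = -(M *ᵥ fun i => v (Sum.inr i)) i at h1
    change v (Sum.inl i) + (M *ᵥ fun i => v (Sum.inr i)) i = 0
    rw [h1, neg_add_cancel]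

theorem map_vecL (σ : ℂ ≃+* ℂ) (M : Matrix (Fin g) (Fin g) ℂ) (b : Fin g → ℂ) :
    (fun i => σ (vecL M b i)) = vecL (M.map σ) (fun i => σ (b i)) := by
  funext i
  rcases i with i | i
  · change σ (-(M *ᵥ b) i) = -((M.map σ) *ᵥ fun i => σ (b i)) i
    simp [mulVec, dotProduct]
  · rfl

/-- The eigenvectors of the conjugate operator. -/
theorem Ds_vecL (hpos : (imM Z).PosDef) (σ : ℂ ≃+* ℂ) (b : Fin g → ℂ) :
    Ds Z σ *ᵥ vecL (Z.map σ) b = -vecL (Z.map σ) b := by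
  have hY : IsUnit (imM Z).det := hpos.isUnit.map Matrix.detMonoidHom
  have h1 : vecL (Z.map σ) b = fun i => σ (vecL Z (fun i => σ.symm (b i)) i) := by
    rw [map_vecL]
    congr 1
    funext i
    simp
  have h2 : ∀ x : VV g, Ds Z σ *ᵥ (fun i => σ (x i)) = fun i => σ ((DZ Z *ᵥ x) i) := by
    intro x
    funext i
    simp [Ds, mulVec, dotProduct]
  rw [h1, h2, DZ_vecL hY]
  funext i
  simp

theorem Ds_vecL_bar (hpos : (imM Z).PosDef) (σ : ℂ ≃+* ℂ) (b : Fin g → ℂ) :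
    Ds Z σ *ᵥ vecL ((Z.map (starRingEnd ℂ)).map σ) b = vecL ((Z.map (starRingEnd ℂ)).map σ) b := by
  have hY : IsUnit (imM Z).det := hpos.isUnit.map Matrix.detMonoidHom
  have h1 : vecL ((Z.map (starRingEnd ℂ)).map σ) b =
      fun i => σ (vecL (Z.map (starRingEnd ℂ)) (fun i => σ.symm (b i)) i) := by
    rw [map_vecL]
    congr 1
    funext i
    simp
  have h2 : ∀ x : VV g, Ds Z σ *ᵥ (fun i => σ (x i)) = fun i => σ ((DZ Z *ᵥ x) i) := by
    intro x
    funext i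
    simp [Ds, mulVec, dotProduct]
  rw [h1, h2, DZ_vecL_bar hY]

/-- The eigenspace of the conjugate operator is the Lagrangian subspace of the conjugate period
matrix. -/
theorem neg_Ds (hpos : (imM Z).PosDef) (σ : ℂ ≃+* ℂ) :
    neg (ph (Fin g ⊕ Fin g) (Ds Z σ)) = lag (Z.map σ) := by
  have hY : IsUnit (imM Z).det := hpos.isUnit.map Matrix.detMonoidHom
  have hu : IsUnit ((Z.map (starRingEnd ℂ)).map σ - Z.map σ).det := by
    have h4 : ((Z.map (starRingEnd ℂ)).map σ - Z.map σ).det =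
        σ (Z.map (starRingEnd ℂ) - Z).det := by
      have h5 := (σ : ℂ →+* ℂ).map_det (Z.map (starRingEnd ℂ) - Z)
      change σ _ = _ at h5
      rw [h5]
      congr 1
      ext i j
      simp
    rw [h4]
    exact (isUnit_bar_sub hY).map σ
  ext v
  rw [mem_neg]
  change Ds Z σ *ᵥ v = -v ↔ _
  constructor
  · intro h
    obtain ⟨b, b', hb⟩ := exists_decomp (Z.map σ) ((Z.map (starRingEnd ℂ)).map σ) hu v
    have h1 : Ds Z σ *ᵥ v = -vecL (Z.map σ) b + vecL ((Z.map (starRingEnd ℂ)).map σ) b' := by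
      rw [hb, mulVec_add, Ds_vecL hpos, Ds_vecL_bar hpos]
    rw [h1] at h
    rw [hb] at h
    have h2 : (2 : ℂ) • vecL ((Z.map (starRingEnd ℂ)).map σ) b' = 0 := by
      have h3 := congrArg (fun x => x + vecL (Z.map σ) b +
        vecL ((Z.map (starRingEnd ℂ)).map σ) b') h
      have h4 : -vecL (Z.map σ) b + vecL ((Z.map (starRingEnd ℂ)).map σ) b' +
          vecL (Z.map σ) b + vecL ((Z.map (starRingEnd ℂ)).map σ) b' =
          (2 : ℂ) • vecL ((Z.map (starRingEnd ℂ)).map σ) b' := by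
        rw [two_smul]
        abel
      have h5 : -(vecL (Z.map σ) b + vecL ((Z.map (starRingEnd ℂ)).map σ) b') +
          vecL (Z.map σ) b + vecL ((Z.map (starRingEnd ℂ)).map σ) b' = 0 := by abel
      rw [← h4]
      exact h3.trans h5
    have h3 := (smul_eq_zero.1 h2).resolve_left two_ne_zero
    rw [h3, add_zero] at hb
    rw [mem_lag', hb]
    rfl
  · intro h
    rw [mem_lag'] at h
    rw [h, Ds_vecL hpos]

/-- The set of the conjugates of a period matrix over a number field. -/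
theorem encard_conj_le (K : IntermediateField ℚ ℂ) [FiniteDimensional ℚ K]
    (hZ : ∀ a b, Z a b ∈ K) :
    {M : Matrix (Fin g) (Fin g) ℂ | ∃ σ : ℂ ≃+* ℂ, M = Z.map σ}.encard ≤ finrank ℚ K := by
  let f : (K →ₐ[ℚ] ℂ) → Matrix (Fin g) (Fin g) ℂ := fun ψ => Matrix.of fun a b => ψ ⟨Z a b, hZ a b⟩
  have hsub : {M : Matrix (Fin g) (Fin g) ℂ | ∃ σ : ℂ ≃+* ℂ, M = Z.map σ} ⊆ Set.range f := by
    rintro _ ⟨σ, rfl⟩
    refine ⟨((σ : ℂ →+* ℂ).toRatAlgHom).comp K.val, ?_⟩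
    ext a b
    rfl
  refine (Set.encard_le_encard hsub).trans ?_
  rw [← Set.image_univ]
  refine (Set.encard_image_le _ _).trans ?_
  rw [Set.encard_univ, ENat.card_eq_coe_fintype_card, AlgHom.card ℚ K ℂ]

/-- The condition on the eigenspaces for the identity. -/
theorem four_of_conj (hpos : (imM Z).PosDef)
    (h : {M : Matrix (Fin g) (Fin g) ℂ | ∃ σ : ℂ ≃+* ℂ, M = Z.map σ}.encard ≤ 4)
    (φ : Matrix (Fin g ⊕ Fin g) (Fin g ⊕ Fin g) ℚ) : Four Z φ := by
  intro lam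
  have hsub : {U : Submodule ℂ (VV g) | ∃ σ : ℂ ≃+* ℂ,
      U = LinearMap.ker (ph (Fin g ⊕ Fin g) (qm φ) - algebraMap ℂ (End ℂ (VV g)) lam) ⊓
      neg (ph (Fin g ⊕ Fin g) (Ds Z σ))} ⊆
      (fun M => LinearMap.ker (ph (Fin g ⊕ Fin g) (qm φ) - algebraMap ℂ (End ℂ (VV g)) lam) ⊓
        lag M) '' {M : Matrix (Fin g) (Fin g) ℂ | ∃ σ : ℂ ≃+* ℂ, M = Z.map σ} := by
    rintro _ ⟨σ, rfl⟩
    exact ⟨Z.map σ, ⟨σ, rfl⟩, by rw [neg_Ds hpos]⟩
  exact (Set.encard_le_encard hsub).trans ((Set.encard_image_le _ _).trans h)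

end Pool.Agent.Q34.SD
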