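import Mathlib
import Pool.Agent.Q34.SD.Deg

/-!
# The Hodge operator as a polynomial function of two period matrices
-/

set_option linter.unusedSectionVars false

namespace Pool.Agent.Q34.SD

open Matrix Module Pool.Agent.H204R3.CM Pool.Agent.H194R3.CM Pool.Agent.W437.HC
  Pool.Agent.W437.HD Pool.Agent.W437.HP Pool.Agent.W437.HR Pool.Agent.W437.HQ
  Pool.Agent.W548.Odd

section dt

variable {g : ℕ} {R : Type*} [CommRing R]

/-- A multiple of the involution which is `-1` on the Lagrangian subspace of `A` and `1` on the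
Lagrangian subspace of `B`. -/
def dt (A B : Matrix (Fin g) (Fin g) R) : Matrix (Fin g ⊕ Fin g) (Fin g ⊕ Fin g) R :=
  fromBlocks (-((A + B) * (A - B).adjugate)) ((A - B).det • A - (A + B) * (A - B).adjugate * A)
    (2 * (A - B).adjugate) (2 * ((A - B).adjugate * A) - (A - B).det • 1)

theorem map_two {R' : Type*} [CommRing R'] (f : R →+* R') :
    ((2 : Matrix (Fin g) (Fin g) R).map f) = 2 := by
  have h := map_ofNat (f.mapMatrix (m := Fin g)) 2
  exact h

theorem dt_map {R' : Type*} [CommRing R'] (f : R →+* R') (A B : Matrix (Fin g) (Fin g) R) :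
    (dt A B).map f = dt (A.map f) (B.map f) := by
  have hs : (A - B).map f = A.map f - B.map f := Matrix.map_sub f (map_sub f) A B
  have ha : (A + B).map f = A.map f + B.map f := Matrix.map_add f (map_add f) A B
  have hadj : (A - B).adjugate.map f = (A.map f - B.map f).adjugate := by
    rw [← hs]
    exact RingHom.map_adjugate f (A - B)
  have hdet : f (A - B).det = (A.map f - B.map f).det := by
    rw [← hs]
    exact RingHom.map_det f (A - B)
  unfold dt
  rw [fromBlocks_map]
  congr 1
  · rw [Matrix.map_neg _ (map_neg f), Matrix.map_mul, ha, hadj]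
  · rw [Matrix.map_sub _ (map_sub f), Matrix.map_mul, Matrix.map_mul, ha, hadj,
      Matrix.map_smul' f _ _ (map_mul f), hdet]
  · rw [Matrix.map_mul, hadj, map_two]
  · rw [Matrix.map_sub _ (map_sub f), Matrix.map_mul, Matrix.map_mul, hadj, map_two,
      Matrix.map_smul' f _ _ (map_mul f), hdet, Matrix.map_one _ (map_zero f) (map_one f)]

end dt

variable {g : ℕ} {Z : Matrix (Fin g) (Fin g) ℂ}

theorem fromBlocks_vecL (a b c d : Matrix (Fin g) (Fin g) ℂ) (M : Matrix (Fin g) (Fin g) ℂ)
    (p : Fin g → ℂ) : fromBlocks a b c d *ᵥ vecL M p =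
      Sum.elim ((b - a * M) *ᵥ p) ((d - c * M) *ᵥ p) := by
  have h1 : (vecL M p) ∘ Sum.inl = -(M *ᵥ p) := rfl
  have h2 : (vecL M p) ∘ Sum.inr = p := rfl
  rw [fromBlocks_mulVec, h1, h2, mulVec_neg, mulVec_neg, mulVec_mulVec, mulVec_mulVec,
    sub_mulVec, sub_mulVec]
  congr 1
  · abel
  · abel

theorem dt_vecL_left (A B : Matrix (Fin g) (Fin g) ℂ) (p : Fin g → ℂ) :
    dt A B *ᵥ vecL A p = -((A - B).det • vecL A p) := by
  unfold dt
  rw [fromBlocks_vecL]
  have h1 : (A - B).det • A - (A + B) * (A - B).adjugate * A -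
      -((A + B) * (A - B).adjugate) * A = (A - B).det • A := by noncomm_ring
  have h2 : 2 * ((A - B).adjugate * A) - (A - B).det • 1 - 2 * (A - B).adjugate * A =
      -((A - B).det • (1 : Matrix (Fin g) (Fin g) ℂ)) := by
    rw [mul_assoc]
    abel
  rw [h1, h2, neg_mulVec, smul_mulVec, smul_mulVec, one_mulVec]
  funext i
  rcases i with i | i
  · simp [vecL]
  · simp [vecL]

theorem dt_vecL_right (A B : Matrix (Fin g) (Fin g) ℂ) (p : Fin g → ℂ) :
    dt A B *ᵥ vecL B p = (A - B).det • vecL B p := by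
  unfold dt
  rw [fromBlocks_vecL]
  have h0 : (A - B).adjugate * A - (A - B).adjugate * B = (A - B).det • 1 := by
    rw [← Matrix.mul_sub, adjugate_mul]
  have h1 : (A - B).det • A - (A + B) * (A - B).adjugate * A -
      -((A + B) * (A - B).adjugate) * B = -((A - B).det • B) := by
    have h3 : (A + B) * ((A - B).adjugate * A - (A - B).adjugate * B) =
        (A - B).det • (A + B) := by
      rw [h0, Matrix.mul_smul, Matrix.mul_one]
    rw [Matrix.mul_sub] at h3
    calc (A - B).det • A - (A + B) * (A - B).adjugate * A -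
        -((A + B) * (A - B).adjugate) * B = (A - B).det • A -
        ((A + B) * ((A - B).adjugate * A) - (A + B) * ((A - B).adjugate * B)) := by noncomm_ring
    _ = (A - B).det • A - (A - B).det • (A + B) := by rw [h3]
    _ = -((A - B).det • B) := by
      rw [smul_add]
      abel
  have h2 : 2 * ((A - B).adjugate * A) - (A - B).det • 1 - 2 * (A - B).adjugate * B =
      ((A - B).det • (1 : Matrix (Fin g) (Fin g) ℂ)) := by
    have h4 : 2 * ((A - B).adjugate * A) - (A - B).det • 1 - 2 * (A - B).adjugate * B =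
        2 * ((A - B).adjugate * A - (A - B).adjugate * B) - (A - B).det • 1 := by noncomm_ring
    rw [h4, h0, two_mul]
    abel
  rw [h1, h2, neg_mulVec, smul_mulVec, smul_mulVec, one_mulVec]
  funext i
  rcases i with i | i
  · simp [vecL]
  · simp [vecL]

/-- Two matrices which agree on two complementary Lagrangian subspaces are equal. -/
theorem eq_of_vecL {A B : Matrix (Fin g) (Fin g) ℂ} (h : IsUnit (B - A).det) {X Y : MM g}
    (h1 : ∀ p, X *ᵥ vecL A p = Y *ᵥ vecL A p) (h2 : ∀ p, X *ᵥ vecL B p = Y *ᵥ vecL B p) :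
    X = Y := by
  ext i j
  obtain ⟨b, b', hb⟩ := exists_decomp A B h (Pi.single j 1)
  have h3 : X *ᵥ (Pi.single j 1) = Y *ᵥ (Pi.single j 1) := by
    rw [hb, mulVec_add, mulVec_add, h1, h2]
  rw [mulVec_single_one, mulVec_single_one] at h3
  exact congrFun h3 i

theorem isUnit_conj_sub (hpos : (imM Z).PosDef) (σ : ℂ ≃+* ℂ) :
    IsUnit ((Z.map (starRingEnd ℂ)).map σ - Z.map σ).det := by
  have hY : IsUnit (imM Z).det := hpos.isUnit.map Matrix.detMonoidHom
  have h4 : ((Z.map (starRingEnd ℂ)).map σ - Z.map σ).det =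
      σ (Z.map (starRingEnd ℂ) - Z).det := by
    have h5 := (σ : ℂ →+* ℂ).map_det (Z.map (starRingEnd ℂ) - Z)
    change σ _ = _ at h5
    rw [h5]
    congr 1
    ext i j
    simp
  rw [h4]
  exact (isUnit_bar_sub hY).map σ

theorem dt_conj (hpos : (imM Z).PosDef) (σ : ℂ ≃+* ℂ) :
    dt (Z.map σ) ((Z.map (starRingEnd ℂ)).map σ) =
      (Z.map σ - (Z.map (starRingEnd ℂ)).map σ).det • Ds Z σ := by
  refine eq_of_vecL (isUnit_conj_sub hpos σ) ?_ ?_
  · intro p
    rw [dt_vecL_left, smul_mulVec, Ds_vecL hpos, smul_neg]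
  · intro p
    rw [dt_vecL_right, smul_mulVec, Ds_vecL_bar hpos]

theorem dt_mem (hpos : (imM Z).PosDef) (σ : ℂ ≃+* ℂ) :
    dt (Z.map σ) ((Z.map (starRingEnd ℂ)).map σ) ∈ LG Z := by
  rw [dt_conj hpos]
  exact Submodule.smul_mem _ _ (Ds_mem σ)

/-- The involution in terms of the inverse of the difference. -/
theorem dt_of_inv {A B C : Matrix (Fin g) (Fin g) ℂ} (hC : (A - B) * C = 1) :
    dt A B = (A - B).det • fromBlocks (-((A + B) * C)) (A - (A + B) * C * A)
      (2 * C) (2 * (C * A) - 1) := by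
  have h1 : (A - B).adjugate = (A - B).det • C := by
    calc (A - B).adjugate = (A - B).adjugate * ((A - B) * C) := by rw [hC, Matrix.mul_one]
    _ = (A - B).det • C := by
      rw [← Matrix.mul_assoc, adjugate_mul, Matrix.smul_mul, Matrix.one_mul]
  unfold dt
  rw [h1, fromBlocks_smul]
  congr 1
  · rw [Matrix.mul_smul, smul_neg]
  · rw [Matrix.mul_smul, Matrix.smul_mul, smul_sub]
  · rw [Matrix.mul_smul]
  · rw [Matrix.smul_mul, Matrix.mul_smul, smul_sub]

end Pool.Agent.Q34.SD
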