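import Mathlib

/-!
# Lie algebras of matrices generated by a few elements
-/

set_option linter.unusedSectionVars false

namespace Pool.Agent.Q34.SD

open Matrix Module

section br

variable {ι : Type*} [Fintype ι] [DecidableEq ι] {R : Type*} [CommRing R]

/-- The iterated brackets of the elements of a set. -/
inductive Br (S : Set (Matrix ι ι R)) : Matrix ι ι R → Prop
  | gen {X : Matrix ι ι R} : X ∈ S → Br S X
  | br {X Y : Matrix ι ι R} : Br S X → Br S Y → Br S (X * Y - Y * X)

theorem Br.map {R' : Type*} [CommRing R'] (f : R →+* R') {S : Set (Matrix ι ι R)}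
    {X : Matrix ι ι R} (h : Br S X) : Br ((fun Y => Y.map f) '' S) (X.map f) := by
  induction h with
  | gen h => exact Br.gen ⟨_, h, rfl⟩
  | br _ _ h1 h2 =>
    rw [Matrix.map_sub _ (map_sub f), Matrix.map_mul, Matrix.map_mul]
    exact Br.br h1 h2

theorem Br.mem {S : Set (Matrix ι ι R)} {L : Submodule R (Matrix ι ι R)}
    (hL : ∀ A ∈ L, ∀ C ∈ L, A * C - C * A ∈ L) (hS : S ⊆ L) {X : Matrix ι ι R} (h : Br S X) :
    X ∈ L := by
  induction h with
  | gen h => exact hS h
  | br _ _ h1 h2 => exact hL _ h1 _ h2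

/-- The span of the iterated brackets is a Lie algebra. -/
theorem span_br (S : Set (Matrix ι ι R)) :
    ∀ A ∈ Submodule.span R {X | Br S X}, ∀ C ∈ Submodule.span R {X | Br S X},
      A * C - C * A ∈ Submodule.span R {X | Br S X} := by
  intro A hA
  induction hA using Submodule.span_induction with
  | mem A hA =>
    intro C hC
    induction hC using Submodule.span_induction with
    | mem C hC => exact Submodule.subset_span (Br.br hA hC)
    | zero =>
      rw [mul_zero, zero_mul, sub_zero]
      exact Submodule.zero_mem _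
    | add x y _ _ hx hy =>
      have h : A * (x + y) - (x + y) * A = (A * x - x * A) + (A * y - y * A) := by noncomm_ring
      rw [h]
      exact Submodule.add_mem _ hx hy
    | smul r x _ hx =>
      have h : A * (r • x) - (r • x) * A = r • (A * x - x * A) := by
        rw [Matrix.mul_smul, Matrix.smul_mul, smul_sub]
      rw [h]
      exact Submodule.smul_mem _ _ hx
  | zero =>
    intro C _
    rw [mul_zero, zero_mul, sub_zero]
    exact Submodule.zero_mem _
  | add x y _ _ hx hy =>
    intro C hC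
    have h : (x + y) * C - C * (x + y) = (x * C - C * x) + (y * C - C * y) := by noncomm_ring
    rw [h]
    exact Submodule.add_mem _ (hx C hC) (hy C hC)
  | smul r x _ hx =>
    intro C hC
    have h : (r • x) * C - C * (r • x) = r • (x * C - C * x) := by
      rw [Matrix.mul_smul, Matrix.smul_mul, smul_sub]
    rw [h]
    exact Submodule.smul_mem _ _ (hx C hC)

end br

section wt

variable {ι : Type*} [Fintype ι] [DecidableEq ι] {L : Submodule ℂ (Matrix ι ι ℂ)}

/-- The part of a matrix of the weight `c`. -/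
noncomputable def wt (d : ι → ℂ) (c : ℂ) (X : Matrix ι ι ℂ) : Matrix ι ι ℂ :=
  Matrix.of fun u v => if d u - d v = c then X u v else 0

theorem diag_poly (hL : ∀ A ∈ L, ∀ C ∈ L, A * C - C * A ∈ L) {d : ι → ℂ}
    (hd : diagonal d ∈ L) {X : Matrix ι ι ℂ} (hX : X ∈ L) (p : Polynomial ℂ) :
    (Matrix.of fun u v => p.eval (d u - d v) * X u v) ∈ L := by
  induction p using Polynomial.induction_on' with
  | add p q hp hq =>
    have h : (Matrix.of fun u v => (p + q).eval (d u - d v) * X u v) =
        (Matrix.of fun u v => p.eval (d u - d v) * X u v) +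
          Matrix.of fun u v => q.eval (d u - d v) * X u v := by
      ext u v
      simp only [Matrix.of_apply, Matrix.add_apply, Polynomial.eval_add, add_mul]
    rw [h]
    exact Submodule.add_mem _ hp hq
  | monomial n a =>
    have h1 : ∀ n : ℕ, (Matrix.of fun u v => (d u - d v) ^ n * X u v) ∈ L := by
      intro n
      induction n with
      | zero =>
        have h : (Matrix.of fun u v => (d u - d v) ^ 0 * X u v) = X := by
          ext u v
          simp
        rw [h]
        exact hX
      | succ n ih =>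
        have h := hL _ hd _ ih
        have h2 : diagonal d * (Matrix.of fun u v => (d u - d v) ^ n * X u v) -
            (Matrix.of fun u v => (d u - d v) ^ n * X u v) * diagonal d =
            Matrix.of fun u v => (d u - d v) ^ (n + 1) * X u v := by
          ext u v
          rw [Matrix.sub_apply, Matrix.diagonal_mul, Matrix.mul_diagonal, Matrix.of_apply,
            Matrix.of_apply, pow_succ]
          ring
        rwa [h2] at h
    have h : (Matrix.of fun u v => ((Polynomial.monomial n a).eval (d u - d v)) * X u v) =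
        a • Matrix.of fun u v => (d u - d v) ^ n * X u v := by
      ext u v
      simp only [Matrix.of_apply, Matrix.smul_apply, Polynomial.eval_monomial, smul_eq_mul,
        mul_assoc]
    rw [h]
    exact Submodule.smul_mem _ _ (h1 n)

/-- The weight parts of the elements of a Lie algebra with respect to a diagonal element. -/
theorem wt_mem (hL : ∀ A ∈ L, ∀ C ∈ L, A * C - C * A ∈ L) {d : ι → ℂ}
    (hd : diagonal d ∈ L) {X : Matrix ι ι ℂ} (hX : X ∈ L) (c : ℂ) : wt d c X ∈ L := by
  classical
  obtain ⟨s, hs⟩ : ∃ s : Finset ℂ, s = (Finset.univ.image fun p : ι × ι => d p.1 - d p.2).erase c :=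
    ⟨_, rfl⟩
  obtain ⟨q, hq⟩ : ∃ q : Polynomial ℂ, q = ∏ x ∈ s, (Polynomial.X - Polynomial.C x) := ⟨_, rfl⟩
  have h1 : q.eval c ≠ 0 := by
    rw [hq, Polynomial.eval_prod, Finset.prod_ne_zero_iff]
    intro x hx
    rw [Polynomial.eval_sub, Polynomial.eval_X, Polynomial.eval_C, sub_ne_zero]
    rw [hs, Finset.mem_erase] at hx
    exact hx.1.symm
  have h2 : ∀ u v, d u - d v ≠ c → q.eval (d u - d v) = 0 := by
    intro u v h
    rw [hq, Polynomial.eval_prod]
    refine Finset.prod_eq_zero (i := d u - d v) ?_ ?_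
    · rw [hs, Finset.mem_erase]
      exact ⟨h, Finset.mem_image.2 ⟨(u, v), Finset.mem_univ _, rfl⟩⟩
    · rw [Polynomial.eval_sub, Polynomial.eval_X, Polynomial.eval_C, sub_self]
  have h3 := Submodule.smul_mem L (q.eval c)⁻¹ (diag_poly hL hd hX q)
  have h4 : (q.eval c)⁻¹ • (Matrix.of fun u v => q.eval (d u - d v) * X u v) = wt d c X := by
    ext u v
    rw [Matrix.smul_apply, Matrix.of_apply, wt, Matrix.of_apply, smul_eq_mul]
    by_cases h : d u - d v = c
    · rw [if_pos h, h, ← mul_assoc, inv_mul_cancel₀ h1, one_mul]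
    · rw [if_neg h, h2 u v h, zero_mul, mul_zero]
  rwa [h4] at h3

end wt

section special

variable {g : ℕ} {L : Submodule ℂ (Matrix (Fin g ⊕ Fin g) (Fin g ⊕ Fin g) ℂ)}

/-- The elements of the nilradicals and of the Levi subalgebra. -/
def up (b : Matrix (Fin g) (Fin g) ℂ) : Matrix (Fin g ⊕ Fin g) (Fin g ⊕ Fin g) ℂ :=
  fromBlocks 0 b 0 0

def lw (c : Matrix (Fin g) (Fin g) ℂ) : Matrix (Fin g ⊕ Fin g) (Fin g ⊕ Fin g) ℂ :=
  fromBlocks 0 0 c 0

def gg (a : Matrix (Fin g) (Fin g) ℂ) : Matrix (Fin g ⊕ Fin g) (Fin g ⊕ Fin g) ℂ :=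
  fromBlocks a 0 0 (-aᵀ)

theorem fromBlocks_sub' (a b c d a' b' c' d' : Matrix (Fin g) (Fin g) ℂ) :
    fromBlocks a b c d - fromBlocks a' b' c' d' =
      fromBlocks (a - a') (b - b') (c - c') (d - d') := by
  rw [sub_eq_add_neg, fromBlocks_neg, fromBlocks_add]
  simp only [← sub_eq_add_neg]

theorem br_up_lw (b c : Matrix (Fin g) (Fin g) ℂ) (hb : bᵀ = b) (hc : cᵀ = c) :
    up b * lw c - lw c * up b = gg (b * c) := by
  unfold up lw gg
  rw [fromBlocks_multiply, fromBlocks_multiply, fromBlocks_sub', transpose_mul, hb, hc]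
  congr 1 <;> simp

theorem br_gg_up (a b : Matrix (Fin g) (Fin g) ℂ) :
    gg a * up b - up b * gg a = up (a * b + b * aᵀ) := by
  unfold up gg
  rw [fromBlocks_multiply, fromBlocks_multiply, fromBlocks_sub']
  congr 1 <;> simp

/-- The symplectic Lie algebra is spanned by the obvious elements. -/
theorem sp_le_of (hup : ∀ i j, up (single i j 1 + single j i 1) ∈ L)
    (hlw : ∀ i j, lw (single i j 1 + single j i 1) ∈ L) (hgg : ∀ i j, gg (single i j 1) ∈ L)
    {X : Matrix (Fin g ⊕ Fin g) (Fin g ⊕ Fin g) ℂ}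
    (hX : Xᵀ * fromBlocks 0 1 (-1) 0 + fromBlocks 0 1 (-1) 0 * X = 0) : X ∈ L := by
  obtain ⟨a, ha⟩ : ∃ a, a = X.toBlocks₁₁ := ⟨_, rfl⟩
  obtain ⟨b, hb⟩ : ∃ b, b = X.toBlocks₁₂ := ⟨_, rfl⟩
  obtain ⟨c, hc⟩ : ∃ c, c = X.toBlocks₂₁ := ⟨_, rfl⟩
  obtain ⟨d, hd⟩ : ∃ d, d = X.toBlocks₂₂ := ⟨_, rfl⟩
  have hXe : X = fromBlocks a b c d := by
    rw [ha, hb, hc, hd, fromBlocks_toBlocks]
  rw [hXe, fromBlocks_transpose, fromBlocks_multiply, fromBlocks_multiply, fromBlocks_add,
    ← fromBlocks_zero, fromBlocks_inj] at hX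
  obtain ⟨h1, h2, h3, h4⟩ := hX
  simp only [Matrix.mul_zero, Matrix.mul_neg, Matrix.mul_one, Matrix.zero_mul, Matrix.neg_mul,
    Matrix.one_mul, add_zero, zero_add] at h1 h2 h3 h4
  have hbs : bᵀ = b := by
    rw [← sub_eq_add_neg, sub_eq_zero] at h4
    exact h4
  have hcs : cᵀ = c := by
    rw [neg_add_eq_zero] at h1
    exact h1
  have hda : d = -aᵀ := by
    rw [add_comm] at h2
    exact eq_neg_of_add_eq_zero_left h2
  have hsum : ∀ (M : Matrix (Fin g) (Fin g) ℂ), M = ∑ i, ∑ j, M i j • single i j (1 : ℂ) := by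
    intro M
    conv_lhs => rw [matrix_eq_sum_single M]
    refine Finset.sum_congr rfl fun i _ => Finset.sum_congr rfl fun j _ => ?_
    rw [smul_single, smul_eq_mul, mul_one]
  have hsym : ∀ (M : Matrix (Fin g) (Fin g) ℂ), Mᵀ = M →
      M = ∑ i, ∑ j, (M i j / 2) • (single i j (1 : ℂ) + single j i 1) := by
    intro M hM
    have e1 : M = ((1 : ℂ) / 2) • (M + Mᵀ) := by
      rw [hM, ← two_smul ℂ M, smul_smul]
      norm_num
    have e2 : Mᵀ = ∑ i, ∑ j, M i j • single j i (1 : ℂ) := by
      conv_lhs => rw [hsum M]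
      rw [transpose_sum]
      refine Finset.sum_congr rfl fun i _ => ?_
      rw [transpose_sum]
      refine Finset.sum_congr rfl fun j _ => ?_
      rw [transpose_smul, transpose_single]
    have e3 : M + Mᵀ = ∑ i, ∑ j, (M i j • single i j (1 : ℂ) + M i j • single j i (1 : ℂ)) := by
      have e4 : M + Mᵀ = (∑ i, ∑ j, M i j • single i j (1 : ℂ)) +
          ∑ i, ∑ j, M i j • single j i (1 : ℂ) := by rw [← e2, ← hsum M]
      rw [e4, ← Finset.sum_add_distrib]
      refine Finset.sum_congr rfl fun i _ => ?_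
      rw [← Finset.sum_add_distrib]
    refine e1.trans ?_
    rw [e3, Finset.smul_sum]
    refine Finset.sum_congr rfl fun i _ => ?_
    rw [Finset.smul_sum]
    refine Finset.sum_congr rfl fun j _ => ?_
    rw [← smul_add, smul_smul]
    congr 1
    ring
  have hXs : X = gg a + up b + lw c := by
    rw [hXe, hda]
    unfold gg up lw
    rw [fromBlocks_add, fromBlocks_add]
    simp
  rw [hXs]
  refine Submodule.add_mem _ (Submodule.add_mem _ ?_ ?_) ?_
  · have h5 : gg a = ∑ i, ∑ j, a i j • gg (single i j (1 : ℂ)) := by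
      have e : ∀ M N : Matrix (Fin g) (Fin g) ℂ, gg (M + N) = gg M + gg N := by
        intro M N
        unfold gg
        rw [fromBlocks_add, transpose_add]
        congr 1 <;> simp [add_comm]
      have e' : ∀ (r : ℂ) (M : Matrix (Fin g) (Fin g) ℂ), gg (r • M) = r • gg M := by
        intro r M
        unfold gg
        rw [fromBlocks_smul, transpose_smul]
        congr 1 <;> simp
      let G : Matrix (Fin g) (Fin g) ℂ →ₗ[ℂ] Matrix (Fin g ⊕ Fin g) (Fin g ⊕ Fin g) ℂ :=
        { toFun := gg, map_add' := e, map_smul' := e' }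
      change G a = ∑ i, ∑ j, a i j • G (single i j (1 : ℂ))
      conv_lhs => rw [hsum a]
      simp only [map_sum, map_smul]
    rw [h5]
    exact Submodule.sum_mem _ fun i _ => Submodule.sum_mem _ fun j _ =>
      Submodule.smul_mem _ _ (hgg i j)
  · have h5 : up b = ∑ i, ∑ j, (b i j / 2) • up (single i j (1 : ℂ) + single j i 1) := by
      have e : ∀ M N : Matrix (Fin g) (Fin g) ℂ, up (M + N) = up M + up N := by
        intro M N
        unfold up
        rw [fromBlocks_add]
        simp
      have e' : ∀ (r : ℂ) (M : Matrix (Fin g) (Fin g) ℂ), up (r • M) = r • up M := by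
        intro r M
        unfold up
        rw [fromBlocks_smul]
        simp
      let G : Matrix (Fin g) (Fin g) ℂ →ₗ[ℂ] Matrix (Fin g ⊕ Fin g) (Fin g ⊕ Fin g) ℂ :=
        { toFun := up, map_add' := e, map_smul' := e' }
      change G b = ∑ i, ∑ j, (b i j / 2) • G (single i j (1 : ℂ) + single j i 1)
      conv_lhs => rw [hsym b hbs]
      simp only [map_sum, map_smul]
    rw [h5]
    exact Submodule.sum_mem _ fun i _ => Submodule.sum_mem _ fun j _ =>
      Submodule.smul_mem _ _ (hup i j)
  · have h5 : lw c = ∑ i, ∑ j, (c i j / 2) • lw (single i j (1 : ℂ) + single j i 1) := by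
      have e : ∀ M N : Matrix (Fin g) (Fin g) ℂ, lw (M + N) = lw M + lw N := by
        intro M N
        unfold lw
        rw [fromBlocks_add]
        simp
      have e' : ∀ (r : ℂ) (M : Matrix (Fin g) (Fin g) ℂ), lw (r • M) = r • lw M := by
        intro r M
        unfold lw
        rw [fromBlocks_smul]
        simp
      let G : Matrix (Fin g) (Fin g) ℂ →ₗ[ℂ] Matrix (Fin g ⊕ Fin g) (Fin g ⊕ Fin g) ℂ :=
        { toFun := lw, map_add' := e, map_smul' := e' }
      change G c = ∑ i, ∑ j, (c i j / 2) • G (single i j (1 : ℂ) + single j i 1)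
      conv_lhs => rw [hsym c hcs]
      simp only [map_sum, map_smul]
    rw [h5]
    exact Submodule.sum_mem _ fun i _ => Submodule.sum_mem _ fun j _ =>
      Submodule.smul_mem _ _ (hlw i j)

end special

end Pool.Agent.Q34.SD
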