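import Mathlib
import Pool.Agent.Q34.SD.G2

/-!
# Three involutions which generate the symplectic Lie algebra
-/

set_option linter.unusedSectionVars false

namespace Pool.Agent.Q34.SD

open Matrix Module

variable {g : ℕ} {L : Submodule ℂ (Matrix (Fin g ⊕ Fin g) (Fin g ⊕ Fin g) ℂ)}

theorem up_smul (r : ℂ) (M : Matrix (Fin g) (Fin g) ℂ) : up (r • M) = r • up M := by
  unfold up
  rw [fromBlocks_smul]
  simp

theorem lw_smul (r : ℂ) (M : Matrix (Fin g) (Fin g) ℂ) : lw (r • M) = r • lw M := by
  unfold lw
  rw [fromBlocks_smul]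
  simp

theorem gg_single_self (i : Fin g) : gg (single i i (1 : ℂ)) =
    diagonal (Sum.elim (Pi.single i 1) (-Pi.single i 1)) := by
  unfold gg
  rw [transpose_single]
  ext u v
  rcases u with u | u <;> rcases v with v | v
  · rw [fromBlocks_apply₁₁, diagonal_apply, single_apply]
    by_cases h : u = i <;> by_cases h' : v = i
    · subst h; subst h'; simp
    · subst h
      simp only [Sum.inl.injEq]
      rw [if_neg, if_neg (Ne.symm h')]
      rintro ⟨-, h2⟩
      exact h' h2.symm
    · subst h'
      simp only [Sum.inl.injEq]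
      rw [if_neg, if_neg h]
      rintro ⟨h2, -⟩
      exact h h2.symm
    · rw [if_neg]
      · by_cases h2 : (Sum.inl u : Fin g ⊕ Fin g) = Sum.inl v
        · rw [if_pos h2, Sum.elim_inl, Pi.single_eq_of_ne h]
        · rw [if_neg h2]
      · rintro ⟨h2, -⟩
        exact h h2.symm
  · simp
  · simp
  · rw [fromBlocks_apply₂₂, diagonal_apply, neg_apply, single_apply]
    by_cases h : u = i <;> by_cases h' : v = i
    · subst h; subst h'; simp
    · subst h
      simp only [Sum.inr.injEq]
      rw [if_neg, if_neg (Ne.symm h'), neg_zero]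
      rintro ⟨-, h2⟩
      exact h' h2.symm
    · subst h'
      simp only [Sum.inr.injEq]
      rw [if_neg, if_neg h, neg_zero]
      rintro ⟨h2, -⟩
      exact h h2.symm
    · rw [if_neg]
      · by_cases h2 : (Sum.inr u : Fin g ⊕ Fin g) = Sum.inr v
        · rw [if_pos h2, Sum.elim_inr, Pi.neg_apply, Pi.single_eq_of_ne h]
        · rw [if_neg h2, neg_zero]
      · rintro ⟨h2, -⟩
        exact h h2.symm

theorem s1 {a b : Prop} [Decidable a] [Decidable b]
    (h : (if a then (1 : ℂ) else 0) - (if b then 1 else 0) = -1) : b ∧ ¬ a := by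
  split_ifs at h with h1 h2 h2
  · norm_num at h
  · norm_num at h
  · exact ⟨h2, h1⟩
  · norm_num at h

theorem s2 {a b : Prop} [Decidable a] [Decidable b] :
    (if a then (1 : ℂ) else 0) - -(if b then 1 else 0) ≠ -1 := by
  split_ifs <;> norm_num

theorem s3 {a b : Prop} [Decidable a] [Decidable b]
    (h : -(if a then (1 : ℂ) else 0) - (if b then 1 else 0) = -1) :
    (a ∧ ¬ b) ∨ (¬ a ∧ b) := by
  split_ifs at h with h1 h2 h2
  · norm_num at h
  · exact Or.inl ⟨h1, h2⟩
  · exact Or.inr ⟨h1, h2⟩
  · norm_num at h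

theorem s4 {a b : Prop} [Decidable a] [Decidable b]
    (h : -(if a then (1 : ℂ) else 0) - -(if b then 1 else 0) = -1) : a ∧ ¬ b := by
  split_ifs at h with h1 h2 h2
  · norm_num at h
  · exact ⟨h1, h2⟩
  · norm_num at h
  · norm_num at h

theorem s3' {a b : Prop} [Decidable a] [Decidable b]
    (h : (a ∧ ¬ b) ∨ (¬ a ∧ b)) : -(if a then (1 : ℂ) else 0) - (if b then 1 else 0) = -1 := by
  rcases h with ⟨h1, h2⟩ | ⟨h1, h2⟩
  · rw [if_pos h1, if_neg h2, sub_zero]
  · rw [if_neg h1, if_pos h2, neg_zero, zero_sub]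

/-- The double weight part. -/
theorem wt_wt {i j : Fin g} (hij : i ≠ j) {a b c d : Matrix (Fin g) (Fin g) ℂ} (hc : cᵀ = c) :
    wt (Sum.elim (Pi.single j 1) (-Pi.single j 1)) (-1)
      (wt (Sum.elim (Pi.single i 1) (-Pi.single i 1)) (-1) (fromBlocks a b c d)) =
      c i j • lw (single i j 1 + single j i 1) := by
  have hcs : c j i = c i j := congrFun (congrFun hc i) j
  ext u v
  unfold wt lw
  rw [Matrix.of_apply, Matrix.of_apply, Matrix.smul_apply, smul_eq_mul]
  rcases u with u | u <;> rcases v with v | v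
  · rw [fromBlocks_apply₁₁, fromBlocks_apply₁₁, Matrix.zero_apply, mul_zero]
    simp only [Sum.elim_inl, Pi.single_apply]
    by_cases h1 : (if u = j then (1 : ℂ) else 0) - (if v = j then 1 else 0) = -1
    · by_cases h2 : (if u = i then (1 : ℂ) else 0) - (if v = i then 1 else 0) = -1
      · exact (hij ((s1 h2).1.symm.trans (s1 h1).1)).elim
      · rw [if_neg h2, ite_self]
    · rw [if_neg h1]
  · rw [fromBlocks_apply₁₂, fromBlocks_apply₁₂, Matrix.zero_apply, mul_zero]
    simp only [Sum.elim_inl, Sum.elim_inr, Pi.single_apply, Pi.neg_apply]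
    rw [if_neg s2]
  · rw [fromBlocks_apply₂₁, fromBlocks_apply₂₁, Matrix.add_apply, single_apply, single_apply]
    simp only [Sum.elim_inl, Sum.elim_inr, Pi.single_apply, Pi.neg_apply]
    by_cases h1 : -(if u = j then (1 : ℂ) else 0) - (if v = j then 1 else 0) = -1
    · by_cases h2 : -(if u = i then (1 : ℂ) else 0) - (if v = i then 1 else 0) = -1
      · rw [if_pos h1, if_pos h2]
        rcases s3 h1 with ⟨h3, h4⟩ | ⟨h3, h4⟩
        · rcases s3 h2 with ⟨h5, h6⟩ | ⟨h5, h6⟩
          · exact (hij (h5.symm.trans h3)).elim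
          · subst h3
            subst h6
            rw [if_neg (fun h => hij h.1), if_pos ⟨rfl, rfl⟩, zero_add, mul_one, hcs]
        · rcases s3 h2 with ⟨h5, h6⟩ | ⟨h5, h6⟩
          · subst h4
            subst h5
            rw [if_pos ⟨rfl, rfl⟩, if_neg (fun h => hij h.1.symm), add_zero, mul_one]
          · exact (hij (h6.symm.trans h4)).elim
      · rw [if_pos h1, if_neg h2]
        symm
        rw [if_neg, if_neg, add_zero, mul_zero]
        · rintro ⟨h5, h6⟩
          exact h2 (s3' (Or.inr ⟨fun h => hij (h.symm.trans h5.symm), h6.symm⟩))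
        · rintro ⟨h5, h6⟩
          exact h2 (s3' (Or.inl ⟨h5.symm, fun h => hij (h.symm.trans h6.symm)⟩))
    · rw [if_neg h1]
      symm
      rw [if_neg, if_neg, add_zero, mul_zero]
      · rintro ⟨h5, h6⟩
        exact h1 (s3' (Or.inl ⟨h5.symm, fun h => hij (h6.trans h)⟩))
      · rintro ⟨h5, h6⟩
        exact h1 (s3' (Or.inr ⟨fun h => hij (h5.trans h), h6.symm⟩))
  · rw [fromBlocks_apply₂₂, fromBlocks_apply₂₂, Matrix.zero_apply, mul_zero]
    simp only [Sum.elim_inr, Pi.single_apply, Pi.neg_apply]
    by_cases h1 : -(if u = j then (1 : ℂ) else 0) - -(if v = j then 1 else 0) = -1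
    · by_cases h2 : -(if u = i then (1 : ℂ) else 0) - -(if v = i then 1 else 0) = -1
      · exact (hij ((s4 h2).1.symm.trans (s4 h1).1)).elim
      · rw [if_neg h2, ite_self]
    · rw [if_neg h1]

theorem sp_of_special (hL : ∀ A ∈ L, ∀ C ∈ L, A * C - C * A ∈ L) (T : Fin g → ℂ)
    (hH : ∀ i j, (T i)⁻¹ - T i = (T j)⁻¹ - T j → i = j)
    (hH' : ∀ i j, (T i)⁻¹ - T i ≠ -((T j)⁻¹ - T j)) (h1 : fromBlocks 0 1 1 0 ∈ L)
    (h2 : fromBlocks 0 (diagonal T) (diagonal fun i => (T i)⁻¹) 0 ∈ L)
    {a b c d : Matrix (Fin g) (Fin g) ℂ} (h3 : fromBlocks a b c d ∈ L) (hc : cᵀ = c)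
    (hc0 : ∀ i j, i ≠ j → c i j ≠ 0) {X : Matrix (Fin g ⊕ Fin g) (Fin g ⊕ Fin g) ℂ}
    (hX : Xᵀ * fromBlocks 0 1 (-1) 0 + fromBlocks 0 1 (-1) 0 * X = 0) : X ∈ L := by
  obtain ⟨H, hHd⟩ : ∃ H : Fin g → ℂ, H = fun i => (T i)⁻¹ - T i := ⟨_, rfl⟩
  have hH1 : ∀ i j, H i = H j → i = j := fun i j h => hH i j (by rw [hHd] at h; exact h)
  have hH2 : ∀ i j, H i ≠ -H j := fun i j h => hH' i j (by rw [hHd] at h; exact h)
  -- the diagonal element
  have hd : diagonal (Sum.elim H (-H)) ∈ L := by
    have h4 := hL _ h1 _ h2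
    have h5 : (fromBlocks 0 1 1 0 : Matrix (Fin g ⊕ Fin g) (Fin g ⊕ Fin g) ℂ) *
        fromBlocks 0 (diagonal T) (diagonal fun i => (T i)⁻¹) 0 -
        fromBlocks 0 (diagonal T) (diagonal fun i => (T i)⁻¹) 0 * fromBlocks 0 1 1 0 =
        diagonal (Sum.elim H (-H)) := by
      rw [fromBlocks_multiply, fromBlocks_multiply, fromBlocks_sub', hHd]
      simp only [Matrix.zero_mul, Matrix.mul_zero, Matrix.one_mul, Matrix.mul_one, zero_add,
        add_zero, sub_zero, diagonal_sub]
      rw [← fromBlocks_diagonal]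
      congr 1
      congr 1
      funext i
      change T i - (T i)⁻¹ = -((T i)⁻¹ - T i)
      ring
    rwa [h5] at h4
  have hup1 : ∀ i, up (single i i 1) ∈ L := by
    intro i
    have h4 := wt_mem hL hd h1 (2 * H i)
    have h5 : wt (Sum.elim H (-H)) (2 * H i) (fromBlocks 0 1 1 0) = up (single i i (1 : ℂ)) := by
      ext u v
      unfold wt up
      rw [Matrix.of_apply]
      rcases u with u | u <;> rcases v with v | v
      · rw [fromBlocks_apply₁₁, fromBlocks_apply₁₁, Matrix.zero_apply, ite_self]
      · rw [fromBlocks_apply₁₂, fromBlocks_apply₁₂, Matrix.one_apply, single_apply]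
        by_cases huv : u = v
        · subst huv
          by_cases hui : i = u
          · subst hui
            rw [if_pos, if_pos rfl, if_pos ⟨rfl, rfl⟩]
            simp only [Sum.elim_inl, Sum.elim_inr, Pi.neg_apply]
            ring
          · rw [if_neg, if_neg]
            · rintro ⟨h6, -⟩
              exact hui h6
            · simp only [Sum.elim_inl, Sum.elim_inr, Pi.neg_apply]
              intro h6
              exact hui (hH1 _ _ (by linear_combination -(1 / 2 : ℂ) * h6))
        · rw [if_neg huv, ite_self, if_neg]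
          rintro ⟨h6, h7⟩
          exact huv (h6.symm.trans h7)
      · rw [fromBlocks_apply₂₁, fromBlocks_apply₂₁, Matrix.one_apply, Matrix.zero_apply]
        by_cases huv : u = v
        · subst huv
          rw [if_neg]
          simp only [Sum.elim_inl, Sum.elim_inr, Pi.neg_apply]
          intro h6
          exact hH2 i u (by linear_combination -(1 / 2 : ℂ) * h6)
        · rw [if_neg huv, ite_self]
      · rw [fromBlocks_apply₂₂, fromBlocks_apply₂₂, Matrix.zero_apply, ite_self]
    rwa [h5] at h4
  have hlw1 : ∀ i, lw (single i i 1) ∈ L := by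
    intro i
    have h4 := wt_mem hL hd h1 (-(2 * H i))
    have h5 : wt (Sum.elim H (-H)) (-(2 * H i)) (fromBlocks 0 1 1 0) =
        lw (single i i (1 : ℂ)) := by
      ext u v
      unfold wt lw
      rw [Matrix.of_apply]
      rcases u with u | u <;> rcases v with v | v
      · rw [fromBlocks_apply₁₁, fromBlocks_apply₁₁, Matrix.zero_apply, ite_self]
      · rw [fromBlocks_apply₁₂, fromBlocks_apply₁₂, Matrix.one_apply, Matrix.zero_apply]
        by_cases huv : u = v
        · subst huv
          rw [if_neg]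
          simp only [Sum.elim_inl, Sum.elim_inr, Pi.neg_apply]
          intro h6
          exact hH2 i u (by linear_combination (1 / 2 : ℂ) * h6)
        · rw [if_neg huv, ite_self]
      · rw [fromBlocks_apply₂₁, fromBlocks_apply₂₁, Matrix.one_apply, single_apply]
        by_cases huv : u = v
        · subst huv
          by_cases hui : i = u
          · subst hui
            rw [if_pos, if_pos rfl, if_pos ⟨rfl, rfl⟩]
            simp only [Sum.elim_inl, Sum.elim_inr, Pi.neg_apply]
            ring
          · rw [if_neg, if_neg]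
            · rintro ⟨h6, -⟩
              exact hui h6
            · simp only [Sum.elim_inl, Sum.elim_inr, Pi.neg_apply]
              intro h6
              exact hui (hH1 _ _ (by linear_combination (1 / 2 : ℂ) * h6))
        · rw [if_neg huv, ite_self, if_neg]
          rintro ⟨h6, h7⟩
          exact huv (h6.symm.trans h7)
      · rw [fromBlocks_apply₂₂, fromBlocks_apply₂₂, Matrix.zero_apply, ite_self]
    rwa [h5] at h4
  have hgg1 : ∀ i, gg (single i i 1) ∈ L := by
    intro i
    have h4 := hL _ (hup1 i) _ (hlw1 i)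
    rw [br_up_lw _ _ (transpose_single _ _ _) (transpose_single _ _ _),
      single_mul_single_same, mul_one] at h4
    exact h4
  have hlw2 : ∀ i j, i ≠ j → lw (single i j 1 + single j i 1) ∈ L := by
    intro i j hij
    have h4 := wt_mem hL (by rw [← gg_single_self]; exact hgg1 j)
      (wt_mem hL (by rw [← gg_single_self]; exact hgg1 i) h3 (-1)) (-1)
    rw [wt_wt hij hc] at h4
    have h6 := Submodule.smul_mem L (c i j)⁻¹ h4
    rwa [smul_smul, inv_mul_cancel₀ (hc0 i j hij), one_smul] at h6
  have hlw : ∀ i j, lw (single i j 1 + single j i 1) ∈ L := by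
    intro i j
    by_cases hij : i = j
    · subst hij
      have h4 : single i i (1 : ℂ) + single i i 1 = (2 : ℂ) • single i i 1 := (two_smul _ _).symm
      rw [h4, lw_smul]
      exact L.smul_mem _ (hlw1 i)
    · exact hlw2 i j hij
  have hgg : ∀ i j, gg (single i j 1) ∈ L := by
    intro i j
    by_cases hij : i = j
    · subst hij
      exact hgg1 i
    · have h4 := hL _ (hup1 i) _ (hlw i j)
      rw [br_up_lw _ _ (transpose_single _ _ _) (by
        rw [transpose_add, transpose_single, transpose_single, add_comm]), Matrix.mul_add,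
        single_mul_single_same, single_mul_single_of_ne _ _ _ _ hij, add_zero, mul_one] at h4
      exact h4
  have hup : ∀ i j, up (single i j 1 + single j i 1) ∈ L := by
    intro i j
    have h4 := hL _ (hgg i j) _ (hup1 j)
    rw [br_gg_up, transpose_single, single_mul_single_same, single_mul_single_same,
      mul_one] at h4
    exact h4
  exact sp_le_of hup hlw hgg hX

end Pool.Agent.Q34.SD
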