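import Mathlib
import Pool.Agent.Q34.SD.G1
import Pool.Agent.Q34.SD.G3

/-!
# Special tuples of period matrices
-/

set_option linter.unusedSectionVars false

namespace Pool.Agent.Q34.SD

open Matrix Module Pool.Agent.W437.HC

variable {g : ℕ}

/-- The entries of the diagonal matrix. -/
def tv (s : ℝ) (i : Fin g) : ℝ := s + (i : ℕ)

/-- The diagonal matrix. -/
noncomputable def TT (g : ℕ) (s : ℝ) : Matrix (Fin g) (Fin g) ℂ :=
  diagonal fun i => ((tv s i : ℝ) : ℂ)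

/-- The matrix which is not diagonal. -/
noncomputable def QQ (g : ℕ) (q : ℝ) : Matrix (Fin g) (Fin g) ℂ :=
  (diagonal fun _ => (q : ℂ)) + Matrix.of fun _ _ => 1

theorem tv_gt {s : ℝ} (hs : 1 < s) (i : Fin g) : 1 < tv s i := by
  unfold tv
  have h : (0 : ℝ) ≤ ((i : ℕ) : ℝ) := Nat.cast_nonneg _
  linarith

theorem dt_one : dt (1 : Matrix (Fin g) (Fin g) ℂ) (-1) =
    ((1 : Matrix (Fin g) (Fin g) ℂ) - -1).det • fromBlocks 0 1 1 0 := by
  have hC : ((1 : Matrix (Fin g) (Fin g) ℂ) - -1) * ((1 / 2 : ℂ) • 1) = 1 := by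
    rw [sub_neg_eq_add, Matrix.mul_smul, Matrix.mul_one, ← two_smul ℂ (1 : Matrix _ _ ℂ),
      smul_smul]
    norm_num
  rw [dt_of_inv hC]
  congr 1
  have h2 : (2 : Matrix (Fin g) (Fin g) ℂ) * ((1 / 2 : ℂ) • 1) = 1 := by
    rw [two_mul, ← add_smul]
    norm_num
  congr 1
  · rw [add_neg_cancel, Matrix.zero_mul, neg_zero]
  · rw [add_neg_cancel, Matrix.zero_mul, Matrix.zero_mul, sub_zero]
  · rw [Matrix.mul_one, h2, sub_self]

theorem dt_diag {t : Fin g → ℂ} (ht : ∀ i, t i ≠ 0) : dt (diagonal t) (-diagonal t) =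
    (diagonal t - -diagonal t).det • fromBlocks 0 (diagonal t) (diagonal fun i => (t i)⁻¹) 0 := by
  have hC : (diagonal t - -diagonal t) * (diagonal fun i => (2 * t i)⁻¹) = 1 := by
    rw [sub_neg_eq_add, diagonal_add, diagonal_mul_diagonal, ← diagonal_one]
    congr 1
    funext i
    rw [← two_mul]
    exact mul_inv_cancel₀ (mul_ne_zero two_ne_zero (ht i))
  rw [dt_of_inv hC]
  congr 1
  have h2 : (2 : Matrix (Fin g) (Fin g) ℂ) * (diagonal fun i => (2 * t i)⁻¹) =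
      diagonal fun i => (t i)⁻¹ := by
    rw [two_mul, diagonal_add]
    congr 1
    funext i
    rw [mul_inv]
    ring
  have h3 : (diagonal fun i => (t i)⁻¹) * diagonal t = 1 := by
    rw [diagonal_mul_diagonal, ← diagonal_one]
    congr 1
    funext i
    exact inv_mul_cancel₀ (ht i)
  congr 1
  · rw [add_neg_cancel, Matrix.zero_mul, neg_zero]
  · rw [add_neg_cancel, Matrix.zero_mul, Matrix.zero_mul, sub_zero]
  · rw [← Matrix.mul_assoc, h2, h3, sub_self]

theorem det_ne_zero_of_inv {A C : Matrix (Fin g) (Fin g) ℂ} (h : A * C = 1) : A.det ≠ 0 := by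
  intro h0
  have h1 := congrArg det h
  rw [det_mul, h0, zero_mul, det_one] at h1
  exact zero_ne_one h1

/-- The inverse of a diagonal matrix plus the matrix of ones. -/
theorem exists_inv {l : Fin g → ℝ} (hl : ∀ i, 0 < l i) :
    ∃ C : Matrix (Fin g) (Fin g) ℂ, (diagonal (fun i => (l i : ℂ)) + Matrix.of fun _ _ => 1) * C = 1
      ∧ Cᵀ = C ∧ ∀ i j, i ≠ j → C i j ≠ 0 := by
  obtain ⟨s, hs⟩ : ∃ s : ℝ, s = 1 + ∑ i, (l i)⁻¹ := ⟨_, rfl⟩
  have hs0 : 0 < s := by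
    have h1 : 0 ≤ ∑ i, (l i)⁻¹ := Finset.sum_nonneg fun i _ => (inv_pos.2 (hl i)).le
    rw [hs]
    linarith
  have hsC : (s : ℂ) ≠ 0 := by exact_mod_cast hs0.ne'
  have hlC : ∀ i, (l i : ℂ) ≠ 0 := fun i => by exact_mod_cast (hl i).ne'
  have hsum : ∑ k, ((l k : ℂ))⁻¹ = (s : ℂ) - 1 := by
    rw [hs]
    push_cast
    ring
  refine ⟨diagonal (fun i => (l i : ℂ)⁻¹) -
    Matrix.of fun i j => (s : ℂ)⁻¹ * ((l i : ℂ)⁻¹ * (l j : ℂ)⁻¹), ?_, ?_, ?_⟩
  · ext i j
    rw [Matrix.add_mul, Matrix.mul_sub, Matrix.mul_sub, Matrix.add_apply, Matrix.sub_apply,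
      Matrix.sub_apply, diagonal_mul_diagonal, diagonal_mul, mul_diagonal, Matrix.of_apply,
      Matrix.of_apply, one_mul]
    have h1 : ((Matrix.of fun _ _ => (1 : ℂ)) *
        (Matrix.of fun i j => (s : ℂ)⁻¹ * ((l i : ℂ)⁻¹ * (l j : ℂ)⁻¹)) :
        Matrix (Fin g) (Fin g) ℂ) i j = (s : ℂ)⁻¹ * ((s - 1) * (l j : ℂ)⁻¹) := by
      rw [Matrix.mul_apply]
      simp only [Matrix.of_apply, one_mul]
      rw [← Finset.mul_sum, ← Finset.sum_mul, hsum]
    rw [h1, diagonal_apply, Matrix.one_apply]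
    by_cases hij : i = j
    · subst hij
      rw [if_pos rfl, if_pos rfl]
      field_simp [hlC i]
      ring
    · rw [if_neg hij, if_neg hij]
      field_simp [hlC i, hlC j]
      ring
  · ext i j
    rw [transpose_apply, Matrix.sub_apply, Matrix.sub_apply, Matrix.of_apply, Matrix.of_apply,
      diagonal_apply, diagonal_apply, mul_comm (l j : ℂ)⁻¹]
    by_cases hij : i = j
    · subst hij
      rfl
    · rw [if_neg hij, if_neg (Ne.symm hij)]
  · intro i j hij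
    rw [Matrix.sub_apply, diagonal_apply_ne _ hij, Matrix.of_apply, zero_sub, neg_ne_zero]
    exact mul_ne_zero (inv_ne_zero hsC) (mul_ne_zero (inv_ne_zero (hlC i)) (inv_ne_zero (hlC j)))

/-- **A Lie algebra which contains the three involutions contains the symplectic Lie algebra.** -/
theorem sp_of_tuple {L : Submodule ℂ (Matrix (Fin g ⊕ Fin g) (Fin g ⊕ Fin g) ℂ)}
    (hL : ∀ A ∈ L, ∀ C ∈ L, A * C - C * A ∈ L) {s q : ℝ} (hs : 1 < s) {y : Fin g → ℝ}
    (hy : ∀ i, y i < q) (h1 : dt 1 (-1) ∈ L) (h2 : dt (TT g s) (-TT g s) ∈ L)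
    (h3 : dt (QQ g q) (diagonal fun i => (y i : ℂ)) ∈ L)
    {X : Matrix (Fin g ⊕ Fin g) (Fin g ⊕ Fin g) ℂ}
    (hX : Xᵀ * fromBlocks 0 1 (-1) 0 + fromBlocks 0 1 (-1) 0 * X = 0) : X ∈ L := by
  have hinv : ∀ {r : ℂ} {M : Matrix (Fin g ⊕ Fin g) (Fin g ⊕ Fin g) ℂ}, r ≠ 0 → r • M ∈ L →
      M ∈ L := by
    intro r M hr h
    have h4 := L.smul_mem r⁻¹ h
    rwa [smul_smul, inv_mul_cancel₀ hr, one_smul] at h4
  have e1 : fromBlocks 0 1 1 0 ∈ L := by
    refine hinv ?_ (dt_one ▸ h1)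
    have hC : ((1 : Matrix (Fin g) (Fin g) ℂ) - -1) * ((1 / 2 : ℂ) • 1) = 1 := by
      rw [sub_neg_eq_add, Matrix.mul_smul, Matrix.mul_one, ← two_smul ℂ (1 : Matrix _ _ ℂ),
        smul_smul]
      norm_num
    exact det_ne_zero_of_inv hC
  have hT0 : ∀ i : Fin g, ((tv s i : ℝ) : ℂ) ≠ 0 := by
    intro i
    have := tv_gt hs i
    exact_mod_cast (by linarith : (0 : ℝ) < tv s i).ne'
  have e2 : fromBlocks 0 (diagonal fun i => ((tv s i : ℝ) : ℂ))
      (diagonal fun i => (((tv s i : ℝ) : ℂ))⁻¹) 0 ∈ L := by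
    refine hinv ?_ (dt_diag hT0 ▸ h2)
    have hC : (diagonal (fun i : Fin g => ((tv s i : ℝ) : ℂ)) -
        -diagonal (fun i : Fin g => ((tv s i : ℝ) : ℂ))) *
        (diagonal fun i => (2 * ((tv s i : ℝ) : ℂ))⁻¹) = 1 := by
      rw [sub_neg_eq_add, diagonal_add, diagonal_mul_diagonal, ← diagonal_one]
      congr 1
      funext i
      rw [← two_mul]
      exact mul_inv_cancel₀ (mul_ne_zero two_ne_zero (hT0 i))
    exact det_ne_zero_of_inv hC
  obtain ⟨C, hC1, hC2, hC3⟩ := exists_inv (l := fun i : Fin g => q - y i)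
    (fun i => sub_pos.2 (hy i))
  have hQ : QQ g q - (diagonal fun i => (y i : ℂ)) =
      diagonal (fun i => ((q - y i : ℝ) : ℂ)) + Matrix.of fun _ _ => 1 := by
    unfold QQ
    rw [add_sub_right_comm, diagonal_sub]
    congr 2
    funext i
    push_cast
    rfl
  rw [← hQ] at hC1
  rw [dt_of_inv hC1] at h3
  have e3 := hinv (det_ne_zero_of_inv hC1) h3
  refine sp_of_special hL (fun i => ((tv s i : ℝ) : ℂ)) ?_ ?_ e1 e2 e3 ?_ ?_ hX
  · intro i j h
    have h4 : (tv s i)⁻¹ - tv s i = (tv s j)⁻¹ - tv s j := by exact_mod_cast h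
    have h5 := tv_gt hs i
    have h6 := tv_gt hs j
    have h7 : (tv s i - tv s j) * (1 + (tv s i * tv s j)⁻¹) = 0 := by
      have h8 : tv s i ≠ 0 := by linarith
      have h9 : tv s j ≠ 0 := by linarith
      field_simp at h4 ⊢
      linear_combination -h4
    have h8 : (1 + (tv s i * tv s j)⁻¹) ≠ 0 := by
      have : 0 < (tv s i * tv s j)⁻¹ := inv_pos.2 (mul_pos (by linarith) (by linarith))
      linarith
    have h9 := (mul_eq_zero.1 h7).resolve_right h8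
    unfold tv at h9
    have h10 : ((i : ℕ) : ℝ) = ((j : ℕ) : ℝ) := by linarith
    exact Fin.ext (by exact_mod_cast h10)
  · intro i j h
    have h4 : (tv s i)⁻¹ - tv s i = -((tv s j)⁻¹ - tv s j) := by exact_mod_cast h
    have h5 := tv_gt hs i
    have h6 := tv_gt hs j
    have h7 : (tv s i)⁻¹ < 1 := inv_lt_one_of_one_lt₀ h5
    have h8 : (tv s j)⁻¹ < 1 := inv_lt_one_of_one_lt₀ h6
    linarith
  · rw [two_mul, transpose_add, hC2]
  · intro i j hij
    rw [two_mul, Matrix.add_apply, ← two_mul]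
    exact mul_ne_zero two_ne_zero (hC3 i j hij)

end Pool.Agent.Q34.SD
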