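import Mathlib
import Pool.Agent.Q34.SD.G4
import Pool.Agent.Y4.Aut

/-!
# The embeddings of a number field and the complex conjugation
-/

set_option linter.unusedSectionVars false

namespace Pool.Agent.Q34.SD

open Matrix Module Pool.Agent.W437.HC

/-- Two disjoint edges of a transitive graph. -/
theorem exists_disjoint {X G : Type*} [Fintype X] [DecidableEq X] (u v : G → X)
    (hne : ∀ σ, u σ ≠ v σ) (hsurj : ∀ x, ∃ σ, u σ = x)
    (hact : ∀ x x', ∃ (τ : G → G) (t : X → X), Function.Injective t ∧ t x = x' ∧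
      ∀ σ, u (τ σ) = t (u σ) ∧ v (τ σ) = t (v σ)) (h4 : 4 ≤ Fintype.card X) :
    ∃ σ σ', u σ ≠ u σ' ∧ u σ ≠ v σ' ∧ v σ ≠ u σ' ∧ v σ ≠ v σ' := by
  by_contra hcon
  push Not at hcon
  have hmeet : ∀ σ σ', u σ = u σ' ∨ u σ = v σ' ∨ v σ = u σ' ∨ v σ = v σ' := by
    intro σ σ'
    by_cases h1 : u σ = u σ'
    · exact Or.inl h1
    by_cases h2 : u σ = v σ'
    · exact Or.inr (Or.inl h2)
    by_cases h3 : v σ = u σ'
    · exact Or.inr (Or.inr (Or.inl h3))
    exact Or.inr (Or.inr (Or.inr (hcon σ σ' h1 h2 h3)))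
  have hout : ∀ s : Finset X, s.card ≤ 3 → ∃ x, x ∉ s := by
    intro s hs
    by_contra hx
    push Not at hx
    have h5 : s = Finset.univ := Finset.eq_univ_iff_forall.2 hx
    rw [h5, Finset.card_univ] at hs
    omega
  obtain ⟨σ0, -⟩ : ∃ σ : G, True := by
    obtain ⟨x, -⟩ := hout ∅ (by simp)
    obtain ⟨σ, -⟩ := hsurj x
    exact ⟨σ, trivial⟩
  obtain ⟨x, hx⟩ := hout {u σ0, v σ0} ((Finset.card_le_two).trans (by norm_num))
  simp only [Finset.mem_insert, Finset.mem_singleton, not_or] at hx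
  obtain ⟨σx, hσx⟩ := hsurj x
  obtain ⟨c, hc⟩ : ∃ c, c = v σx := ⟨_, rfl⟩
  -- `c` is in the first edge
  have hc0 : c = u σ0 ∨ c = v σ0 := by
    rcases hmeet σx σ0 with h | h | h | h
    · exact (hx.1 (hσx.symm.trans h)).elim
    · exact (hx.2 (hσx.symm.trans h)).elim
    · exact Or.inl (hc.trans h)
    · exact Or.inr (hc.trans h)
  obtain ⟨b, hb, hbc, hedge⟩ : ∃ b, (b = u σ0 ∨ b = v σ0) ∧ b ≠ c ∧
      ∀ p, p = u σ0 ∨ p = v σ0 → p = c ∨ p = b := by
    rcases hc0 with h | h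
    · refine ⟨v σ0, Or.inr rfl, ?_, fun p hp => ?_⟩
      · rw [h]
        exact (hne σ0).symm
      · rcases hp with hp | hp
        · exact Or.inl (hp.trans h.symm)
        · exact Or.inr hp
    · refine ⟨u σ0, Or.inl rfl, ?_, fun p hp => ?_⟩
      · rw [h]
        exact hne σ0
      · rcases hp with hp | hp
        · exact Or.inr hp
        · exact Or.inl (hp.trans h.symm)
  have hxb : x ≠ b := by
    rintro rfl
    rcases hb with h | h
    · exact hx.1 h
    · exact hx.2 h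
  obtain ⟨w, hw⟩ := hout {c, b, x} Finset.card_le_three
  simp only [Finset.mem_insert, Finset.mem_singleton, not_or] at hw
  obtain ⟨τ, t, ht, htc, hτ⟩ := hact c w
  -- the points of the images of the two edges
  have key : ∀ (ρ : G) (p : X), (u ρ = w ∧ v ρ = p ∨ u ρ = p ∧ v ρ = w) → p = c := by
    intro ρ p hp
    have h1 : p = u σ0 ∨ p = v σ0 := by
      have hw0 : w ≠ u σ0 ∧ w ≠ v σ0 := by
        constructor
        · intro h
          rcases hedge w (Or.inl h) with h2 | h2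
          · exact hw.1 h2
          · exact hw.2.1 h2
        · intro h
          rcases hedge w (Or.inr h) with h2 | h2
          · exact hw.1 h2
          · exact hw.2.1 h2
      rcases hp with ⟨h2, h3⟩ | ⟨h2, h3⟩ <;> rcases hmeet ρ σ0 with h | h | h | h
      · exact (hw0.1 (h2.symm.trans h)).elim
      · exact (hw0.2 (h2.symm.trans h)).elim
      · exact Or.inl (h3.symm.trans h)
      · exact Or.inr (h3.symm.trans h)
      · exact Or.inl (h2.symm.trans h)
      · exact Or.inr (h2.symm.trans h)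
      · exact (hw0.1 (h3.symm.trans h)).elim
      · exact (hw0.2 (h3.symm.trans h)).elim
    have h2 : p = x ∨ p = c := by
      rcases hp with ⟨h2, h3⟩ | ⟨h2, h3⟩ <;> rcases hmeet ρ σx with h | h | h | h
      · exact (hw.2.2 ((h2.symm.trans h).trans hσx)).elim
      · exact (hw.1 ((h2.symm.trans h).trans hc.symm)).elim
      · exact Or.inl ((h3.symm.trans h).trans hσx)
      · exact Or.inr ((h3.symm.trans h).trans hc.symm)
      · exact Or.inl ((h2.symm.trans h).trans hσx)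
      · exact Or.inr ((h2.symm.trans h).trans hc.symm)
      · exact (hw.2.2 ((h3.symm.trans h).trans hσx)).elim
      · exact (hw.1 ((h3.symm.trans h).trans hc.symm)).elim
    rcases h2 with h2 | h2
    · rcases hedge p h1 with h3 | h3
      · exact h3
      · exact (hxb (h2.symm.trans h3)).elim
    · exact h2
  have h1 : t b = c := by
    refine key (τ σ0) (t b) ?_
    rcases hc0 with h | h
    · have hb' : b = v σ0 := by
        rcases hb with h2 | h2
        · exact (hbc (h2.trans h.symm)).elim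
        · exact h2
      left
      exact ⟨by rw [(hτ σ0).1, ← h, htc], by rw [(hτ σ0).2, hb']⟩
    · have hb' : b = u σ0 := by
        rcases hb with h2 | h2
        · exact h2
        · exact (hbc (h2.trans h.symm)).elim
      right
      exact ⟨by rw [(hτ σ0).1, hb'], by rw [(hτ σ0).2, ← h, htc]⟩
  have h2 : t x = c := by
    refine key (τ σx) (t x) (Or.inr ⟨by rw [(hτ σx).1, hσx], by rw [(hτ σx).2, ← hc, htc]⟩)
  exact hxb (ht (h2.trans h1.symm))

section emb

variable (K : IntermediateField ℚ ℂ) [FiniteDimensional ℚ K]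

/-- The embedding of the number field given by an automorphism of the complex numbers. -/
noncomputable def em (σ : ℂ ≃+* ℂ) : K →ₐ[ℚ] ℂ := ((σ : ℂ →+* ℂ).toRatAlgHom).comp K.val

theorem em_apply (σ : ℂ ≃+* ℂ) (x : K) : em K σ x = σ x := rfl

theorem em_cs (σ : ℂ ≃+* ℂ) (x : K) : em K (cs σ) x = σ (starRingEnd ℂ x) := rfl

theorem em_act (x y : K →ₐ[ℚ] ℂ) : ∃ τ : ℂ ≃+* ℂ, ((τ : ℂ →+* ℂ).toRatAlgHom).comp x = y := by
  have hK : NumberField K := NumberField.mk
  obtain ⟨τ, hτ⟩ := Pool.Agent.Y4.exists_aut_emb (E := K) (x : K →+* ℂ) (y : K →+* ℂ)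
  refine ⟨τ, ?_⟩
  ext z
  exact congrArg (fun f : K →+* ℂ => f z) hτ

theorem em_surj (x : K →ₐ[ℚ] ℂ) : ∃ σ, em K σ = x := em_act K K.val x

theorem em_trans (σ τ : ℂ ≃+* ℂ) : em K (σ.trans τ) =
    ((τ : ℂ →+* ℂ).toRatAlgHom).comp (em K σ) := rfl

theorem cs_trans (σ τ : ℂ ≃+* ℂ) : cs (σ.trans τ) = (cs σ).trans τ := rfl

theorem em_ne (hK : ∃ x ∈ K, starRingEnd ℂ x ≠ x) (σ : ℂ ≃+* ℂ) : em K σ ≠ em K (cs σ) := by
  intro h
  obtain ⟨x, hx, hne⟩ := hK
  have h1 := congrArg (fun f : K →ₐ[ℚ] ℂ => f ⟨x, hx⟩) h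
  exact hne (σ.injective h1).symm

/-- Two disjoint pairs of embeddings and a fifth one. -/
theorem exists_three (h5 : 5 ≤ finrank ℚ K) (hK : ∃ x ∈ K, starRingEnd ℂ x ≠ x) :
    ∃ σ₁ σ₂ σ₃ : ℂ ≃+* ℂ, em K σ₁ ≠ em K σ₂ ∧ em K σ₁ ≠ em K (cs σ₂) ∧
      em K (cs σ₁) ≠ em K σ₂ ∧ em K (cs σ₁) ≠ em K (cs σ₂) ∧ em K σ₃ ≠ em K σ₁ ∧
      em K σ₃ ≠ em K (cs σ₁) ∧ em K σ₃ ≠ em K σ₂ ∧ em K σ₃ ≠ em K (cs σ₂) := by
  classical
  have hcard : Fintype.card (K →ₐ[ℚ] ℂ) = finrank ℚ K := AlgHom.card ℚ K ℂ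
  obtain ⟨σ₁, σ₂, h1, h2, h3, h4⟩ := exists_disjoint (em K) (fun σ => em K (cs σ)) (em_ne K hK)
    (em_surj K) (fun x x' => by
      obtain ⟨τ, hτ⟩ := em_act K x x'
      refine ⟨fun σ => σ.trans τ, fun y => ((τ : ℂ →+* ℂ).toRatAlgHom).comp y, ?_, hτ,
        fun σ => ⟨rfl, rfl⟩⟩
      intro y y' hy
      ext z
      exact τ.injective (congrArg (fun f : K →ₐ[ℚ] ℂ => f z) hy)) (by rw [hcard]; omega)
  obtain ⟨z, hz⟩ : ∃ z, z ∉ ({em K σ₁, em K (cs σ₁), em K σ₂, em K (cs σ₂)} : Finset _) := by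
    by_contra hx
    push Not at hx
    have h6 := Finset.card_le_four (a := em K σ₁) (b := em K (cs σ₁)) (c := em K σ₂)
      (d := em K (cs σ₂))
    rw [Finset.eq_univ_iff_forall.2 hx, Finset.card_univ, hcard] at h6
    omega
  obtain ⟨σ₃, rfl⟩ := em_surj K z
  simp only [Finset.mem_insert, Finset.mem_singleton, not_or] at hz
  exact ⟨σ₁, σ₂, σ₃, h1, h2, h3, h4, hz⟩

end emb

end Pool.Agent.Q34.SD
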