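import Mathlib
import Pool.Agent.Q34.SD.G5

/-!
# Period matrices over a number field: the symplectic Lie algebra
-/

set_option linter.unusedSectionVars false

namespace Pool.Agent.Q34.SD

open Matrix Module Pool.Agent.H204R3.CM Pool.Agent.H194R3.CM Pool.Agent.W437.HC
  Pool.Agent.W437.HD Pool.Agent.W437.HP Pool.Agent.W437.HR Pool.Agent.W437.HQ
  Pool.Agent.W548.Odd

theorem Br.lift {ι : Type*} [Fintype ι] [DecidableEq ι] {R R' : Type*} [CommRing R]
    [CommRing R'] (f : R →+* R') {S : Set (Matrix ι ι R)} {Y : Matrix ι ι R'}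
    (h : Br ((fun Y => Y.map f) '' S) Y) : ∃ X, Br S X ∧ X.map f = Y := by
  induction h with
  | gen h =>
    obtain ⟨X, hX, rfl⟩ := h
    exact ⟨X, Br.gen hX, rfl⟩
  | br _ _ h1 h2 =>
    obtain ⟨X, hX, rfl⟩ := h1
    obtain ⟨Y, hY, rfl⟩ := h2
    exact ⟨X * Y - Y * X, Br.br hX hY, by
      rw [Matrix.map_sub _ (map_sub f), Matrix.map_mul, Matrix.map_mul]⟩

section coord

variable (K : IntermediateField ℚ ℂ) [FiniteDimensional ℚ K] {n : ℕ} (θ : Basis (Fin n) ℚ K)
  (g : ℕ)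

/-- The symmetric matrix with the given coordinates. -/
noncomputable def Zt (t : Sym2 (Fin g) × Fin n → ℚ) : Matrix (Fin g) (Fin g) ℂ :=
  Matrix.of fun a b => ∑ j, (t (s(a, b), j) : ℂ) * (θ j : ℂ)

/-- The conjugate of the generic symmetric matrix. -/
noncomputable def Mg (x : K →ₐ[ℚ] ℂ) :
    Matrix (Fin g) (Fin g) (MvPolynomial (Sym2 (Fin g) × Fin n) ℂ) :=
  Matrix.of fun a b => ∑ j, MvPolynomial.X (s(a, b), j) * MvPolynomial.C (x (θ j))

theorem Zt_symm (t : Sym2 (Fin g) × Fin n → ℚ) : (Zt K θ g t)ᵀ = Zt K θ g t := by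
  ext a b
  simp only [Zt, transpose_apply, of_apply, Sym2.eq_swap]

theorem Mg_eval (x : K →ₐ[ℚ] ℂ) (t : Sym2 (Fin g) × Fin n → ℂ) :
    (Mg K θ g x).map (MvPolynomial.eval t) =
      Matrix.of fun a b => ∑ j, t (s(a, b), j) * x (θ j) := by
  ext a b
  simp only [Mg, map_apply, of_apply, map_sum, map_mul, MvPolynomial.eval_X,
    MvPolynomial.eval_C]

theorem Mg_em (σ : ℂ ≃+* ℂ) (t : Sym2 (Fin g) × Fin n → ℚ) :
    (Mg K θ g (em K σ)).map (MvPolynomial.eval fun i => (t i : ℂ)) = (Zt K θ g t).map σ := by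
  rw [Mg_eval]
  ext a b
  simp only [Zt, map_apply, of_apply, map_sum, map_mul, map_ratCast, em_apply]

theorem Mg_em_cs (σ : ℂ ≃+* ℂ) (t : Sym2 (Fin g) × Fin n → ℚ) :
    (Mg K θ g (em K (cs σ))).map (MvPolynomial.eval fun i => (t i : ℂ)) =
      ((Zt K θ g t).map (starRingEnd ℂ)).map σ := by
  rw [Mg_eval]
  ext a b
  simp only [Zt, map_apply, of_apply, map_sum, map_mul, map_ratCast, em_cs]

/-- All tuples of symmetric matrices are values of the generic tuple. -/
theorem exists_eval (m : (K →ₐ[ℚ] ℂ) → Matrix (Fin g) (Fin g) ℂ) (hm : ∀ x, (m x)ᵀ = m x) :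
    ∃ t : Sym2 (Fin g) × Fin n → ℂ, ∀ x, (Mg K θ g x).map (MvPolynomial.eval t) = m x := by
  have hcard : Fintype.card (K →ₐ[ℚ] ℂ) = n := by
    rw [AlgHom.card ℚ K ℂ, Module.finrank_eq_card_basis θ, Fintype.card_fin]
  obtain ⟨e⟩ : Nonempty (Fin n ≃ (K →ₐ[ℚ] ℂ)) := by
    rw [← Fintype.card_eq, Fintype.card_fin, hcard]
  have hdet : (Algebra.embeddingsMatrixReindex ℚ ℂ θ e).det ≠ 0 := by
    intro h
    have h1 := Algebra.discr_eq_det_embeddingsMatrixReindex_pow_two ℚ ℂ θ e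
    rw [h, zero_pow two_ne_zero] at h1
    exact Algebra.discr_not_zero_of_basis ℚ θ ((map_eq_zero _).1 h1)
  have hu : IsUnit (Algebra.embeddingsMatrixReindex ℚ ℂ θ e).det := isUnit_iff_ne_zero.2 hdet
  have hw : ∀ w : (K →ₐ[ℚ] ℂ) → ℂ, ∃ c : Fin n → ℂ, ∀ x, ∑ j, c j * x (θ j) = w x := by
    intro w
    refine ⟨(w ∘ e) ᵥ* (Algebra.embeddingsMatrixReindex ℚ ℂ θ e)⁻¹, fun x => ?_⟩
    have h1 : ((w ∘ e) ᵥ* (Algebra.embeddingsMatrixReindex ℚ ℂ θ e)⁻¹) ᵥ*
        (Algebra.embeddingsMatrixReindex ℚ ℂ θ e) = w ∘ e := by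
      rw [vecMul_vecMul, nonsing_inv_mul _ hu, vecMul_one]
    have h2 := congrFun h1 (e.symm x)
    rw [Function.comp_apply, Equiv.apply_symm_apply] at h2
    rw [← h2]
    simp only [vecMul, dotProduct]
    refine Finset.sum_congr rfl fun j _ => ?_
    congr 1
    simp [Algebra.embeddingsMatrixReindex, Algebra.embeddingsMatrix]
  choose c hc using fun s : Sym2 (Fin g) => hw fun x => Sym2.lift ⟨fun a b => m x a b,
    fun a b => (congrFun (congrFun (hm x) b) a)⟩ s
  refine ⟨fun p => c p.1 p.2, fun x => ?_⟩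
  rw [Mg_eval]
  ext a b
  rw [of_apply]
  exact hc s(a, b) x

/-- The Lie algebra of the symplectic matrices. -/
def spC : Submodule ℂ (MM g) where
  carrier := {X | Xᵀ * fromBlocks 0 1 (-1) 0 + fromBlocks 0 1 (-1) 0 * X = 0}
  zero_mem' := by
    change (0 : MM g)ᵀ * _ + _ * (0 : MM g) = 0
    rw [transpose_zero, Matrix.zero_mul, Matrix.mul_zero, add_zero]
  add_mem' := by
    intro a b ha hb
    change (a + b)ᵀ * _ + _ * (a + b) = 0
    rw [transpose_add, Matrix.add_mul, Matrix.mul_add, add_add_add_comm, ha, hb, add_zero]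
  smul_mem' := by
    intro c a ha
    change (c • a)ᵀ * _ + _ * (c • a) = 0
    rw [transpose_smul, Matrix.smul_mul, Matrix.mul_smul, ← smul_add, ha, smul_zero]

theorem LG_le_spC {Z : Matrix (Fin g) (Fin g) ℂ} (hZ : Zᵀ = Z) (hpos : (imM Z).PosDef) :
    LG Z ≤ spC g := fun _ hX => sp_LA (perSet hZ hpos) hX

/-- **The Lie algebra is symplectic outside of a hypersurface.** -/
theorem exists_poly {σ₁ σ₂ σ₃ : ℂ ≃+* ℂ} {t₀ : Sym2 (Fin g) × Fin n → ℂ} {s q : ℝ} (hs : 1 < s)
    {y : Fin g → ℝ} (hy : ∀ i, y i < q)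
    (h1 : (Mg K θ g (em K σ₁)).map (MvPolynomial.eval t₀) = 1)
    (h1' : (Mg K θ g (em K (cs σ₁))).map (MvPolynomial.eval t₀) = -1)
    (h2 : (Mg K θ g (em K σ₂)).map (MvPolynomial.eval t₀) = TT g s)
    (h2' : (Mg K θ g (em K (cs σ₂))).map (MvPolynomial.eval t₀) = -TT g s)
    (h3 : (Mg K θ g (em K σ₃)).map (MvPolynomial.eval t₀) = QQ g q)
    (h3' : (Mg K θ g (em K (cs σ₃))).map (MvPolynomial.eval t₀) = diagonal fun i => (y i : ℂ)) :
    ∃ P : MvPolynomial (Sym2 (Fin g) × Fin n) ℂ, P ≠ 0 ∧ ∀ t : Sym2 (Fin g) × Fin n → ℚ,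
      MvPolynomial.eval (fun i => (t i : ℂ)) P ≠ 0 → (imM (Zt K θ g t)).PosDef →
      LG (Zt K θ g t) = spC g := by
  classical
  obtain ⟨S, hS⟩ : ∃ S : Set (Matrix (Fin g ⊕ Fin g) (Fin g ⊕ Fin g)
      (MvPolynomial (Sym2 (Fin g) × Fin n) ℂ)), S = {X | ∃ σ ∈ ({σ₁, σ₂, σ₃} : Set (ℂ ≃+* ℂ)),
      X = dt (Mg K θ g (em K σ)) (Mg K θ g (em K (cs σ)))} := ⟨_, rfl⟩
  obtain ⟨S0, hS0⟩ : ∃ S0, S0 = (fun Y => Y.map (MvPolynomial.eval t₀)) '' S := ⟨_, rfl⟩
  have hsub : ∀ σ ∈ ({σ₁, σ₂, σ₃} : Set (ℂ ≃+* ℂ)),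
      dt ((Mg K θ g (em K σ)).map (MvPolynomial.eval t₀))
        ((Mg K θ g (em K (cs σ))).map (MvPolynomial.eval t₀)) ∈
        Submodule.span ℂ {X | Br S0 X} := by
    intro σ hσ
    refine Submodule.subset_span (Br.gen ?_)
    rw [hS0]
    refine ⟨_, ?_, dt_map (MvPolynomial.eval t₀) _ _⟩
    rw [hS]
    exact ⟨σ, hσ, rfl⟩
  have hsp : spC g ≤ Submodule.span ℂ {X | Br S0 X} := by
    intro X hX
    refine sp_of_tuple (span_br S0) hs hy ?_ ?_ ?_ hX
    · have h := hsub σ₁ (by simp)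
      rwa [h1, h1'] at h
    · have h := hsub σ₂ (by simp)
      rwa [h2, h2'] at h
    · have h := hsub σ₃ (by simp)
      rwa [h3, h3'] at h
  obtain ⟨b, hbs, hbsp, hbi⟩ := exists_linearIndependent ℂ {X | Br S0 X}
  have hfin : Fintype b := by
    have : Finite b := hbi.finite
    exact Fintype.ofFinite _
  have hβ : ∀ y : b, ∃ X, Br S X ∧ X.map (MvPolynomial.eval t₀) = (y : MM g) := by
    intro y
    have h := hbs y.2
    rw [Set.mem_ofPred_eq, hS0] at h
    exact Br.lift _ h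
  choose β hβ1 hβ2 using hβ
  -- a left inverse
  obtain ⟨G, hG⟩ : ∃ G : MM g →ₗ[ℂ] (b → ℂ), ∀ y : b, G (y : MM g) = Pi.single y 1 := by
    have hinj : LinearMap.ker (Fintype.linearCombination ℂ (fun y : b => (y : MM g))) = ⊥ := by
      rw [LinearMap.ker_eq_bot']
      intro r hr
      rw [Fintype.linearCombination_apply] at hr
      exact funext (Fintype.linearIndependent_iff.1 hbi r hr)
    obtain ⟨G, hG⟩ := LinearMap.exists_leftInverse_of_injective _ hinj
    refine ⟨G, fun y => ?_⟩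
    have h := LinearMap.congr_fun hG (Pi.single y 1)
    rw [LinearMap.comp_apply, Fintype.linearCombination_apply_single, one_smul] at h
    exact h
  have hGX : ∀ (X : MM g) (i : b), G X i = ∑ u, ∑ v, X u v * G (single u v 1) i := by
    intro X i
    conv_lhs => rw [matrix_eq_sum_single X]
    rw [map_sum, Finset.sum_apply]
    refine Finset.sum_congr rfl fun u _ => ?_
    rw [map_sum, Finset.sum_apply]
    refine Finset.sum_congr rfl fun v _ => ?_
    have h : (single u v (X u v) : MM g) = X u v • single u v 1 := by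
      rw [smul_single, smul_eq_mul, mul_one]
    rw [h, map_smul, Pi.smul_apply, smul_eq_mul]
  obtain ⟨P, hP⟩ : ∃ P : MvPolynomial (Sym2 (Fin g) × Fin n) ℂ, P = (Matrix.of fun i j : b =>
      ∑ u, ∑ v, β j u v * MvPolynomial.C (G (single u v 1) i)).det := ⟨_, rfl⟩
  have heval : ∀ t : Sym2 (Fin g) × Fin n → ℂ, MvPolynomial.eval t P =
      (Matrix.of fun i j : b => G ((β j).map (MvPolynomial.eval t)) i).det := by
    intro t
    rw [hP, RingHom.map_det]
    congr 1
    ext i j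
    rw [RingHom.mapMatrix_apply, map_apply, of_apply, of_apply, hGX]
    simp only [map_sum, map_mul, MvPolynomial.eval_C, map_apply]
  refine ⟨P, ?_, fun t ht hpos => ?_⟩
  · intro h0
    have h := heval t₀
    rw [h0, map_zero] at h
    have h4 : (Matrix.of fun i j : b => G ((β j).map (MvPolynomial.eval t₀)) i) = 1 := by
      ext i j
      rw [of_apply, hβ2, hG, Matrix.one_apply, Pi.single_apply]
    rw [h4, det_one] at h
    exact zero_ne_one h
  · refine le_antisymm (LG_le_spC g (Zt_symm K θ g t) hpos) ?_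
    rw [heval] at ht
    have hmem : ∀ j : b, (β j).map (MvPolynomial.eval fun i => (t i : ℂ)) ∈ LG (Zt K θ g t) := by
      intro j
      refine Br.mem (fun A hA C hC => LA_br hA hC) ?_ ((hβ1 j).map _)
      rintro _ ⟨_, hX, rfl⟩
      rw [hS] at hX
      obtain ⟨σ, -, rfl⟩ := hX
      have h := dt_mem hpos σ
      have h4 := dt_map (MvPolynomial.eval fun i => (t i : ℂ)) (Mg K θ g (em K σ))
        (Mg K θ g (em K (cs σ)))
      rw [Mg_em, Mg_em_cs] at h4
      change (dt (Mg K θ g (em K σ)) (Mg K θ g (em K (cs σ)))).map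
        (MvPolynomial.eval fun i => (t i : ℂ)) ∈ LG (Zt K θ g t)
      rw [h4]
      exact h
    have hli : LinearIndependent ℂ fun j : b =>
        (β j).map (MvPolynomial.eval fun i => (t i : ℂ)) := by
      rw [Fintype.linearIndependent_iff]
      intro r hr
      have h4 : (Matrix.of fun i j : b => G ((β j).map (MvPolynomial.eval fun i => (t i : ℂ))) i)
          *ᵥ r = 0 := by
        funext i
        have h5 := congrFun (congrArg G hr) i
        rw [map_sum, Finset.sum_apply, map_zero, Pi.zero_apply] at h5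
        rw [Pi.zero_apply, ← h5]
        simp only [mulVec, dotProduct, of_apply, map_smul, Pi.smul_apply, smul_eq_mul]
        exact Finset.sum_congr rfl fun j _ => mul_comm _ _
      exact fun j => congrFun (eq_zero_of_mulVec_eq_zero ht h4) j
    have h5 : finrank ℂ (Submodule.span ℂ (Set.range fun j : b =>
        (β j).map (MvPolynomial.eval fun i => (t i : ℂ)))) = Fintype.card b :=
      finrank_span_eq_card hli
    have h6 : finrank ℂ (Submodule.span ℂ {X | Br S0 X}) = Fintype.card b := by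
      rw [← hbsp]
      have h := finrank_span_eq_card hbi
      rw [Subtype.range_coe] at h
      exact h
    have h7 : Submodule.span ℂ (Set.range fun j : b =>
        (β j).map (MvPolynomial.eval fun i => (t i : ℂ))) ≤ LG (Zt K θ g t) := by
      rw [Submodule.span_le]
      rintro _ ⟨j, rfl⟩
      exact hmem j
    have h8 := Submodule.finrank_mono h7
    have h9 := Submodule.finrank_mono hsp
    exact (Submodule.eq_of_le_of_finrank_le (LG_le_spC g (Zt_symm K θ g t) hpos)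
      (h9.trans (h6.le.trans (h5.ge.trans h8)))).ge

end coord

end Pool.Agent.Q34.SD
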