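import Mathlib
import Pool.Agent.Q34.SD.G6
import Pool.Agent.W548.Odd.Simp
import Pool.Agent.W437.HR.Pcs

/-!
# Abelian varieties with the full symplectic Hodge Lie algebra
-/

set_option linter.unusedSectionVars false

namespace Pool.Agent.Q34.SD

open Matrix Module Pool.Agent.H204R3.CM Pool.Agent.H194R3.CM Pool.Agent.W437.HC
  Pool.Agent.W437.HD Pool.Agent.W437.HP Pool.Agent.W437.HR Pool.Agent.W437.HQ
  Pool.Agent.W548.Odd

variable {g : ℕ} {Z : Matrix (Fin g) (Fin g) ℂ}

theorem mem_spC {X : MM g} : X ∈ spC g ↔ Xᵀ * Om g ℂ + Om g ℂ * X = 0 := Iff.rfl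

theorem spC_up {b : Matrix (Fin g) (Fin g) ℂ} (hb : bᵀ = b) : up b ∈ spC g := by
  change (up b)ᵀ * fromBlocks 0 1 (-1) 0 + fromBlocks 0 1 (-1) 0 * up b = 0
  unfold up
  rw [fromBlocks_transpose, fromBlocks_multiply, fromBlocks_multiply, fromBlocks_add, hb]
  simp

theorem spC_gg (a : Matrix (Fin g) (Fin g) ℂ) : gg a ∈ spC g := by
  change (gg a)ᵀ * fromBlocks 0 1 (-1) 0 + fromBlocks 0 1 (-1) 0 * gg a = 0
  unfold gg
  rw [fromBlocks_transpose, fromBlocks_multiply, fromBlocks_multiply, fromBlocks_add]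
  simp

/-- The matrices which commute with the symplectic Lie algebra are scalar. -/
theorem scalar_of_comm {X : MM g} (hX : ∀ Y ∈ spC g, X * Y = Y * X) : ∃ c : ℂ, X = c • 1 := by
  have hdiag : ∀ u v, u ≠ v → X u v = 0 := by
    intro u v huv
    have key : ∀ i : Fin g, X u v * Sum.elim (Pi.single i (1 : ℂ)) (-Pi.single i (1 : ℂ)) v =
        Sum.elim (Pi.single i (1 : ℂ)) (-Pi.single i (1 : ℂ)) u * X u v := by
      intro i
      have h := congrFun (congrFun (hX _ (spC_gg (single i i 1))) u) v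
      rw [gg_single_self, Matrix.mul_diagonal, Matrix.diagonal_mul] at h
      exact h
    rcases u with u | u <;> rcases v with v | v
    · have h := key u
      rw [Sum.elim_inl, Sum.elim_inl, Pi.single_eq_same,
        Pi.single_eq_of_ne (fun h => huv (by rw [h])), mul_zero, one_mul] at h
      exact h.symm
    · have h := key u
      rw [Sum.elim_inl, Sum.elim_inr, Pi.single_eq_same, Pi.neg_apply, one_mul,
        Pi.single_apply] at h
      split_ifs at h with h1
      · have h2 : (2 : ℂ) * X (Sum.inl u) (Sum.inr v) = 0 := by linear_combination -h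
        exact (mul_eq_zero.1 h2).resolve_left two_ne_zero
      · rw [neg_zero, mul_zero] at h
        exact h.symm
    · have h := key u
      rw [Sum.elim_inl, Sum.elim_inr, Pi.neg_apply, Pi.single_eq_same, Pi.single_apply] at h
      split_ifs at h with h1
      · have h2 : (2 : ℂ) * X (Sum.inr u) (Sum.inl v) = 0 := by linear_combination h
        exact (mul_eq_zero.1 h2).resolve_left two_ne_zero
      · have h2 : X (Sum.inr u) (Sum.inl v) = 0 := by linear_combination h
        exact h2
    · have h := key u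
      rw [Sum.elim_inr, Sum.elim_inr, Pi.neg_apply, Pi.neg_apply, Pi.single_eq_same,
        Pi.single_eq_of_ne (fun h => huv (by rw [h])), neg_zero, mul_zero] at h
      have h2 : X (Sum.inr u) (Sum.inr v) = 0 := by linear_combination h
      exact h2
  have hent : ∀ i j : Fin g, X (Sum.inl i) (Sum.inl i) = X (Sum.inr j) (Sum.inr j) := by
    intro i j
    have hs : (single i j (1 : ℂ) + single j i 1)ᵀ = single i j (1 : ℂ) + single j i 1 := by
      rw [transpose_add, transpose_single, transpose_single, add_comm]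
    have h := congrFun (congrFun (hX _ (spC_up hs)) (Sum.inl i)) (Sum.inr j)
    rw [Matrix.mul_apply, Matrix.mul_apply, Finset.sum_eq_single (Sum.inl i),
      Finset.sum_eq_single (Sum.inr j)] at h
    · have h1 : up (single i j (1 : ℂ) + single j i 1) (Sum.inl i) (Sum.inr j) ≠ 0 := by
        unfold up
        rw [fromBlocks_apply₁₂, Matrix.add_apply, single_apply_same, single_apply]
        split_ifs
        · norm_num
        · norm_num
      rw [mul_comm] at h
      exact mul_left_cancel₀ h1 h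
    · intro b _ hb
      rw [hdiag b _ hb, mul_zero]
    · intro h2
      exact (h2 (Finset.mem_univ _)).elim
    · intro b _ hb
      rw [hdiag _ b (Ne.symm hb), zero_mul]
    · intro h2
      exact (h2 (Finset.mem_univ _)).elim
  rcases Nat.eq_zero_or_pos g with hg | hg
  · subst hg
    exact ⟨0, by ext u; rcases u with u | u <;> exact u.elim0⟩
  · refine ⟨X (Sum.inl ⟨0, hg⟩) (Sum.inl ⟨0, hg⟩), ?_⟩
    ext u v
    rw [Matrix.smul_apply, smul_eq_mul]
    by_cases h : u = v
    · subst h
      rw [Matrix.one_apply_eq, mul_one]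
      rcases u with u | u
      · rw [hent u ⟨0, hg⟩, hent ⟨0, hg⟩ ⟨0, hg⟩]
      · rw [hent ⟨0, hg⟩ u]
    · rw [hdiag u v h, Matrix.one_apply_ne h, mul_zero]

section full

variable (hZ : Zᵀ = Z) (hpos : (imM Z).PosDef) (hsp : LG Z = spC g)
include hZ hpos hsp

/-- Rational matrices which commute with the Hodge operator are scalar. -/
theorem rat_scalar {ψ : Matrix (Fin g ⊕ Fin g) (Fin g ⊕ Fin g) ℚ}
    (h : qm ψ * DZ Z = DZ Z * qm ψ) : ∃ c : ℚ, ψ = c • 1 := by
  obtain ⟨c, hc⟩ := scalar_of_comm (X := qm ψ) fun Y hY =>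
    comm_lie hZ h (LG_le Z (by rw [hsp]; exact hY))
  rcases Nat.eq_zero_or_pos g with hg | hg
  · subst hg
    exact ⟨0, by ext u; rcases u with u | u <;> exact u.elim0⟩
  · have hent : ∀ u v, ((ψ u v : ℚ) : ℂ) = (c • (1 : MM g)) u v := fun u v =>
      congrFun (congrFun hc u) v
    have h0 : ((ψ (Sum.inl ⟨0, hg⟩) (Sum.inl ⟨0, hg⟩) : ℚ) : ℂ) = c := by
      rw [hent, Matrix.smul_apply, Matrix.one_apply_eq, smul_eq_mul, mul_one]
    refine ⟨ψ (Sum.inl ⟨0, hg⟩) (Sum.inl ⟨0, hg⟩), ?_⟩
    ext u v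
    have h1 := hent u v
    rw [← h0, Matrix.smul_apply, smul_eq_mul] at h1
    rw [Matrix.smul_apply, smul_eq_mul]
    by_cases h2 : u = v
    · subst h2
      rw [Matrix.one_apply_eq] at h1 ⊢
      exact_mod_cast h1
    · rw [Matrix.one_apply_ne h2] at h1 ⊢
      exact_mod_cast h1

theorem simple_of_sp : IsSimpleAV Z := by
  intro W hW
  have hY : IsUnit (imM Z).det := hpos.isUnit.map Matrix.detMonoidHom
  rw [stable_iff hY] at hW
  obtain ⟨M, hM1, hM2, hM3⟩ := exists_projector hZ hpos W hW
  obtain ⟨c, rfl⟩ := rat_scalar hZ hpos hsp hM3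
  by_cases hc : c = 0
  · left
    rw [Submodule.eq_bot_iff]
    intro x hx
    have h := hM2 x hx
    rw [hc, zero_smul, zero_mulVec] at h
    exact h.symm
  · right
    rw [Submodule.eq_top_iff']
    intro x
    have h := W.smul_mem c⁻¹ (hM1 x)
    rwa [smul_mulVec, one_mulVec, smul_smul, inv_mul_cancel₀ hc, one_smul] at h

theorem hasPcs_of_sp : HasPcs (DZ Z) := by
  refine hasPcs_of_top (Om_transpose ℂ) (Om_unit ℂ) (sp_C hZ) ?_
  have hSS : ∀ v : VV g, SS (Om g ℂ) v v ∈ lieM (DZ Z) ℂ := by
    intro v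
    refine LG_le Z ?_
    rw [hsp, mem_spC]
    unfold SS
    rw [transpose_mul, transpose_add, Om_transpose]
    have h : (vecMulVec v v)ᵀ = vecMulVec v v := by
      ext i j
      simp [vecMulVec_apply, mul_comm]
    rw [h]
    noncomm_ring
  rw [eq_top_iff]
  intro x _
  by_cases hx : x = 0
  · rw [hx]
    exact Submodule.zero_mem _
  · have hgood : Good (DZ Z) (Om g ℂ) x := by
      refine ⟨hSS x, ?_⟩
      by_contra hcon
      push Not at hcon
      apply hx
      have h1 : ∀ w : VV g, x ⬝ᵥ (Om g ℂ *ᵥ w) = 0 := fun w => hcon w (hSS w)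
      have h2 : x ᵥ* Om g ℂ = 0 := by
        funext i
        have h3 := h1 (Pi.single i 1)
        rw [dotProduct_mulVec, dotProduct_single_one] at h3
        exact h3
      have h3 := congrArg (fun y => y ᵥ* Om g ℂ) h2
      simp only [vecMul_vecMul, Om_sq, zero_vecMul] at h3
      rw [vecMul_neg, vecMul_one, neg_eq_zero] at h3
      exact h3
    exact Submodule.mem_iSup_of_mem ⟨x, hgood⟩ (hSS x)

end full

end Pool.Agent.Q34.SD
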