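import Mathlib
import Pool.Agent.Q34.SD.G7

/-!
# The generic period matrix over a number field of degree at least five
-/

set_option linter.unusedSectionVars false

namespace Pool.Agent.Q34.SD

open Matrix Module Pool.Agent.H204R3.CM Pool.Agent.H194R3.CM Pool.Agent.W437.HC
  Pool.Agent.W437.HD Pool.Agent.W437.HP Pool.Agent.W437.HR Pool.Agent.W437.HQ
  Pool.Agent.W548.Odd

variable (K : IntermediateField ℚ ℂ) [FiniteDimensional ℚ K] {n : ℕ} (θ : Basis (Fin n) ℚ K)
  (g : ℕ)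

/-- The special tuple is a value of the generic tuple. -/
theorem exists_special (hK : ∃ x ∈ K, starRingEnd ℂ x ≠ x) {σ₁ σ₂ σ₃ : ℂ ≃+* ℂ}
    (h12 : em K σ₁ ≠ em K σ₂) (h12' : em K σ₁ ≠ em K (cs σ₂)) (h1'2 : em K (cs σ₁) ≠ em K σ₂)
    (h1'2' : em K (cs σ₁) ≠ em K (cs σ₂)) (h31 : em K σ₃ ≠ em K σ₁)
    (h31' : em K σ₃ ≠ em K (cs σ₁)) (h32 : em K σ₃ ≠ em K σ₂) (h32' : em K σ₃ ≠ em K (cs σ₂))
    {s : ℝ} (hs : 1 < s) : ∃ (t₀ : Sym2 (Fin g) × Fin n → ℂ) (q : ℝ) (y : Fin g → ℝ),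
      (∀ i, y i < q) ∧ (Mg K θ g (em K σ₁)).map (MvPolynomial.eval t₀) = 1 ∧
      (Mg K θ g (em K (cs σ₁))).map (MvPolynomial.eval t₀) = -1 ∧
      (Mg K θ g (em K σ₂)).map (MvPolynomial.eval t₀) = TT g s ∧
      (Mg K θ g (em K (cs σ₂))).map (MvPolynomial.eval t₀) = -TT g s ∧
      (Mg K θ g (em K σ₃)).map (MvPolynomial.eval t₀) = QQ g q ∧
      (Mg K θ g (em K (cs σ₃))).map (MvPolynomial.eval t₀) = diagonal fun i => (y i : ℂ) := by
  classical
  obtain ⟨q, hq⟩ : ∃ q : ℝ, q = s + g + 1 := ⟨_, rfl⟩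
  have hg0 : (0 : ℝ) ≤ (g : ℝ) := Nat.cast_nonneg _
  obtain ⟨m, hm⟩ : ∃ m : (K →ₐ[ℚ] ℂ) → Matrix (Fin g) (Fin g) ℂ, m = fun x =>
      if x = em K σ₁ then 1 else if x = em K (cs σ₁) then -1 else
      if x = em K σ₂ then TT g s else if x = em K (cs σ₂) then -TT g s else
      if x = em K σ₃ then QQ g q else 0 := ⟨_, rfl⟩
  have hTs : (TT g s)ᵀ = TT g s := diagonal_transpose _
  have hms : ∀ x, (m x)ᵀ = m x := by
    intro x
    rw [hm]
    dsimp only
    split_ifs
    · exact transpose_one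
    · rw [transpose_neg, transpose_one]
    · exact hTs
    · rw [transpose_neg, hTs]
    · unfold QQ
      rw [transpose_add, diagonal_transpose]
      rfl
    · exact transpose_zero
  obtain ⟨t₀, ht₀⟩ := exists_eval K θ g m hms
  have e1 := em_ne K hK σ₁
  have e2 := em_ne K hK σ₂
  have e3 := em_ne K hK σ₃
  have hy : ∃ y : Fin g → ℝ, (∀ i, y i < q) ∧ m (em K (cs σ₃)) = diagonal fun i => (y i : ℂ) := by
    rw [hm]
    dsimp only
    split_ifs with a1 a2 a3 a4 a5
    · refine ⟨fun _ => 1, fun i => by rw [hq]; linarith, ?_⟩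
      simp
    · refine ⟨fun _ => -1, fun i => by rw [hq]; linarith, ?_⟩
      rw [← diagonal_one, diagonal_neg]
      congr 1
      funext i
      simp
    · refine ⟨fun i => tv s i, fun i => ?_, rfl⟩
      have h : ((i : ℕ) : ℝ) < (g : ℝ) := by exact_mod_cast i.2
      rw [hq]
      unfold tv
      linarith
    · refine ⟨fun i => -tv s i, fun i => ?_, ?_⟩
      · have h := tv_gt hs i
        rw [hq]
        linarith
      · unfold TT
        rw [diagonal_neg]
        congr 1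
        funext i
        simp
    · exact (e3 a5.symm).elim
    · refine ⟨fun _ => 0, fun i => by rw [hq]; linarith, ?_⟩
      simp
  obtain ⟨y, hy1, hy2⟩ := hy
  refine ⟨t₀, q, y, hy1, ?_, ?_, ?_, ?_, ?_, ?_⟩
  · rw [ht₀, hm]
    dsimp only
    rw [if_pos rfl]
  · rw [ht₀, hm]
    dsimp only
    rw [if_neg e1.symm, if_pos rfl]
  · rw [ht₀, hm]
    dsimp only
    rw [if_neg h12.symm, if_neg h1'2.symm, if_pos rfl]
  · rw [ht₀, hm]
    dsimp only
    rw [if_neg h12'.symm, if_neg h1'2'.symm, if_neg e2.symm, if_pos rfl]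
  · rw [ht₀, hm]
    dsimp only
    rw [if_neg h31, if_neg h31', if_neg h32, if_neg h32', if_pos rfl]
  · rw [ht₀, hy2]

/-- If the number field is real then there are no period matrices. -/
theorem not_posDef (hg : 0 < g) (hK : ¬ ∃ x ∈ K, starRingEnd ℂ x ≠ x)
    (t : Sym2 (Fin g) × Fin n → ℚ) : ¬ (imM (Zt K θ g t)).PosDef := by
  intro h
  push Not at hK
  have h1 : imM (Zt K θ g t) = 0 := by
    ext a b
    have h2 : starRingEnd ℂ (Zt K θ g t a b) = Zt K θ g t a b := by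
      unfold Zt
      rw [of_apply, map_sum]
      refine Finset.sum_congr rfl fun j _ => ?_
      rw [map_mul, hK _ (θ j).2, map_ratCast]
    exact Complex.conj_eq_iff_im.1 h2
  rw [h1] at h
  have h2 := h.diag_pos (i := ⟨0, hg⟩)
  exact lt_irrefl _ h2

/-- **The generic period matrix over a number field of degree at least five has the full
symplectic Lie algebra.** -/
theorem generic (h5 : 5 ≤ finrank ℚ K) :
    ∃ P : MvPolynomial (Sym2 (Fin g) × Fin n) ℂ, P ≠ 0 ∧ ∀ t : Sym2 (Fin g) × Fin n → ℚ,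
      MvPolynomial.eval (fun i => (t i : ℂ)) P ≠ 0 → (imM (Zt K θ g t)).PosDef →
      LG (Zt K θ g t) = spC g := by
  by_cases hK : ∃ x ∈ K, starRingEnd ℂ x ≠ x
  · obtain ⟨σ₁, σ₂, σ₃, h12, h12', h1'2, h1'2', h31, h31', h32, h32'⟩ := exists_three K h5 hK
    obtain ⟨t₀, q, y, hy, e1, e1', e2, e2', e3, e3'⟩ := exists_special K θ g hK h12 h12' h1'2
      h1'2' h31 h31' h32 h32' (s := 2) (by norm_num)
    exact exists_poly K θ g (by norm_num) hy e1 e1' e2 e2' e3 e3'
  · refine ⟨1, one_ne_zero, fun t _ hpos => ?_⟩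
    rcases Nat.eq_zero_or_pos g with hg | hg
    · subst hg
      have : Subsingleton (MM 0) := ⟨fun A B => by
        ext u
        rcases u with u | u <;> exact u.elim0⟩
      exact Subsingleton.elim _ _
    · exact (not_posDef K θ g hg hK t hpos).elim

end Pool.Agent.Q34.SD
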