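import Mathlib
import Pool.Agent.Q34.SD.G8
import Pool.Agent.W437.HQ.Endo

/-!
# Hodge generic abelian varieties
-/

set_option linter.unusedSectionVars false

namespace Pool.Agent.Q34.SD

open Matrix Module Pool.Agent.H204R3.CM Pool.Agent.H194R3.CM Pool.Agent.W437.HC
  Pool.Agent.W437.HD Pool.Agent.W437.HP Pool.Agent.W437.HR Pool.Agent.W437.HQ
  Pool.Agent.W548.Odd

variable {g : ℕ} {Z : Matrix (Fin g) (Fin g) ℂ}

theorem hasPcs_of_lieM (hZ : Zᵀ = Z) (hsp : ∀ X : MM g, Xᵀ * Om g ℂ + Om g ℂ * X = 0 →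
    X ∈ lieM (DZ Z) ℂ) : HasPcs (DZ Z) := by
  refine hasPcs_of_top (Om_transpose ℂ) (Om_unit ℂ) (sp_C hZ) ?_
  have hSS : ∀ v : VV g, SS (Om g ℂ) v v ∈ lieM (DZ Z) ℂ := by
    intro v
    refine hsp _ ?_
    unfold SS
    rw [transpose_mul, transpose_add, Om_transpose]
    have h : (vecMulVec v v)ᵀ = vecMulVec v v := by
      ext i j
      simp [vecMulVec_apply, mul_comm]
    rw [h]
    noncomm_ring
  rw [eq_top_iff]
  intro x _
  by_cases hx : x = 0
  · rw [hx]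
    exact Submodule.zero_mem _
  · have hgood : Good (DZ Z) (Om g ℂ) x := by
      refine ⟨hSS x, ?_⟩
      by_contra hcon
      push Not at hcon
      apply hx
      have h1 : ∀ w : VV g, x ⬝ᵥ (Om g ℂ *ᵥ w) = 0 := fun w => hcon w (hSS w)
      have h2 : x ᵥ* Om g ℂ = 0 := by
        funext i
        have h3 := h1 (Pi.single i 1)
        rw [dotProduct_mulVec, dotProduct_single_one] at h3
        exact h3
      have h3 := congrArg (fun y => y ᵥ* Om g ℂ) h2
      simp only [vecMul_vecMul, Om_sq, zero_vecMul] at h3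
      rw [vecMul_neg, vecMul_one, neg_eq_zero] at h3
      exact h3
    exact Submodule.mem_iSup_of_mem ⟨x, hgood⟩ (hSS x)

/-- Abelian varieties with the full Lie algebra. -/
theorem gen_of_sp (hZ : Zᵀ = Z) (hpos : (imM Z).PosDef) (hsp : LG Z = spC g) :
    (∀ φ : Matrix (Fin g ⊕ Fin g) (Fin g ⊕ Fin g) ℚ,
      (∃ M : Matrix (Fin g) (Fin g) ℂ, ∀ w, perOne Z (φ.mulVec w) = M.mulVec (perOne Z w)) →
        ∃ c : ℚ, φ = c • 1) ∧
    ∀ X : MM g, Xᵀ * Om g ℂ + Om g ℂ * X = 0 → X ∈ lieM (DZ Z) ℂ := by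
  refine ⟨?_, fun X hX => LG_le Z (by rw [hsp]; exact hX)⟩
  rintro φ ⟨M, hM⟩
  have hY : IsUnit (imM Z).det := hpos.isUnit.map Matrix.detMonoidHom
  exact rat_scalar hZ hpos hsp (endo_comm hY hM)

end Pool.Agent.Q34.SD
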