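import Mathlib
import Pool.Agent.Q34.SD.Deg
import Pool.Agent.Y4.K.MainK

/-!
# All abelian varieties with at most four conjugate period matrices
-/

set_option linter.unusedSectionVars false

namespace Pool.Agent.Q34.SD

open Matrix Module Submodule Pool.Agent.H204R3.CM Pool.Agent.H194R3.CM Pool.Agent.W437.HC
  Pool.Agent.W437.HD Pool.Agent.W437.HP Pool.Agent.W437.HR Pool.Agent.W437.HQ
  Pool.Agent.W548.Odd Pool.Agent.Y4.K

open Pool.Agent.Y4.H (LZ Ct)

variable {g : ℕ} {Z : Matrix (Fin g) (Fin g) ℂ}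

/-- The idempotent as an operator. -/
noncomputable abbrev po (φ : Pr Z) : End ℂ (VV g) := ph (Fin g ⊕ Fin g) φ.e

theorem po_comm (φ : Pr Z) : ∀ y ∈ GE Z, po φ * y = y * po φ := comm_of_inCm φ.mem

theorem po_idem (φ : Pr Z) : po φ * po φ = po φ := by
  unfold po
  rw [← map_mul, φ.idem]

theorem po_ne (φ : Pr Z) : po φ ≠ 0 := by
  intro h0
  apply φ.ne
  apply (ph (Fin g ⊕ Fin g)).injective
  rw [map_zero]
  exact h0

/-- The image of a primitive idempotent is irreducible. -/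
theorem po_irr (M : Pol Z) (φ : Pr Z) : IsIrr (GE Z) (LinearMap.range (po φ)) := by
  refine ⟨?_, fun h => po_ne φ (LinearMap.range_eq_bot.1 h), ?_⟩
  · rintro y hy _ ⟨x, rfl⟩
    exact ⟨y x, LinearMap.congr_fun (po_comm φ y hy) x⟩
  · intro N hN hst
    obtain ⟨π, hπ, hπN, hπid⟩ := cr_GE M.symm M.pos N hst
    obtain ⟨lam, hlam⟩ := φ.prim _ (inCm_of_comm hπ)
    have h1 : po φ * π * po φ = lam • po φ := by
      have h2 := congrArg (ph (Fin g ⊕ Fin g)) hlam
      rw [map_mul, map_mul, AlgEquiv.apply_symm_apply, map_smul] at h2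
      exact h2
    have hid : ∀ x ∈ LinearMap.range (po φ), po φ x = x := by
      rintro _ ⟨x, rfl⟩
      exact LinearMap.congr_fun (po_idem φ) x
    have h2 : ∀ x ∈ LinearMap.range (po φ), π x = lam • x := by
      intro x hx
      have h3 : po φ (π (po φ x)) = lam • po φ x := LinearMap.congr_fun h1 x
      rw [hid x hx, hid (π x) (hN (hπN x))] at h3
      exact h3
    by_cases hl : lam = 0
    · left
      rw [Submodule.eq_bot_iff]
      intro x hx
      have h3 := h2 x (hN hx)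
      rw [hπid x hx, hl, zero_smul] at h3
      exact h3
    · right
      refine le_antisymm hN fun x hx => ?_
      have h3 := h2 x hx
      have h4 : x = lam⁻¹ • π x := by rw [h3, smul_smul, inv_mul_cancel₀ hl, one_smul]
      rw [h4]
      exact N.smul_mem _ (hπN x)

theorem finrank_po (M : Pol Z) (φ : Pr Z) :
    finrank ℂ (LinearMap.range (po φ)) = mu φ + mu (M.bar φ) := by
  have h1 := M.trace_e φ
  rw [Pool.Agent.Y4.G.trace_idemM φ.idem] at h1
  have h2 : finrank ℂ (LinearMap.range (mulVecLin φ.e)) = mu φ + mu (M.bar φ) := by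
    exact_mod_cast h1
  rw [← h2]
  rfl

/-- The condition: at most four conjugates. -/
def Cj (Z : Matrix (Fin g) (Fin g) ℂ) : Prop :=
  {A : Matrix (Fin g) (Fin g) ℂ | ∃ σ : ℂ ≃+* ℂ, A = Z.map σ}.encard ≤ 4

section

variable (M : Pol Z) (hc : Cj Z)
include hc

theorem po_eig (φ : Pr Z) : (Eig (dd M.symm (po_comm φ))).encard ≤ 4 := by
  refine dd_eig M.symm M.pos (po_comm φ) (po_idem φ) (po_irr M φ) (φ := 1) ?_
    (four_of_conj M.pos hc 1)
  intro X _
  have h1 : qm (1 : Matrix (Fin g ⊕ Fin g) (Fin g ⊕ Fin g) ℚ) = 1 :=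
    Matrix.map_one _ (by simp) (by simp)
  rw [h1, one_mul, mul_one]

theorem mu_le (φ : Pr Z) : mu φ + mu (M.bar φ) ≤ 2 := by
  rw [← finrank_po M φ]
  exact (dd_irr M.symm M.pos (po_comm φ) (po_irr M φ)).finrank_le_two (po_eig M hc φ)

theorem not_sc (φ : Pr Z) (h2 : mu φ + mu (M.bar φ) = 2) (σ : ℂ ≃+* ℂ) :
    Pool.Agent.Q34.SD.pos (dd M.symm (po_comm φ) σ) ≠ ⊤ ∧ neg (dd M.symm (po_comm φ) σ) ≠ ⊤ :=
  (dd_irr M.symm M.pos (po_comm φ) (po_irr M φ)).not_scalar (po_eig M hc φ)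
    (by rw [finrank_po M φ, h2]) σ

/-- The multiplicities of the planes. -/
theorem mu_one (φ : Pr Z) (h2 : mu φ + mu (M.bar φ) = 2) : mu φ = 1 := by
  have hns := not_sc M hc φ h2 (RingEquiv.refl ℂ)
  by_contra hne
  have hcase : mu φ = 0 ∨ mu (M.bar φ) = 0 := by omega
  rcases hcase with h | h
  · -- the operator is `-1`
    apply hns.2
    have h3 : pr φ = 0 := by
      have h4 : LinearMap.range (mulVecLin (pr φ)) = ⊥ := Submodule.finrank_eq_zero.1 h
      rw [LinearMap.range_eq_bot] at h4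
      apply Matrix.toLin'.injective
      rw [map_zero]
      exact h4
    have h5 : DZ Z * φ.e = -φ.e := by
      have h6 : (1 + DZ Z) * φ.e = 0 := by
        unfold pr at h3
        exact (smul_eq_zero.1 h3).resolve_left (by norm_num)
      rw [add_mul, one_mul] at h6
      exact eq_neg_of_add_eq_zero_right h6
    rw [Submodule.eq_top_iff']
    intro x
    rw [mem_neg]
    apply Subtype.ext
    change Ds Z (RingEquiv.refl ℂ) *ᵥ (x : VV g) = -(x : VV g)
    rw [Ds_one]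
    obtain ⟨y, hy⟩ := x.2
    rw [← hy]
    change DZ Z *ᵥ (φ.e *ᵥ y) = -(φ.e *ᵥ y)
    rw [mulVec_mulVec, h5, neg_mulVec]
  · -- the operator is `1`
    apply hns.1
    have h3 : qr φ = 0 := by
      have h4 : trace (qr φ) = 0 := by rw [M.trace_qr, h, Nat.cast_zero]
      rw [Pool.Agent.Y4.G.trace_idemM (M.qr_idem φ)] at h4
      have h5 : finrank ℂ (LinearMap.range (mulVecLin (qr φ))) = 0 := by exact_mod_cast h4
      have h6 := Submodule.finrank_eq_zero.1 h5
      rw [LinearMap.range_eq_bot] at h6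
      apply Matrix.toLin'.injective
      rw [map_zero]
      exact h6
    have h5 : DZ Z * φ.e = φ.e := by
      have h6 : (1 - DZ Z) * φ.e = 0 := by
        unfold qr at h3
        exact (smul_eq_zero.1 h3).resolve_left (by norm_num)
      rw [sub_mul, one_mul] at h6
      exact (sub_eq_zero.1 h6).symm
    rw [Submodule.eq_top_iff']
    intro x
    rw [mem_pos]
    apply Subtype.ext
    change Ds Z (RingEquiv.refl ℂ) *ᵥ (x : VV g) = (x : VV g)
    rw [Ds_one]
    obtain ⟨y, hy⟩ := x.2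
    rw [← hy]
    change DZ Z *ᵥ (φ.e *ᵥ y) = φ.e *ᵥ y
    rw [mulVec_mulVec, h5]

theorem mu_cases (φ : Pr Z) : (mu φ = 1 ∧ mu (M.bar φ) = 1) ∨ mu φ + mu (M.bar φ) = 1 := by
  have h1 := mu_le M hc φ
  have h2 := M.mu_pos φ
  rcases Nat.lt_or_ge (mu φ + mu (M.bar φ)) 2 with h | h
  · right
    omega
  · left
    have h3 : mu φ + mu (M.bar φ) = 2 := le_antisymm h1 h
    have h4 := mu_one M hc φ h3
    exact ⟨h4, by omega⟩

theorem cop_all : M.Cop := by
  intro φ
  refine ⟨RingEquiv.refl ℂ, ?_⟩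
  rcases mu_cases M hc (M.act (RingEquiv.refl ℂ) φ) with ⟨h1, h2⟩ | h
  · rw [h1, h2]
    decide
  · have h1 : mu (M.act (RingEquiv.refl ℂ) φ) = 0 ∨ mu (M.act (RingEquiv.refl ℂ) φ) = 1 := by omega
    rcases h1 with h1 | h1
    · have h2 : mu (M.bar (M.act (RingEquiv.refl ℂ) φ)) = 1 := by omega
      rw [h1, h2]
      decide
    · have h2 : mu (M.bar (M.act (RingEquiv.refl ℂ) φ)) = 0 := by omega
      rw [h1, h2]
      decide

theorem sep_all : M.Sep := by
  intro φ ψ _ _ h3 h4 _ σ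
  have h5 : mu (M.act σ φ) + mu (M.bar (M.act σ φ)) ≠ 1 := by
    rw [M.mu_act]
    exact h4
  have h6 : mu (M.act σ ψ) + mu (M.bar (M.act σ ψ)) ≠ 1 := by
    rw [M.mu_act, ← h3]
    exact h4
  rcases mu_cases M hc (M.act σ φ) with ⟨h7, -⟩ | h7
  · rcases mu_cases M hc (M.act σ ψ) with ⟨h8, -⟩ | h8
    · rw [h7, h8]
    · exact (h6 h8).elim
  · exact (h5 h7).elim

end

/-- The trace of a conjugate of the Hodge operator. -/
noncomputable def tt (φ : Pr Z) (τ : ℂ ≃+* ℂ) : ℂ := trace (Ds Z τ * φ.e)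

theorem tt_cs (φ : Pr Z) (τ : ℂ ≃+* ℂ) : tt φ (cs τ) = -tt φ τ := by
  unfold tt
  rw [Ds_cs, neg_mul, trace_neg]

theorem tt_eqv {φ ψ : Pr Z} (h : Eqv φ ψ) (τ : ℂ ≃+* ℂ) : tt φ τ = tt ψ τ :=
  h.trace fun c hc => hc _ (Ds_mem τ)

theorem tt_bar (M : Pol Z) (φ : Pr Z) (τ : ℂ ≃+* ℂ) : tt (M.bar φ) τ = -tt φ τ := by
  unfold tt
  have h1 : (Ds Z τ)ᵀ * Om g ℂ = -(Om g ℂ * Ds Z τ) :=
    eq_neg_of_add_eq_zero_left (sp_LA M.isPer (Ds_mem τ))
  rw [M.bar_e, mul_neg, trace_neg]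
  congr 1
  calc trace (Ds Z τ * (Om g ℂ * φ.eᵀ * Om g ℂ)) =
      trace (Ds Z τ * Om g ℂ * (φ.eᵀ * Om g ℂ)) := by simp only [mul_assoc]
  _ = trace (φ.eᵀ * Om g ℂ * (Ds Z τ * Om g ℂ)) := trace_mul_comm _ _
  _ = trace (φ.eᵀ * (Om g ℂ * Ds Z τ) * Om g ℂ) := by simp only [mul_assoc]
  _ = trace (φ.eᵀ * (-((Ds Z τ)ᵀ * Om g ℂ)) * Om g ℂ) := by rw [h1, neg_neg]
  _ = trace (-(φ.eᵀ * (Ds Z τ)ᵀ * (Om g ℂ * Om g ℂ))) := by
    congr 1
    noncomm_ring
  _ = trace ((Ds Z τ * φ.e)ᵀ) := by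
    rw [Om_sq, mul_neg_one, neg_neg, transpose_mul]
  _ = trace (Ds Z τ * φ.e) := trace_transpose _

section line

variable (M : Pol Z) {φ : Pr Z} (h1 : mu φ + mu (M.bar φ) = 1)
include h1

/-- The elements of the Lie algebra act on a line by scalars. -/
theorem line_scalar {X : MM g} (hX : X ∈ LG Z) : ∃ x : ℂ, X * φ.e = x • φ.e := by
  have hf : finrank ℂ (LinearMap.range (po φ)) = 1 := by rw [finrank_po M φ, h1]
  obtain ⟨v, hv0, hv⟩ := finrank_eq_one_iff'.1 hf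
  obtain ⟨a, ha⟩ := hv ⟨X *ᵥ (v : VV g), stab_lie M.symm (po_comm φ) X (LG_le Z hX) _ v.2⟩
  refine ⟨a, ?_⟩
  apply (ph (Fin g ⊕ Fin g)).injective
  refine LinearMap.ext fun x => ?_
  rw [map_mul, map_smul]
  change X *ᵥ (po φ x) = a • po φ x
  obtain ⟨r, hr⟩ := hv ⟨po φ x, x, rfl⟩
  have hr' : po φ x = r • (v : VV g) :=
    (congrArg (fun z : LinearMap.range (po φ) => (z : VV g)) hr).symm
  have ha' : X *ᵥ (v : VV g) = a • (v : VV g) :=
    (congrArg (fun z : LinearMap.range (po φ) => (z : VV g)) ha).symm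
  rw [hr', mulVec_smul, ha', smul_comm]

theorem line_D (τ : ℂ ≃+* ℂ) : Ds Z τ * φ.e = tt φ τ • φ.e := by
  obtain ⟨x, hx⟩ := line_scalar M h1 (Ds_mem τ)
  have h2 : tt φ τ = x := by
    unfold tt
    rw [hx, trace_smul, M.trace_one h1, smul_eq_mul, mul_one]
  rw [h2, hx]

theorem tt_sq (τ : ℂ ≃+* ℂ) : tt φ τ = 1 ∨ tt φ τ = -1 := by
  have h2 := line_D M h1 τ
  have h3 : (tt φ τ * tt φ τ - 1) • φ.e = 0 := by
    have h4 : Ds Z τ * (Ds Z τ * φ.e) = (tt φ τ * tt φ τ) • φ.e := by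
      rw [h2, Matrix.mul_smul, h2, smul_smul]
    rw [← mul_assoc, Ds_sq M.pos, one_mul] at h4
    rw [sub_smul, one_smul, ← h4, sub_self]
  have h4 := (smul_eq_zero.1 h3).resolve_right φ.ne
  have h5 : (tt φ τ - 1) * (tt φ τ + 1) = 0 := by linear_combination h4
  rcases mul_eq_zero.1 h5 with h | h
  · exact Or.inl (sub_eq_zero.1 h)
  · exact Or.inr (eq_neg_of_add_eq_zero_left h)

/-- The sign depends only on the conjugate of the period matrix. -/
theorem tt_congr {τ τ' : ℂ ≃+* ℂ} (h : Z.map τ = Z.map τ') : tt φ τ = tt φ τ' := by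
  have key : ∀ ρ ρ' : ℂ ≃+* ℂ, Z.map ρ = Z.map ρ' → tt φ ρ = -1 → tt φ ρ' = -1 := by
    intro ρ ρ' hρ h2
    have h3 := line_D M h1 ρ
    rw [h2, neg_one_smul] at h3
    have h4 : ∀ x : VV g, φ.e *ᵥ x ∈ neg (ph (Fin g ⊕ Fin g) (Ds Z ρ)) := by
      intro x
      rw [mem_neg]
      change Ds Z ρ *ᵥ (φ.e *ᵥ x) = -(φ.e *ᵥ x)
      rw [mulVec_mulVec, h3, neg_mulVec]
    rw [neg_Ds M.pos, hρ, ← neg_Ds M.pos] at h4
    have h5 : Ds Z ρ' * φ.e = -φ.e := by
      apply (ph (Fin g ⊕ Fin g)).injective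
      refine LinearMap.ext fun x => ?_
      have h6 := mem_neg.1 (h4 x)
      change Ds Z ρ' *ᵥ (φ.e *ᵥ x) = -(φ.e *ᵥ x) at h6
      change (Ds Z ρ' * φ.e) *ᵥ x = (-φ.e) *ᵥ x
      rw [← mulVec_mulVec, h6, neg_mulVec]
    unfold tt
    rw [h5, trace_neg, M.trace_one h1]
  rcases tt_sq M h1 τ with h2 | h2
  · rcases tt_sq M h1 τ' with h3 | h3
    · rw [h2, h3]
    · have := key τ' τ h.symm h3
      rw [this, h3]
  · rw [h2, key τ τ' h h2]

end line

/-- Lines with the same signs are isomorphic. -/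
theorem eqv_of_tt (M : Pol Z) {φ ψ : Pr Z} (h1 : mu φ + mu (M.bar φ) = 1)
    (h2 : mu ψ + mu (M.bar ψ) = 1) (h : ∀ τ, tt φ τ = tt ψ τ) : Eqv φ ψ := by
  -- the Lie algebra acts by the same scalars
  have hL : ∀ X ∈ LG Z, ∃ x : ℂ, X * φ.e = x • φ.e ∧ X * ψ.e = x • ψ.e := by
    have hle : LG Z ≤ { carrier := {X : MM g | ∃ x : ℂ, X * φ.e = x • φ.e ∧ X * ψ.e = x • ψ.e}
                        zero_mem' := ⟨0, by rw [zero_mul, zero_smul], by
                          rw [zero_mul, zero_smul]⟩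
                        add_mem' := fun {a b} ha hb => by
                          obtain ⟨x, hx, hx'⟩ := ha
                          obtain ⟨y, hy, hy'⟩ := hb
                          exact ⟨x + y, by rw [add_mul, hx, hy, add_smul], by
                            rw [add_mul, hx', hy', add_smul]⟩
                        smul_mem' := fun c a ha => by
                          obtain ⟨x, hx, hx'⟩ := ha
                          exact ⟨c * x, by rw [smul_mul_assoc, hx, smul_smul], by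
                            rw [smul_mul_assoc, hx', smul_smul]⟩ } := by
      refine LA_le_of_conj ?_ ?_
      · rintro _ ⟨Z', hZ', rfl⟩ σ
        rw [Set.mem_singleton_iff.1 hZ']
        exact ⟨tt φ σ, line_D M h1 σ, by rw [h σ]; exact line_D M h2 σ⟩
      · rintro A ⟨x, hx, hx'⟩ B ⟨y, hy, hy'⟩
        refine ⟨0, ?_, ?_⟩
        · rw [sub_mul, mul_assoc, mul_assoc, hx, hy, mul_smul_comm, mul_smul_comm, hx, hy,
            smul_smul, smul_smul, mul_comm, sub_self, zero_smul]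
        · rw [sub_mul, mul_assoc, mul_assoc, hx', hy', mul_smul_comm, mul_smul_comm, hx', hy',
            smul_smul, smul_smul, mul_comm, sub_self, zero_smul]
    exact fun X hX => hle hX
  obtain ⟨i, hi⟩ : ∃ i, φ.e i ≠ 0 := by
    by_contra hcon
    push Not at hcon
    apply φ.ne
    ext i j
    exact congrFun (hcon i) j
  obtain ⟨j, hj⟩ : ∃ j, ψ.e.col j ≠ 0 := by
    by_contra hcon
    push Not at hcon
    apply ψ.ne
    ext i j
    exact congrFun (hcon j) i
  have hu : Ct Z (ψ.e * vecMulVec (ψ.e.col j) (φ.e i) * φ.e) := by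
    intro X hX
    obtain ⟨x, hx, hx'⟩ := hL X hX
    have h3 : φ.e * X = x • φ.e := by rw [φ.mem X hX, hx]
    calc ψ.e * vecMulVec (ψ.e.col j) (φ.e i) * φ.e * X =
        ψ.e * vecMulVec (ψ.e.col j) (φ.e i) * (φ.e * X) := by rw [mul_assoc]
    _ = x • (ψ.e * vecMulVec (ψ.e.col j) (φ.e i) * φ.e) := by rw [h3, mul_smul_comm]
    _ = (X * ψ.e) * vecMulVec (ψ.e.col j) (φ.e i) * φ.e := by
      rw [hx', smul_mul_assoc, smul_mul_assoc]
    _ = X * (ψ.e * vecMulVec (ψ.e.col j) (φ.e i) * φ.e) := by simp only [mul_assoc]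
  refine M.eqv_of_ne φ ψ hu ?_
  have h3 : ψ.e * (ψ.e * vecMulVec (ψ.e.col j) (φ.e i) * φ.e) * φ.e =
      vecMulVec (ψ.e.col j) (φ.e i) := by
    have h4 : ψ.e * vecMulVec (ψ.e.col j) (φ.e i) = vecMulVec (ψ.e.col j) (φ.e i) := by
      rw [mul_vecMulVec]
      congr 1
      have h5 : ψ.e *ᵥ ψ.e.col j = (ψ.e * ψ.e).col j := by
        funext k
        rfl
      rw [h5, ψ.idem]
    have h5 : vecMulVec (ψ.e.col j) (φ.e i) * φ.e = vecMulVec (ψ.e.col j) (φ.e i) := by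
      rw [vecMulVec_mul]
      congr 1
      have h6 : φ.e i ᵥ* φ.e = (φ.e * φ.e) i := by
        funext k
        rfl
      rw [h6, φ.idem]
    rw [h4, h5, h4, h5]
  rw [h3]
  obtain ⟨k, hk⟩ := Function.ne_iff.1 hi
  obtain ⟨l, hl⟩ := Function.ne_iff.1 hj
  intro h0
  have h4 := congrFun (congrFun h0 l) k
  rw [vecMulVec_apply, Matrix.zero_apply] at h4
  rcases mul_eq_zero.1 h4 with h5 | h5
  · exact hl h5
  · exact hk h5

end Pool.Agent.Q34.SD
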