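import Mathlib
import Pool.Agent.Q34.SD.All

/-!
# All abelian varieties with at most four conjugate period matrices: nondegeneracy
-/

set_option linter.unusedSectionVars false

namespace Pool.Agent.Q34.SD

open Matrix Module Submodule Pool.Agent.H204R3.CM Pool.Agent.H194R3.CM Pool.Agent.W437.HC
  Pool.Agent.W437.HD Pool.Agent.W437.HP Pool.Agent.W437.HR Pool.Agent.W437.HQ
  Pool.Agent.W548.Odd Pool.Agent.Y4.K

open Pool.Agent.Y4.H (LZ Ct)

variable {g : ℕ} {Z : Matrix (Fin g) (Fin g) ℂ}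

/-- The conjugates generate: an alternating form preserved by the conjugates is preserved by the
Lie algebra. -/
theorem isSp_LG (hZ : Zᵀ = Z) {p : End ℂ (VV g)} (hp : ∀ y ∈ GE Z, p * y = y * p)
    {w : LinearMap.range p →ₗ[ℂ] LinearMap.range p →ₗ[ℂ] ℂ}
    (hσ : ∀ σ, IsSp w (dd hZ hp σ)) : ∀ X (hX : X ∈ LG Z), IsSp w (rsN (LinearMap.range p)
      (stab_lie hZ hp) ⟨X, LG_le Z hX⟩) := by
  have h1 : LG Z ≤ Submodule.map (lieM (DZ Z) ℂ).subtype
      { carrier := {X : lieM (DZ Z) ℂ | IsSp w (rsN (LinearMap.range p) (stab_lie hZ hp) X)}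
        zero_mem' := fun x y => by
          rw [map_zero]
          simp
        add_mem' := fun {X Y} hX hY x y => by
          rw [map_add, LinearMap.add_apply, LinearMap.add_apply, map_add, map_add,
            LinearMap.add_apply, hX x y, hY x y]
          ring
        smul_mem' := fun r X hX x y => by
          rw [map_smul, LinearMap.smul_apply, LinearMap.smul_apply, map_smul, map_smul,
            LinearMap.smul_apply, hX x y]
          simp } := by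
    refine LA_le_of_conj ?_ ?_
    · rintro _ ⟨Z', hZ', rfl⟩ σ
      rw [Set.mem_singleton_iff.1 hZ']
      exact ⟨⟨Ds Z σ, LG_le Z (Ds_mem σ)⟩, hσ σ, rfl⟩
    · rintro _ ⟨X, hX, rfl⟩ _ ⟨Y, hY, rfl⟩
      refine ⟨brL (DZ Z) X Y, ?_, rfl⟩
      change IsSp w (rsN (LinearMap.range p) (stab_lie hZ hp) (brL (DZ Z) X Y))
      rw [rsN_brL]
      intro x y
      have hX' : IsSp w (rsN (LinearMap.range p) (stab_lie hZ hp) X) := hX
      have hY' : IsSp w (rsN (LinearMap.range p) (stab_lie hZ hp) Y) := hY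
      simp only [LinearMap.sub_apply, Module.End.mul_apply, map_sub]
      rw [hX' _ y, hY' _ y, hY' x, hX' x]
      ring
  intro X hX
  obtain ⟨Y, hY, hYX⟩ := h1 hX
  have h2 : Y = ⟨X, LG_le Z hX⟩ := Subtype.ext hYX
  rw [← h2]
  exact hY

/-- Planes are isomorphic to their duals. -/
theorem eqv_bar_two (M : Pol Z) (hc : Cj Z) {φ : Pr Z} (h2 : mu φ + mu (M.bar φ) = 2) :
    Eqv φ (M.bar φ) := by
  have hZ := M.symm
  have hp := po_comm φ
  have hpp := po_idem φ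
  have hfr : finrank ℂ (LinearMap.range (po φ)) = 2 := by rw [finrank_po M φ, h2]
  have hns := not_sc M hc φ h2
  have hirr := dd_irr M.symm M.pos (po_comm φ) (po_irr M φ)
  obtain ⟨w, hw1, hw2⟩ := exists_form hfr
  have hsp := isSp_LG hZ hp (w := w) fun σ => isSp_invol (hirr.inv σ) hfr (hns σ) hw1
  let q : VV g →ₗ[ℂ] LinearMap.range (po φ) := LinearMap.codRestrict _ (po φ) fun y => ⟨y, rfl⟩
  let β : VV g →ₗ[ℂ] VV g →ₗ[ℂ] ℂ := w.compl₁₂ q q
  let Bm : MM g := LinearMap.toMatrix₂' ℂ β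
  have hβ : ∀ x y, β x y = x ⬝ᵥ (Bm *ᵥ y) := by
    intro x y
    have h1 : Matrix.toLinearMap₂' ℂ Bm = β := Matrix.toLinearMap₂'_toMatrix' β
    rw [← h1, Matrix.toLinearMap₂'_apply']
  have hβ' : ∀ x y, β x y = w (q x) (q y) := fun x y => rfl
  have hext : ∀ A A' : MM g, (∀ x y : VV g, x ⬝ᵥ (A *ᵥ y) = x ⬝ᵥ (A' *ᵥ y)) → A = A' := by
    intro A A' h1
    ext i j
    have h2 := h1 (Pi.single i 1) (Pi.single j 1)
    rw [mulVec_single_one, mulVec_single_one, single_one_dotProduct,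
      single_one_dotProduct] at h2
    exact h2
  have htr : ∀ (Y : MM g) (x y : VV g), (Y *ᵥ x) ⬝ᵥ (Bm *ᵥ y) = x ⬝ᵥ ((Yᵀ * Bm) *ᵥ y) := by
    intro Y x y
    rw [← vecMul_transpose, ← dotProduct_mulVec, mulVec_mulVec]
  have hβY : ∀ Y ∈ LG Z, Yᵀ * Bm + Bm * Y = 0 := by
    intro Y hY
    rw [add_eq_zero_iff_eq_neg]
    apply hext
    intro x y
    rw [← htr, neg_mulVec, dotProduct_neg, ← mulVec_mulVec, ← hβ, ← hβ, hβ', hβ']
    have h1 := hsp Y hY (q x) (q y)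
    have h3 : ∀ z : VV g, q (Y *ᵥ z) = rsN (LinearMap.range (po φ)) (stab_lie hZ hp)
        ⟨Y, LG_le Z hY⟩ (q z) := fun z =>
      Subtype.ext (LinearMap.congr_fun (hp _ (mem_GG.2 hY)) z)
    rw [h3, h3]
    exact h1
  have hOO : Om g ℂ * Om g ℂ = -1 := Om_sq ℂ
  have hcm : Ct Z (Om g ℂ * Bm) := by
    intro Y hY
    have h1 : Bm * Y = -(Yᵀ * Bm) := eq_neg_of_add_eq_zero_right (hβY Y hY)
    have h2 : Om g ℂ * Yᵀ = -(Y * Om g ℂ) := by
      have h3 : Yᵀ * Om g ℂ = -(Om g ℂ * Y) :=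
        eq_neg_of_add_eq_zero_left (sp_LA M.isPer hY)
      have h4 : Om g ℂ * (Yᵀ * Om g ℂ) * Om g ℂ = -(Om g ℂ * Yᵀ) := by
        rw [mul_assoc, mul_assoc Yᵀ, hOO, mul_neg_one, mul_neg]
      rw [h3, mul_neg, ← mul_assoc, hOO, neg_one_mul, neg_neg] at h4
      rw [h4, neg_neg]
    rw [mul_assoc, h1, mul_neg, ← mul_assoc, h2, neg_mul, neg_neg, mul_assoc]
  have hqq : ∀ x, q (po φ x) = q x := fun x => Subtype.ext (LinearMap.congr_fun hpp x)
  have hBe : Bm * φ.e = Bm := by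
    apply hext
    intro x y
    rw [← mulVec_mulVec, ← hβ, ← hβ, hβ', hβ']
    have h1 : q (φ.e *ᵥ y) = q y := hqq y
    rw [h1]
  have heB : φ.eᵀ * Bm = Bm := by
    apply hext
    intro x y
    rw [← htr, ← hβ, ← hβ, hβ', hβ']
    have h1 : q (φ.e *ᵥ x) = q x := hqq x
    rw [h1]
  refine M.eqv_of_ne φ (M.bar φ) hcm ?_
  have h3 : (M.bar φ).e * (Om g ℂ * Bm) * φ.e = Om g ℂ * Bm := by
    rw [M.bar_e]
    calc -(Om g ℂ * φ.eᵀ * Om g ℂ) * (Om g ℂ * Bm) * φ.e =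
        -(Om g ℂ * φ.eᵀ * (Om g ℂ * Om g ℂ) * (Bm * φ.e)) := by noncomm_ring
    _ = Om g ℂ * (φ.eᵀ * Bm) := by rw [hOO, hBe]; noncomm_ring
    _ = _ := by rw [heB]
  rw [h3]
  intro h0
  have hB0 : Bm = 0 := by
    have h5 : Om g ℂ * (Om g ℂ * Bm) = 0 := by rw [h0, mul_zero]
    rw [← mul_assoc, hOO, neg_one_mul, neg_eq_zero] at h5
    exact h5
  have hnt : Nontrivial (LinearMap.range (po φ)) :=
    Module.nontrivial_of_finrank_pos (R := ℂ) (by rw [hfr]; norm_num)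
  obtain ⟨x, hx⟩ := exists_ne (0 : LinearMap.range (po φ))
  apply hx
  apply hw2
  intro y
  have hid : ∀ z : LinearMap.range (po φ), q (z : VV g) = z := by
    intro z
    obtain ⟨z0, hz0⟩ := z.2
    apply Subtype.ext
    change po φ (z : VV g) = z
    rw [← hz0]
    exact LinearMap.congr_fun hpp z0
  have h5 := hβ x y
  rw [hB0, zero_mulVec, dotProduct_zero, hβ', hid, hid] at h5
  exact h5

/-- The signs are determined by two of them. -/
theorem exists_two (M : Pol Z) (hc : Cj Z) : ∃ τ₀ : ℂ ≃+* ℂ, ∀ τ : ℂ ≃+* ℂ,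
    (∃ s : ℂ, ∀ φ : Pr Z, mu φ + mu (M.bar φ) = 1 → tt φ τ = s * tt φ (RingEquiv.refl ℂ)) ∨
    (∃ s : ℂ, ∀ φ : Pr Z, mu φ + mu (M.bar φ) = 1 → tt φ τ = s * tt φ τ₀) := by
  by_cases hall : ∀ τ : ℂ ≃+* ℂ, ∃ s : ℂ, ∀ φ : Pr Z, mu φ + mu (M.bar φ) = 1 →
      tt φ τ = s * tt φ (RingEquiv.refl ℂ)
  · exact ⟨RingEquiv.refl ℂ, fun τ => Or.inl (hall τ)⟩
  push Not at hall
  obtain ⟨τ₀, hτ₀⟩ := hall
  obtain ⟨φ₀, hφ₀, -⟩ := hτ₀ 0
  refine ⟨τ₀, fun τ => ?_⟩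
  have hne : ∀ ρ : ℂ ≃+* ℂ, tt φ₀ ρ ≠ -tt φ₀ ρ := by
    intro ρ h
    rcases tt_sq M hφ₀ ρ with h1 | h1
    · rw [h1] at h
      norm_num at h
    · rw [h1] at h
      norm_num at h
  have hcong : ∀ ρ ρ' : ℂ ≃+* ℂ, Z.map ρ = Z.map ρ' → ∀ φ : Pr Z, mu φ + mu (M.bar φ) = 1 →
      tt φ ρ = tt φ ρ' := fun ρ ρ' h φ hφ => tt_congr M hφ h
  have d1 : Z.map (RingEquiv.refl ℂ) ≠ Z.map (cs (RingEquiv.refl ℂ)) := by
    intro h
    have h1 := hcong _ _ h φ₀ hφ₀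
    rw [tt_cs] at h1
    exact hne _ h1
  have d2 : Z.map τ₀ ≠ Z.map (cs τ₀) := by
    intro h
    have h1 := hcong _ _ h φ₀ hφ₀
    rw [tt_cs] at h1
    exact hne _ h1
  have d3 : Z.map (RingEquiv.refl ℂ) ≠ Z.map τ₀ := by
    intro h
    obtain ⟨φ, hφ, hn⟩ := hτ₀ 1
    exact hn (by rw [one_mul]; exact (hcong _ _ h φ hφ).symm)
  have d4 : Z.map (RingEquiv.refl ℂ) ≠ Z.map (cs τ₀) := by
    intro h
    obtain ⟨φ, hφ, hn⟩ := hτ₀ (-1)
    have h1 := hcong _ _ h φ hφ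
    rw [tt_cs] at h1
    exact hn (by rw [h1]; ring)
  have d5 : Z.map (cs (RingEquiv.refl ℂ)) ≠ Z.map τ₀ := by
    intro h
    obtain ⟨φ, hφ, hn⟩ := hτ₀ (-1)
    have h1 := hcong _ _ h φ hφ
    rw [tt_cs] at h1
    exact hn (by rw [← h1]; ring)
  have d6 : Z.map (cs (RingEquiv.refl ℂ)) ≠ Z.map (cs τ₀) := by
    intro h
    obtain ⟨φ, hφ, hn⟩ := hτ₀ 1
    have h1 := hcong _ _ h φ hφ
    rw [tt_cs, tt_cs, neg_inj] at h1
    exact hn (by rw [one_mul]; exact h1.symm)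
  obtain ⟨S, hS⟩ : ∃ S, S = {A : Matrix (Fin g) (Fin g) ℂ | ∃ σ : ℂ ≃+* ℂ, A = Z.map σ} :=
    ⟨_, rfl⟩
  have hS4 : S.encard ≤ 4 := by
    rw [hS]
    exact hc
  obtain ⟨Q, hQ⟩ : ∃ Q : Set (Matrix (Fin g) (Fin g) ℂ), Q = {Z.map (RingEquiv.refl ℂ),
      Z.map (cs (RingEquiv.refl ℂ)), Z.map τ₀, Z.map (cs τ₀)} := ⟨_, rfl⟩
  have hQS : Q ⊆ S := by
    rw [hQ, hS]
    rintro A (h | h | h | h)
    · exact ⟨_, h⟩
    · exact ⟨_, h⟩
    · exact ⟨_, h⟩
    · exact ⟨_, h⟩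
  have hQ4 : Q.encard = 4 := by
    rw [hQ, Set.encard_insert_of_notMem, Set.encard_insert_of_notMem, Set.encard_pair d2]
    · norm_num
    · simp only [Set.mem_insert_iff, Set.mem_singleton_iff, not_or]
      exact ⟨d5, d6⟩
    · simp only [Set.mem_insert_iff, Set.mem_singleton_iff, not_or]
      exact ⟨d1, d3, d4⟩
  have hQe : Q = S := by
    have hfin : Q.Finite := Set.finite_of_encard_eq_coe (k := 4) (by rw [hQ4]; rfl)
    exact hfin.eq_of_subset_of_encard_le hQS (by rw [hQ4]; exact hS4)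
  have hτ : Z.map τ ∈ Q := by
    rw [hQe, hS]
    exact ⟨τ, rfl⟩
  rw [hQ] at hτ
  rcases hτ with h | h | h | h
  · left
    exact ⟨1, fun φ hφ => by rw [one_mul]; exact hcong _ _ h φ hφ⟩
  · left
    exact ⟨-1, fun φ hφ => by rw [hcong _ _ h φ hφ, tt_cs]; ring⟩
  · right
    exact ⟨1, fun φ hφ => by rw [one_mul]; exact hcong _ _ h φ hφ⟩
  · right
    exact ⟨-1, fun φ hφ => by rw [hcong _ _ h φ hφ, tt_cs]; ring⟩

theorem rank_bar (M : Pol Z) {φ : Pr Z} (h1 : mu φ + mu (M.bar φ) = 1) :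
    mu (M.bar φ) + mu (M.bar (M.bar φ)) = 1 := by
  rw [M.bar_bar, add_comm]
  exact h1

theorem rank_eqv (M : Pol Z) {φ ψ : Pr Z} (h : Eqv φ ψ) (h1 : mu φ + mu (M.bar φ) = 1) :
    mu ψ + mu (M.bar ψ) = 1 := by
  rw [← M.mu_eqv h, ← M.mu_eqv (M.eqv_bar h)]
  exact h1

theorem nd_all (M : Pol Z) (hc : Cj Z) : M.Nd := by
  classical
  intro I _ ε F lam hcl hodd hsum φ
  obtain ⟨τ₀, hτ₀⟩ := exists_two M hc
  -- planes
  rcases mu_cases M hc φ with ⟨h1, h2⟩ | hφ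
  · have h3 := hcl _ _ (eqv_bar_two M hc (φ := φ) (by rw [h1, h2]))
    rw [hodd] at h3
    have h4 : (2 : ℂ) * lam φ = 0 := by linear_combination h3
    exact (mul_eq_zero.1 h4).resolve_left two_ne_zero
  -- the coefficients
  have hcoef : ∀ (σ : ℂ ≃+* ℂ) (ψ : Pr Z), (mu (M.act σ ψ) : ℂ) - mu (M.bar (M.act σ ψ)) =
      if mu ψ + mu (M.bar ψ) = 1 then tt ψ σ.symm else 0 := by
    intro σ ψ
    by_cases h : mu ψ + mu (M.bar ψ) = 1
    · rw [if_pos h]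
      have h1 : (mu (M.act σ ψ) : ℂ) - mu (M.bar (M.act σ ψ)) = trace (DZ Z * (M.act σ ψ).e) := by
        rw [← pr_sub_qr', trace_sub, M.trace_pr, M.trace_qr]
      have h2 : DZ Z * (M.act σ ψ).e = (Ds Z σ.symm * ψ.e).map (σ : ℂ →+* ℂ) := by
        rw [Matrix.map_mul, M.act_e]
        congr 1
        ext i j
        simp [Ds]
      have h3 : trace ((Ds Z σ.symm * ψ.e).map (σ : ℂ →+* ℂ)) = σ (tt ψ σ.symm) :=
        (AddMonoidHom.map_trace (σ : ℂ →+* ℂ).toAddMonoidHom _).symm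
      rw [h1, h2, h3]
      rcases tt_sq M h σ.symm with h4 | h4
      · rw [h4, map_one]
      · rw [h4, map_neg, map_one]
    · rw [if_neg h]
      rcases mu_cases M hc (M.act σ ψ) with ⟨h1, h2⟩ | h1
      · rw [h1, h2, sub_self]
      · rw [M.mu_act] at h1
        exact (h h1).elim
  have hS : ∀ τ : ℂ ≃+* ℂ, ∑ i, (if mu (ε i) + mu (M.bar (ε i)) = 1 then tt (ε i) τ else 0) *
      lam (ε i) = 0 := by
    intro τ
    have h1 := hsum τ.symm
    refine Eq.trans (Finset.sum_congr rfl fun i _ => ?_) h1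
    rw [hcoef]
    rfl
  -- the ratio of the two signs
  obtain ⟨r, hr⟩ : ∃ r : Pr Z → ℂ, r = fun ψ => tt ψ τ₀ * tt ψ (RingEquiv.refl ℂ) := ⟨_, rfl⟩
  have hrr : ∀ ψ, mu ψ + mu (M.bar ψ) = 1 → (r ψ = 1 ∨ r ψ = -1) ∧
      tt ψ τ₀ = r ψ * tt ψ (RingEquiv.refl ℂ) := by
    intro ψ hψ
    rw [hr]
    rcases tt_sq M hψ τ₀ with h1 | h1 <;> rcases tt_sq M hψ (RingEquiv.refl ℂ) with h2 | h2 <;>
      simp [h1, h2]
  -- the value of `lam` at lines with the same ratio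
  have hlam : ∀ ψ, mu ψ + mu (M.bar ψ) = 1 → r ψ = r φ →
      tt ψ (RingEquiv.refl ℂ) * lam ψ = tt φ (RingEquiv.refl ℂ) * lam φ := by
    intro ψ hψ hrψ
    have hprop : ∀ s : ℂ, tt ψ (RingEquiv.refl ℂ) = s * tt φ (RingEquiv.refl ℂ) →
        ∀ τ, tt ψ τ = s * tt φ τ := by
      intro s hs τ
      rcases hτ₀ τ with ⟨u, hu⟩ | ⟨u, hu⟩
      · rw [hu ψ hψ, hu φ hφ, hs]
        ring
      · rw [hu ψ hψ, hu φ hφ, (hrr ψ hψ).2, (hrr φ hφ).2, hrψ, hs]
        ring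
    rcases tt_sq M hψ (RingEquiv.refl ℂ) with h1 | h1 <;>
      rcases tt_sq M hφ (RingEquiv.refl ℂ) with h2 | h2
    · have h3 := hprop 1 (by rw [h1, h2, one_mul])
      have h4 : Eqv ψ φ := eqv_of_tt M hψ hφ fun τ => by rw [h3 τ, one_mul]
      rw [h1, h2, hcl _ _ h4]
    · have h3 := hprop (-1) (by rw [h1, h2]; ring)
      have h4 : Eqv ψ (M.bar φ) := eqv_of_tt M hψ (rank_bar M hφ) fun τ => by
        rw [h3 τ, tt_bar]
        ring
      rw [h1, h2, hcl _ _ h4, hodd]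
      ring
    · have h3 := hprop (-1) (by rw [h1, h2]; ring)
      have h4 : Eqv ψ (M.bar φ) := eqv_of_tt M hψ (rank_bar M hφ) fun τ => by
        rw [h3 τ, tt_bar]
        ring
      rw [h1, h2, hcl _ _ h4, hodd]
      ring
    · have h3 := hprop 1 (by rw [h1, h2, one_mul])
      have h4 : Eqv ψ φ := eqv_of_tt M hψ hφ fun τ => by rw [h3 τ, one_mul]
      rw [h1, h2, hcl _ _ h4]
  -- the two sums
  have hA := hS (RingEquiv.refl ℂ)
  have hB := hS τ₀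
  have hC : ∑ i, (if mu (ε i) + mu (M.bar (ε i)) = 1 then
      (1 + r φ * r (ε i)) * tt (ε i) (RingEquiv.refl ℂ) else 0) * lam (ε i) = 0 := by
    have h1 : ∀ i, (if mu (ε i) + mu (M.bar (ε i)) = 1 then
        (1 + r φ * r (ε i)) * tt (ε i) (RingEquiv.refl ℂ) else 0) * lam (ε i) =
        (if mu (ε i) + mu (M.bar (ε i)) = 1 then tt (ε i) (RingEquiv.refl ℂ) else 0) * lam (ε i) +
        r φ * ((if mu (ε i) + mu (M.bar (ε i)) = 1 then tt (ε i) τ₀ else 0) * lam (ε i)) := by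
      intro i
      by_cases h : mu (ε i) + mu (M.bar (ε i)) = 1
      · rw [if_pos h, if_pos h, if_pos h, (hrr _ h).2]
        ring
      · rw [if_neg h, if_neg h, if_neg h]
        ring
    rw [Finset.sum_congr rfl fun i _ => h1 i, Finset.sum_add_distrib, ← Finset.mul_sum, hA, hB,
      mul_zero, add_zero]
  have hD : ∀ i, (if mu (ε i) + mu (M.bar (ε i)) = 1 then
      (1 + r φ * r (ε i)) * tt (ε i) (RingEquiv.refl ℂ) else 0) * lam (ε i) =
      (if mu (ε i) + mu (M.bar (ε i)) = 1 ∧ r (ε i) = r φ then 1 else 0) *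
        (2 * (tt φ (RingEquiv.refl ℂ) * lam φ)) := by
    intro i
    by_cases h : mu (ε i) + mu (M.bar (ε i)) = 1
    · rw [if_pos h]
      by_cases h3 : r (ε i) = r φ
      · rw [if_pos ⟨h, h3⟩, one_mul, h3, ← hlam _ h h3]
        rcases (hrr φ hφ).1 with h4 | h4
        · rw [h4]
          ring
        · rw [h4]
          ring
      · rw [if_neg (fun h4 => h3 h4.2), zero_mul]
        have h5 : 1 + r φ * r (ε i) = 0 := by
          rcases (hrr φ hφ).1 with h4 | h4 <;> rcases (hrr _ h).1 with h5 | h5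
          · exact (h3 (h5.trans h4.symm)).elim
          · rw [h4, h5]
            norm_num
          · rw [h4, h5]
            norm_num
          · exact (h3 (h5.trans h4.symm)).elim
        rw [h5, zero_mul, zero_mul]
    · rw [if_neg h, if_neg (fun h4 => h h4.1), zero_mul, zero_mul]
  rw [Finset.sum_congr rfl fun i _ => hD i, ← Finset.sum_mul] at hC
  obtain ⟨i, hi⟩ := M.eqv_family F.sum φ
  have hi1 : mu (ε i) + mu (M.bar (ε i)) = 1 := rank_eqv M hi.symm hφ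
  have hi2 : r (ε i) = r φ := by
    rw [hr]
    simp only [tt_eqv hi]
  rw [← Finset.sum_filter, Finset.sum_const, nsmul_eq_mul, mul_one] at hC
  have h4 : (Finset.univ.filter (fun i => mu (ε i) + mu (M.bar (ε i)) = 1 ∧
      r (ε i) = r φ)).card ≠ 0 :=
    (Finset.card_pos.2 ⟨i, Finset.mem_filter.2 ⟨Finset.mem_univ _, hi1, hi2⟩⟩).ne'
  have h5 := (mul_eq_zero.1 hC).resolve_left (Nat.cast_ne_zero.2 h4)
  have h6 := (mul_eq_zero.1 h5).resolve_left two_ne_zero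
  refine (mul_eq_zero.1 h6).resolve_left ?_
  rcases tt_sq M hφ (RingEquiv.refl ℂ) with h7 | h7
  · rw [h7]
    exact one_ne_zero
  · rw [h7]
    norm_num

/-- **All Hodge classes on all powers are generated by divisor classes** if there are at most four
conjugate period matrices. -/
theorem divisorial_four (hZ : Zᵀ = Z) (hpos : (imM Z).PosDef) (hc : Cj Z) {n m : ℕ}
    (f : (Fin n → Fin g ⊕ Fin g → ℚ) [⋀^Fin m × Fin 2]→ₗ[ℚ] ℚ)
    (hf : IsHodge (perPow Z n) f) : f ∈ divisorial (perPow Z n) m := by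
  have M : Pol Z := ⟨hZ, hpos⟩
  exact M.divisorial_all (cop_all M hc) (sep_all M hc) (nd_all M hc) f hf

end Pool.Agent.Q34.SD
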