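import Mathlib
import Pool.Agent.Q34.SD.All2
import Pool.Agent.W437.HD.Simple

/-!
# Simple abelian varieties of CM type with at most four conjugate period matrices
-/

set_option linter.unusedSectionVars false

namespace Pool.Agent.Q34.SD

open Matrix Module Submodule Pool.Agent.H204R3.CM Pool.Agent.H194R3.CM Pool.Agent.W437.HC
  Pool.Agent.W437.HD Pool.Agent.W437.HP Pool.Agent.W437.HR Pool.Agent.W437.HQ
  Pool.Agent.W548.Odd Pool.Agent.Y4.K

variable {g : ℕ} {Z : Matrix (Fin g) (Fin g) ℂ}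

/-- All pieces are lines. -/
theorem line_of_comm (M : Pol Z) (hc : Cj Z) (hcm : CommD Z) (φ : Pr Z) :
    mu φ + mu (M.bar φ) = 1 := by
  rcases mu_cases M hc φ with ⟨h1, h2⟩ | h
  · exfalso
    have hirr := dd_irr M.symm M.pos (po_comm φ) (po_irr M φ)
    have hns := not_sc M hc φ (by rw [h1, h2]) (RingEquiv.refl ℂ)
    have hst : ∀ σ, ∀ x ∈ Pool.Agent.Q34.SD.pos (dd M.symm (po_comm φ) (RingEquiv.refl ℂ)),
        dd M.symm (po_comm φ) σ x ∈
          Pool.Agent.Q34.SD.pos (dd M.symm (po_comm φ) (RingEquiv.refl ℂ)) := by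
      intro σ x hx
      rw [mem_pos] at hx ⊢
      have h3 : dd M.symm (po_comm φ) (RingEquiv.refl ℂ) (dd M.symm (po_comm φ) σ x) =
          dd M.symm (po_comm φ) σ (dd M.symm (po_comm φ) (RingEquiv.refl ℂ) x) := by
        apply Subtype.ext
        change Ds Z (RingEquiv.refl ℂ) *ᵥ (Ds Z σ *ᵥ (x : VV g)) =
          Ds Z σ *ᵥ (Ds Z (RingEquiv.refl ℂ) *ᵥ (x : VV g))
        rw [Ds_one, mulVec_mulVec, mulVec_mulVec, hcm σ]
      rw [h3, hx]
    rcases hirr.irr _ hst with h | h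
    · have h4 := isCompl_pos_neg (hirr.inv (RingEquiv.refl ℂ))
      rw [h] at h4
      refine hns.2 ?_
      have h5 := h4.sup_eq_top
      rwa [bot_sup_eq] at h5
    · exact hns.1 h
  · exact h

/-- The conjugates of the Hodge operator. -/
theorem conj_cases (M : Pol Z) (hc : Cj Z) (hcm : CommD Z) : ∃ τ₀ : ℂ ≃+* ℂ, ∀ τ : ℂ ≃+* ℂ,
    ∃ s : ℂ, Ds Z τ = s • DZ Z ∨ Ds Z τ = s • Ds Z τ₀ := by
  obtain ⟨τ₀, hτ₀⟩ := exists_two M hc
  obtain ⟨I, hI, ε, -, -, hsum⟩ := M.exists_family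
  refine ⟨τ₀, fun τ => ?_⟩
  rcases hτ₀ τ with ⟨s, h⟩ | ⟨s, h⟩
  · refine ⟨s, Or.inl ?_⟩
    rw [← mul_one (Ds Z τ), ← mul_one (DZ Z), ← hsum, Finset.mul_sum, Finset.mul_sum,
      Finset.smul_sum]
    refine Finset.sum_congr rfl fun i _ => ?_
    have hl := line_of_comm M hc hcm (ε i)
    rw [line_D M hl τ, ← Ds_one, line_D M hl (RingEquiv.refl ℂ), h _ hl, smul_smul]
  · refine ⟨s, Or.inr ?_⟩
    rw [← mul_one (Ds Z τ), ← mul_one (Ds Z τ₀), ← hsum, Finset.mul_sum, Finset.mul_sum,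
      Finset.smul_sum]
    refine Finset.sum_congr rfl fun i _ => ?_
    have hl := line_of_comm M hc hcm (ε i)
    rw [line_D M hl τ, line_D M hl τ₀, h _ hl, smul_smul]

theorem map_mulVec_ring (σ : ℂ ≃+* ℂ) (X : MM g) (x : VV g) :
    (fun i => σ ((X *ᵥ x) i)) = X.map σ *ᵥ (fun i => σ (x i)) := by
  funext i
  simp [mulVec, dotProduct]

/-- **A simple abelian variety of CM type with at most four conjugate period matrices has dimension
at most two.** -/
theorem dim_le_two (hZ : Zᵀ = Z) (hpos : (imM Z).PosDef) (hs : IsSimpleAV Z) (hc : Cj Z)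
    (hcm : CommD Z) : g ≤ 2 := by
  have M : Pol Z := ⟨hZ, hpos⟩
  obtain ⟨τ₀, hτ₀⟩ := conj_cases M hc hcm
  by_contra hg
  push Not at hg
  obtain ⟨v, hv⟩ : ∃ v : VV g, v = Pi.single (Sum.inl ⟨0, by omega⟩) 1 := ⟨_, rfl⟩
  have hvσ : ∀ σ : ℂ ≃+* ℂ, (fun i => σ (v i)) = v := by
    intro σ
    funext i
    rw [hv]
    by_cases h : i = Sum.inl ⟨0, by omega⟩
    · rw [h, Pi.single_eq_same, map_one]
    · rw [Pi.single_eq_of_ne h, map_zero]
  obtain ⟨D, hD⟩ : ∃ D : MM g, D = DZ Z := ⟨_, rfl⟩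
  obtain ⟨D', hD'⟩ : ∃ D' : MM g, D' = Ds Z τ₀ := ⟨_, rfl⟩
  have hDD : D * D = 1 := by rw [hD]; exact DZ_sq (hpos.isUnit.map Matrix.detMonoidHom)
  have hDD' : D' * D' = 1 := by rw [hD']; exact Ds_sq hpos τ₀
  have hco : D * D' = D' * D := by rw [hD, hD']; exact hcm τ₀
  have h1 : ∀ τ : ℂ ≃+* ℂ, ∃ s : ℂ, D.map τ = s • D ∨ D.map τ = s • D' := by
    intro τ
    obtain ⟨s, hs⟩ := hτ₀ τ
    rw [← hD, ← hD'] at hs
    exact ⟨s, by rw [hD] at hs ⊢; exact hs⟩
  have h2 : ∀ τ : ℂ ≃+* ℂ, ∃ s : ℂ, D'.map τ = s • D ∨ D'.map τ = s • D' := by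
    intro τ
    obtain ⟨s, hs⟩ := h1 (τ₀.trans τ)
    have h3 : D.map (τ₀.trans τ) = D'.map τ := by
      rw [hD', hD]
      ext i j
      rfl
    exact ⟨s, by rwa [h3] at hs⟩
  let f : Fin 4 → VV g := ![v, D *ᵥ v, D' *ᵥ v, D *ᵥ (D' *ᵥ v)]
  let U : Submodule ℂ (VV g) := Submodule.span ℂ (Set.range f)
  have m0 : v ∈ U := Submodule.subset_span ⟨0, rfl⟩
  have m1 : D *ᵥ v ∈ U := Submodule.subset_span ⟨1, rfl⟩
  have m2 : D' *ᵥ v ∈ U := Submodule.subset_span ⟨2, rfl⟩
  have m3 : D *ᵥ (D' *ᵥ v) ∈ U := Submodule.subset_span ⟨3, rfl⟩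
  have htop := stable_eq_top (hpos.isUnit.map Matrix.detMonoidHom) hs U ?_ ?_ ?_
  · have h3 : finrank ℂ U ≤ 4 := by
      have := finrank_range_le_card (R := ℂ) (b := f)
      rwa [Fintype.card_fin] at this
    rw [htop, finrank_top, Module.finrank_fintype_fun_eq_card, Fintype.card_sum,
      Fintype.card_fin] at h3
    omega
  · intro σ x hx
    have hgen : ∀ k, (fun i => σ (f k i)) ∈ U := by
      intro k
      fin_cases k
      · change (fun i => σ (v i)) ∈ U
        rw [hvσ]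
        exact m0
      · change (fun i => σ ((D *ᵥ v) i)) ∈ U
        rw [map_mulVec_ring, hvσ]
        obtain ⟨s, hs | hs⟩ := h1 σ
        · rw [hs, smul_mulVec]
          exact U.smul_mem _ m1
        · rw [hs, smul_mulVec]
          exact U.smul_mem _ m2
      · change (fun i => σ ((D' *ᵥ v) i)) ∈ U
        rw [map_mulVec_ring, hvσ]
        obtain ⟨s, hs | hs⟩ := h2 σ
        · rw [hs, smul_mulVec]
          exact U.smul_mem _ m1
        · rw [hs, smul_mulVec]
          exact U.smul_mem _ m2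
      · change (fun i => σ ((D *ᵥ (D' *ᵥ v)) i)) ∈ U
        rw [map_mulVec_ring, map_mulVec_ring, hvσ]
        obtain ⟨s, hs | hs⟩ := h1 σ <;> obtain ⟨t, ht | ht⟩ := h2 σ
        · rw [hs, ht, smul_mulVec, smul_mulVec, mulVec_smul, mulVec_mulVec, hDD, one_mulVec]
          exact U.smul_mem _ (U.smul_mem _ m0)
        · rw [hs, ht, smul_mulVec, smul_mulVec, mulVec_smul]
          exact U.smul_mem _ (U.smul_mem _ m3)
        · rw [hs, ht, smul_mulVec, smul_mulVec, mulVec_smul, mulVec_mulVec, ← hco,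
            ← mulVec_mulVec]
          exact U.smul_mem _ (U.smul_mem _ m3)
        · rw [hs, ht, smul_mulVec, smul_mulVec, mulVec_smul, mulVec_mulVec, hDD', one_mulVec]
          exact U.smul_mem _ (U.smul_mem _ m0)
    induction hx using Submodule.span_induction with
    | mem x hx =>
      obtain ⟨k, rfl⟩ := hx
      exact hgen k
    | zero =>
      have h3 : (fun i => σ ((0 : VV g) i)) = 0 := by
        funext i
        exact map_zero σ
      rw [h3]
      exact U.zero_mem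
    | add x y _ _ hx hy =>
      have h3 : (fun i => σ ((x + y) i)) = (fun i => σ (x i)) + fun i => σ (y i) := by
        funext i
        exact map_add σ _ _
      rw [h3]
      exact U.add_mem hx hy
    | smul r x _ hx =>
      have h3 : (fun i => σ ((r • x) i)) = σ r • fun i => σ (x i) := by
        funext i
        exact map_mul σ _ _
      rw [h3]
      exact U.smul_mem _ hx
  · intro x hx
    rw [← hD]
    induction hx using Submodule.span_induction with
    | mem x hx =>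
      obtain ⟨k, rfl⟩ := hx
      fin_cases k
      · exact m1
      · change D *ᵥ (D *ᵥ v) ∈ U
        rw [mulVec_mulVec, hDD, one_mulVec]
        exact m0
      · exact m3
      · change D *ᵥ (D *ᵥ (D' *ᵥ v)) ∈ U
        rw [mulVec_mulVec, hDD, one_mulVec]
        exact m2
    | zero =>
      rw [mulVec_zero]
      exact U.zero_mem
    | add x y _ _ hx hy =>
      rw [mulVec_add]
      exact U.add_mem hx hy
    | smul r x _ hx =>
      rw [mulVec_smul]
      exact U.smul_mem _ hx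
  · intro h0
    rw [Submodule.eq_bot_iff] at h0
    have h3 := congrFun (h0 v m0) (Sum.inl ⟨0, by omega⟩)
    rw [hv, Pi.single_eq_same] at h3
    exact one_ne_zero h3

end Pool.Agent.Q34.SD
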