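import Mathlib

/-!
# The density of the complement of a hypersurface in an open cone
-/

set_option linter.unusedSectionVars false

namespace Pool.Agent.Q34.SD

open Filter Topology

variable {T : Type*} [Fintype T] [DecidableEq T]

/-- The integral points in a box. -/
def boxS (T : Type*) (B : ℕ) : Set (T → ℤ) := {t | ∀ i, |t i| ≤ B}

theorem boxS_eq (B : ℕ) : boxS T B =
    ↑(Fintype.piFinset fun _ : T => Finset.Icc (-(B : ℤ)) B) := by
  ext t
  simp only [boxS, Set.mem_ofPred_eq, Finset.mem_coe, Fintype.mem_piFinset, Finset.mem_Icc, abs_le]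

theorem boxS_finite (B : ℕ) : (boxS T B).Finite := by
  rw [boxS_eq]
  exact Finset.finite_toSet _

/-- The number of the integral zeros of a polynomial in a box. -/
theorem ncard_zeros_le {P : MvPolynomial T ℂ} (hP : P ≠ 0) : ∃ C : ℝ, 0 ≤ C ∧ ∀ B : ℕ,
    (({t ∈ boxS T B | MvPolynomial.eval (fun i => (t i : ℂ)) P = 0}.ncard : ℕ) : ℝ) * (2 * B + 1) ≤
      C * (2 * B + 1) ^ (Fintype.card T) := by
  classical
  obtain ⟨N, hN⟩ : ∃ N, N = Fintype.card T := ⟨_, rfl⟩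
  obtain ⟨e⟩ : Nonempty (T ≃ Fin N) := by
    rw [← Fintype.card_eq, Fintype.card_fin, hN]
  have hP' : MvPolynomial.rename e P ≠ 0 := by
    intro h
    apply hP
    exact MvPolynomial.rename_injective _ e.injective (by rw [h, map_zero])
  refine ⟨(MvPolynomial.rename e P).totalDegree, Nat.cast_nonneg _, fun B => ?_⟩
  obtain ⟨S, hS⟩ : ∃ S : Finset ℂ, S = (Finset.Icc (-(B : ℤ)) B).image fun k : ℤ => (k : ℂ) :=
    ⟨_, rfl⟩
  have hcard : S.card = 2 * B + 1 := by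
    rw [hS, Finset.card_image_of_injective _ Int.cast_injective, Int.card_Icc]
    omega
  have h1 := MvPolynomial.schwartz_zippel_totalDegree hP' S
  obtain ⟨F, hF⟩ : ∃ F : Finset (Fin N → ℂ), F = {f ∈ Fintype.piFinset fun _ : Fin N => S |
      MvPolynomial.eval f (MvPolynomial.rename e P) = 0} := ⟨_, rfl⟩
  have h1' : (F.card : NNRat) / ((S.card : NNRat) ^ N) ≤
      ((MvPolynomial.rename e P).totalDegree : NNRat) / (S.card : NNRat) := by
    rw [hF]
    exact h1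
  have h2 : ({t ∈ boxS T B | MvPolynomial.eval (fun i => (t i : ℂ)) P = 0}).ncard ≤ F.card := by
    rw [← Set.ncard_coe_finset]
    refine Set.ncard_le_ncard_of_injOn (fun t k => ((t (e.symm k) : ℤ) : ℂ)) ?_ ?_
      (Finset.finite_toSet _)
    · rintro t ⟨ht, h0⟩
      rw [hF, Finset.mem_coe, Finset.mem_filter, Fintype.mem_piFinset]
      constructor
      · intro k
        rw [hS, Finset.mem_image]
        exact ⟨_, Finset.mem_Icc.2 (abs_le.1 (ht _)), rfl⟩
      · rw [MvPolynomial.eval_rename]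
        have h3 : ((fun k => ((t (e.symm k) : ℤ) : ℂ)) ∘ e) = fun i => (t i : ℂ) := by
          funext i
          simp
        rw [h3]
        exact h0
    · intro t _ t' _ h
      funext i
      have h3 := congrFun h (e i)
      simp only [Equiv.symm_apply_apply] at h3
      exact_mod_cast h3
  have hpos : (0 : ℝ) < 2 * B + 1 := by positivity
  have h3 : (F.card : ℝ) / ((2 * B + 1) ^ N) ≤
      ((MvPolynomial.rename e P).totalDegree : ℝ) / (2 * B + 1) := by
    have h4 : ((F.card : NNRat) / ((S.card : NNRat) ^ N) : NNRat) ≤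
      (((MvPolynomial.rename e P).totalDegree : NNRat) / (S.card : NNRat) : NNRat) := h1'
    rw [hcard] at h4
    have h5 : (((F.card : NNRat) / (((2 * B + 1 : ℕ) : NNRat) ^ N) : NNRat) : ℝ) ≤
      ((((MvPolynomial.rename e P).totalDegree : NNRat) / ((2 * B + 1 : ℕ) : NNRat) : NNRat) : ℝ) :=
      by exact_mod_cast h4
    push_cast at h5
    exact h5
  rw [div_le_div_iff₀ (by positivity) hpos] at h3
  rw [← hN]
  refine le_trans ?_ h3
  have h6 : (({t ∈ boxS T B | MvPolynomial.eval (fun i => (t i : ℂ)) P = 0}.ncard : ℕ) : ℝ) ≤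
      F.card := by exact_mod_cast h2
  exact mul_le_mul_of_nonneg_right h6 hpos.le

/-- The number of the integral points of an open cone in a box. -/
theorem ncard_cone_ge {W : Set (T → ℝ)} (hW : IsOpen W) (hne : W.Nonempty)
    (hc : ∀ r : ℝ, 0 < r → ∀ x ∈ W, r • x ∈ W) : ∃ c : ℝ, 0 < c ∧ ∃ B₀ : ℕ, ∀ B : ℕ, B₀ ≤ B →
      c * (2 * B + 1) ^ (Fintype.card T) ≤
        ({t ∈ boxS T B | (fun i => (t i : ℝ)) ∈ W}.ncard : ℕ) := by
  classical
  obtain ⟨x, hx⟩ := hne
  obtain ⟨ε, hε, hball⟩ := Metric.isOpen_iff.1 hW x hx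
  obtain ⟨R, hR⟩ : ∃ R : ℝ, R = ‖x‖ + ε + 1 := ⟨_, rfl⟩
  have hR0 : 0 < R := by
    have := norm_nonneg x
    linarith
  -- the small radius
  obtain ⟨δ, hδ⟩ : ∃ δ : ℝ, δ = ε / 2 := ⟨_, rfl⟩
  have hδ0 : 0 < δ := by linarith
  have hq : 0 < δ / (6 * R) := by positivity
  refine ⟨(δ / (6 * R)) ^ (Fintype.card T), by positivity, ⌈2 * R / δ⌉₊ + 1, fun B hB => ?_⟩
  have hB1 : 1 ≤ B := by omega
  have hBr : (1 : ℝ) ≤ B := by exact_mod_cast hB1
  have hB2 : 2 * R / δ ≤ B := by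
    have h1 := Nat.le_ceil (2 * R / δ)
    have h2 : (⌈2 * R / δ⌉₊ : ℝ) ≤ B := by exact_mod_cast (by omega : ⌈2 * R / δ⌉₊ ≤ B)
    linarith
  obtain ⟨M, hM⟩ : ∃ M : ℝ, M = B / R := ⟨_, rfl⟩
  have hM0 : 0 < M := by rw [hM]; positivity
  have hMR : M * R = B := by rw [hM]; field_simp
  obtain ⟨m, hm⟩ : ∃ m : ℕ, m = ⌊δ * M⌋₊ := ⟨_, rfl⟩
  have hm1 : (m : ℝ) ≤ δ * M := by rw [hm]; exact Nat.floor_le (by positivity)
  have hm2 : δ * M - 1 < m := by rw [hm]; exact Nat.sub_one_lt_floor _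
  have hδM : 2 ≤ δ * M := by
    have h1 : 2 * R ≤ B * δ := by rwa [div_le_iff₀ hδ0] at hB2
    rw [hM, mul_div_assoc', le_div_iff₀ hR0]
    linarith
  have hm3 : δ / (6 * R) * (2 * B + 1) ≤ m := by
    have h1 : δ / (6 * R) * (2 * B + 1) ≤ δ * M / 2 := by
      rw [hM]
      have h2 : δ * (B / R) / 2 = δ / (6 * R) * (3 * B) := by
        field_simp
        ring
      rw [h2]
      exact mul_le_mul_of_nonneg_left (by linarith) hq.le
    linarith
  have hcount : m ^ (Fintype.card T) ≤ {t ∈ boxS T B | (fun i => (t i : ℝ)) ∈ W}.ncard := by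
    have h1 : m ^ (Fintype.card T) = (Set.univ : Set (T → Fin m)).ncard := by
      rw [Set.ncard_univ, Nat.card_eq_fintype_card, Fintype.card_fun, Fintype.card_fin]
    rw [h1]
    refine Set.ncard_le_ncard_of_injOn (fun k i => ⌈M * x i⌉ + ((k i : ℕ) : ℤ)) ?_ ?_
      ((boxS_finite B).subset (Set.sep_subset _ _))
    · intro k _
      have hd : ∀ i, |((⌈M * x i⌉ + ((k i : ℕ) : ℤ) : ℤ) : ℝ) - M * x i| ≤ δ * M := by
        intro i
        have h2 := Int.le_ceil (M * x i)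
        have h3 := Int.ceil_lt_add_one (M * x i)
        have h4 : ((k i : ℕ) : ℝ) + 1 ≤ m := by exact_mod_cast (k i).2
        have h5 : (0 : ℝ) ≤ ((k i : ℕ) : ℝ) := Nat.cast_nonneg _
        push_cast
        rw [abs_le]
        constructor
        · linarith
        · linarith
      constructor
      · intro i
        have h2 := hd i
        have h3 : |M * x i| ≤ M * ‖x‖ := by
          rw [abs_mul, abs_of_pos hM0]
          exact mul_le_mul_of_nonneg_left (norm_le_pi_norm x i) hM0.le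
        have h4 : |((⌈M * x i⌉ + ((k i : ℕ) : ℤ) : ℤ) : ℝ)| ≤ B := by
          have h5 : |((⌈M * x i⌉ + ((k i : ℕ) : ℤ) : ℤ) : ℝ)| ≤
              |((⌈M * x i⌉ + ((k i : ℕ) : ℤ) : ℤ) : ℝ) - M * x i| + |M * x i| := by
            have := abs_add_le (((⌈M * x i⌉ + ((k i : ℕ) : ℤ) : ℤ) : ℝ) - M * x i) (M * x i)
            rwa [sub_add_cancel] at this
          have h6 : δ * M + M * ‖x‖ ≤ B := by
            rw [← hMR, hR]
            have : M * (‖x‖ + ε + 1) - (δ * M + M * ‖x‖) = M * (δ + 1) := by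
              rw [hδ]
              ring
            have h7 : 0 < M * (δ + 1) := by positivity
            linarith
          linarith
        have h5 : (|⌈M * x i⌉ + ((k i : ℕ) : ℤ)| : ℤ) ≤ (B : ℤ) := by exact_mod_cast h4
        exact h5
      · have h2 : (fun i => ((⌈M * x i⌉ + ((k i : ℕ) : ℤ) : ℤ) : ℝ)) =
            M • fun i => M⁻¹ * ((⌈M * x i⌉ + ((k i : ℕ) : ℤ) : ℤ) : ℝ) := by
          funext i
          rw [Pi.smul_apply, smul_eq_mul, ← mul_assoc, mul_inv_cancel₀ hM0.ne', one_mul]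
        change (fun i => ((⌈M * x i⌉ + ((k i : ℕ) : ℤ) : ℤ) : ℝ)) ∈ W
        rw [h2]
        refine hc M hM0 _ (hball ?_)
        rw [Metric.mem_ball, dist_pi_lt_iff hε]
        intro i
        rw [Real.dist_eq]
        have h3 : M⁻¹ * ((⌈M * x i⌉ + ((k i : ℕ) : ℤ) : ℤ) : ℝ) - x i =
            M⁻¹ * (((⌈M * x i⌉ + ((k i : ℕ) : ℤ) : ℤ) : ℝ) - M * x i) := by
          rw [mul_sub, ← mul_assoc M⁻¹ M, inv_mul_cancel₀ hM0.ne', one_mul]
        rw [h3, abs_mul, abs_of_pos (inv_pos.2 hM0)]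
        have h4 : M⁻¹ * |((⌈M * x i⌉ + ((k i : ℕ) : ℤ) : ℤ) : ℝ) - M * x i| ≤ M⁻¹ * (δ * M) :=
          mul_le_mul_of_nonneg_left (hd i) (inv_pos.2 hM0).le
        have h5 : M⁻¹ * (δ * M) = δ := by
          rw [mul_comm δ, ← mul_assoc, inv_mul_cancel₀ hM0.ne', one_mul]
        linarith
    · intro k _ k' _ h
      funext i
      have h2 := congrFun h i
      simp only [add_right_inj] at h2
      exact Fin.ext (by exact_mod_cast h2)
  calc (δ / (6 * R)) ^ (Fintype.card T) * (2 * B + 1) ^ (Fintype.card T) =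
      (δ / (6 * R) * (2 * B + 1)) ^ (Fintype.card T) := (mul_pow _ _ _).symm
  _ ≤ (m : ℝ) ^ (Fintype.card T) := pow_le_pow_left₀ (by positivity) hm3 _
  _ ≤ _ := by exact_mod_cast hcount

/-- **Density one.** -/
theorem density_one {W : Set (T → ℝ)} (hW : IsOpen W) (hne : W.Nonempty)
    (hc : ∀ r : ℝ, 0 < r → ∀ x ∈ W, r • x ∈ W) {P : MvPolynomial T ℂ} (hP : P ≠ 0)
    {Q : (T → ℤ) → Prop} (hQ : ∀ t : T → ℤ, (fun i => (t i : ℝ)) ∈ W →
      MvPolynomial.eval (fun i => (t i : ℂ)) P ≠ 0 → Q t) :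
    Tendsto (fun B : ℕ => (({t ∈ boxS T B | (fun i => (t i : ℝ)) ∈ W ∧ Q t}.ncard : ℕ) : ℝ) /
      ({t ∈ boxS T B | (fun i => (t i : ℝ)) ∈ W}.ncard : ℕ)) atTop (𝓝 1) := by
  obtain ⟨C, hC0, hC⟩ := ncard_zeros_le hP
  obtain ⟨c, hc0, B₀, hB₀⟩ := ncard_cone_ge hW hne hc
  have hlow : ∀ B : ℕ, B₀ ≤ B → 1 - C / (c * (2 * B + 1)) ≤
      (({t ∈ boxS T B | (fun i => (t i : ℝ)) ∈ W ∧ Q t}.ncard : ℕ) : ℝ) /
      ({t ∈ boxS T B | (fun i => (t i : ℝ)) ∈ W}.ncard : ℕ) := by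
    intro B hB
    have h1 := hB₀ B hB
    have hp : (0 : ℝ) < 2 * B + 1 := by positivity
    have hall : (0 : ℝ) < ({t ∈ boxS T B | (fun i => (t i : ℝ)) ∈ W}.ncard : ℕ) :=
      lt_of_lt_of_le (by positivity) h1
    have h2 : ({t ∈ boxS T B | (fun i => (t i : ℝ)) ∈ W}).ncard ≤
        ({t ∈ boxS T B | (fun i => (t i : ℝ)) ∈ W ∧ Q t}).ncard +
        ({t ∈ boxS T B | MvPolynomial.eval (fun i => (t i : ℂ)) P = 0}).ncard := by
      refine le_trans (Set.ncard_le_ncard ?_ ?_) (Set.ncard_union_le _ _)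
      · rintro t ⟨ht, htW⟩
        by_cases h0 : MvPolynomial.eval (fun i => (t i : ℂ)) P = 0
        · exact Or.inr ⟨ht, h0⟩
        · exact Or.inl ⟨ht, htW, hQ t htW h0⟩
      · exact ((boxS_finite B).subset (Set.sep_subset _ _)).union
          ((boxS_finite B).subset (Set.sep_subset _ _))
    have h3 : (({t ∈ boxS T B | (fun i => (t i : ℝ)) ∈ W}.ncard : ℕ) : ℝ) ≤
        ({t ∈ boxS T B | (fun i => (t i : ℝ)) ∈ W ∧ Q t}.ncard : ℕ) +
        ({t ∈ boxS T B | MvPolynomial.eval (fun i => (t i : ℂ)) P = 0}.ncard : ℕ) := by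
      exact_mod_cast h2
    have h4 := hC B
    have h5 : (({t ∈ boxS T B | MvPolynomial.eval (fun i => (t i : ℂ)) P = 0}.ncard : ℕ) : ℝ) ≤
        C / (c * (2 * B + 1)) * ({t ∈ boxS T B | (fun i => (t i : ℝ)) ∈ W}.ncard : ℕ) := by
      have h6 : C / (c * (2 * B + 1)) * (c * (2 * B + 1) ^ (Fintype.card T)) ≤
          C / (c * (2 * B + 1)) * ({t ∈ boxS T B | (fun i => (t i : ℝ)) ∈ W}.ncard : ℕ) :=
        mul_le_mul_of_nonneg_left h1 (by positivity)
      refine le_trans ?_ h6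
      have h7 : C / (c * (2 * B + 1)) * (c * (2 * B + 1) ^ (Fintype.card T)) =
          C * (2 * B + 1) ^ (Fintype.card T) / (2 * B + 1) := by
        field_simp
      rw [h7, le_div_iff₀ hp]
      exact h4
    rw [le_div_iff₀ hall, sub_mul, one_mul]
    linarith
  have hup : ∀ B : ℕ, (({t ∈ boxS T B | (fun i => (t i : ℝ)) ∈ W ∧ Q t}.ncard : ℕ) : ℝ) /
      ({t ∈ boxS T B | (fun i => (t i : ℝ)) ∈ W}.ncard : ℕ) ≤ 1 := by
    intro B
    refine div_le_one_of_le₀ ?_ (Nat.cast_nonneg _)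
    have h1 : ({t ∈ boxS T B | (fun i => (t i : ℝ)) ∈ W ∧ Q t}).ncard ≤
        ({t ∈ boxS T B | (fun i => (t i : ℝ)) ∈ W}).ncard :=
      Set.ncard_le_ncard (fun t ht => ⟨ht.1, ht.2.1⟩)
        ((boxS_finite B).subset (Set.sep_subset _ _))
    exact_mod_cast h1
  have hlim : Tendsto (fun B : ℕ => 1 - C / (c * (2 * (B : ℝ) + 1))) atTop (𝓝 1) := by
    have h1 : Tendsto (fun B : ℕ => c * (2 * (B : ℝ) + 1)) atTop atTop := by
      refine Tendsto.const_mul_atTop hc0 ?_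
      refine tendsto_atTop_add_const_right _ _ ?_
      exact Tendsto.const_mul_atTop two_pos tendsto_natCast_atTop_atTop
    have h2 : Tendsto (fun B : ℕ => C / (c * (2 * (B : ℝ) + 1))) atTop (𝓝 0) :=
      Tendsto.const_div_atTop h1 C
    have h3 := (tendsto_const_nhds (x := (1 : ℝ))).sub h2
    rwa [sub_zero] at h3
  refine tendsto_of_tendsto_of_tendsto_of_le_of_le' hlim tendsto_const_nhds ?_
    (Eventually.of_forall hup)
  filter_upwards [eventually_ge_atTop B₀] with B hB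
  exact hlow B hB

end Pool.Agent.Q34.SD
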