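import Mathlib
import Pool.Agent.Q34.SD.G8
import Pool.Agent.Q34.SD.G9

/-!
# The density of the generic period matrices over a number field
-/

set_option linter.unusedSectionVars false

namespace Pool.Agent.Q34.SD

open Matrix Module Filter Topology Pool.Agent.W437.HC Pool.Agent.W437.HD

variable (K : IntermediateField ℚ ℂ) [FiniteDimensional ℚ K] {n : ℕ} (θ : Basis (Fin n) ℚ K)
  (g : ℕ)

/-- The imaginary part of the symmetric matrix with the given real coordinates. -/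
noncomputable def Yt (t : Sym2 (Fin g) × Fin n → ℝ) : Matrix (Fin g) (Fin g) ℝ :=
  Matrix.of fun a b => ∑ j, t (s(a, b), j) * (θ j : ℂ).im

theorem imM_Zt (t : Sym2 (Fin g) × Fin n → ℤ) :
    (Zt K θ g fun i => (t i : ℚ)).map Complex.im = Yt K θ g fun i => (t i : ℝ) := by
  ext a b
  simp only [Zt, Yt, map_apply, of_apply, Complex.im_sum]
  refine Finset.sum_congr rfl fun j _ => ?_
  rw [Complex.mul_im]
  simp

/-- The cone of the period matrices. -/
def Wc : Set (Sym2 (Fin g) × Fin n → ℝ) := {t | (Yt K θ g t).PosDef}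

theorem Yt_symm (t : Sym2 (Fin g) × Fin n → ℝ) : (Yt K θ g t).IsHermitian := by
  ext a b
  simp only [Yt, conjTranspose_apply, of_apply, Sym2.eq_swap, star_trivial]

theorem Yt_quad (t : Sym2 (Fin g) × Fin n → ℝ) (x : Fin g → ℝ) :
    x ⬝ᵥ (Yt K θ g t *ᵥ x) = ∑ a, ∑ b, ∑ j, t (s(a, b), j) * ((θ j : ℂ).im * (x a * x b)) := by
  simp only [dotProduct, mulVec, Yt, of_apply, Finset.mul_sum, Finset.sum_mul]
  refine Finset.sum_congr rfl fun a _ => Finset.sum_congr rfl fun b _ =>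
    Finset.sum_congr rfl fun j _ => by ring

theorem isOpen_Wc : IsOpen (Wc K θ g) := by
  have hcont : Continuous fun p : (Sym2 (Fin g) × Fin n → ℝ) × (Fin g → ℝ) =>
      p.2 ⬝ᵥ (Yt K θ g p.1 *ᵥ p.2) := by
    simp only [Yt_quad]
    fun_prop
  rw [isOpen_iff_mem_nhds]
  intro t ht
  have hS : IsCompact (Metric.sphere (0 : Fin g → ℝ) 1) := isCompact_sphere _ _
  have h1 : ∀ᶠ t' in 𝓝 t, ∀ x ∈ Metric.sphere (0 : Fin g → ℝ) 1,
      0 < x ⬝ᵥ (Yt K θ g t' *ᵥ x) := by
    refine hS.eventually_forall_of_forall_eventually fun x hx => ?_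
    have hx0 : x ≠ 0 := by
      rintro rfl
      simp at hx
    have h2 : 0 < x ⬝ᵥ (Yt K θ g t *ᵥ x) := by
      have := (show (Yt K θ g t).PosDef from ht).dotProduct_mulVec_pos hx0
      rwa [star_trivial] at this
    exact hcont.continuousAt.eventually (lt_mem_nhds h2)
  filter_upwards [h1] with t' ht'
  refine Matrix.PosDef.of_dotProduct_mulVec_pos (Yt_symm K θ g t') fun x hx => ?_
  have hn : 0 < ‖x‖ := norm_pos_iff.2 hx
  have h3 := ht' (‖x‖⁻¹ • x) (by
    rw [mem_sphere_zero_iff_norm, norm_smul, norm_inv, norm_norm, inv_mul_cancel₀ hn.ne'])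
  rw [mulVec_smul, dotProduct_smul, smul_dotProduct, smul_smul, smul_eq_mul] at h3
  rw [star_trivial]
  exact pos_of_mul_pos_of_pos_left h3 (by positivity)
where
  pos_of_mul_pos_of_pos_left {a b : ℝ} (h : 0 < a * b) (ha : 0 ≤ a) : 0 < b :=
    pos_of_mul_pos_right h ha

theorem cone_Wc (r : ℝ) (hr : 0 < r) (t : Sym2 (Fin g) × Fin n → ℝ) (ht : t ∈ Wc K θ g) :
    r • t ∈ Wc K θ g := by
  have h : Yt K θ g (r • t) = r • Yt K θ g t := by
    ext a b
    simp only [Yt, of_apply, Matrix.smul_apply, Pi.smul_apply, smul_eq_mul, Finset.mul_sum,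
      mul_assoc]
  change (Yt K θ g (r • t)).PosDef
  rw [h]
  exact (show (Yt K θ g t).PosDef from ht).smul hr

theorem nonempty_Wc (hK : ∃ x ∈ K, starRingEnd ℂ x ≠ x) : (Wc K θ g).Nonempty := by
  classical
  obtain ⟨j₀, hj₀⟩ : ∃ j, (θ j : ℂ).im ≠ 0 := by
    by_contra hcon
    push Not at hcon
    obtain ⟨x, hx, hne⟩ := hK
    apply hne
    have h1 : x = ∑ j, ((θ.repr ⟨x, hx⟩ j : ℚ) : ℂ) * (θ j : ℂ) := by
      have h2 := congrArg (fun y : K => (y : ℂ)) (θ.sum_repr ⟨x, hx⟩)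
      simp only [IntermediateField.coe_sum, IntermediateField.coe_smul] at h2
      refine h2.symm.trans (Finset.sum_congr rfl fun j _ => ?_)
      rw [Rat.smul_def]
    have h3 : starRingEnd ℂ (∑ j, ((θ.repr ⟨x, hx⟩ j : ℚ) : ℂ) * (θ j : ℂ)) =
        ∑ j, ((θ.repr ⟨x, hx⟩ j : ℚ) : ℂ) * (θ j : ℂ) := by
      rw [map_sum]
      refine Finset.sum_congr rfl fun j _ => ?_
      rw [map_mul, map_ratCast, Complex.conj_eq_iff_im.2 (hcon j)]
    rw [← h1] at h3
    exact h3
  refine ⟨fun p => if p.2 = j₀ ∧ p.1.IsDiag then ((θ j₀ : ℂ).im)⁻¹ else 0, ?_⟩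
  have h : Yt K θ g (fun p => if p.2 = j₀ ∧ p.1.IsDiag then ((θ j₀ : ℂ).im)⁻¹ else 0) = 1 := by
    ext a b
    simp only [Yt, of_apply]
    rw [Finset.sum_eq_single j₀]
    · simp only [true_and, Sym2.mk_isDiag_iff]
      by_cases hab : a = b
      · subst hab
        rw [if_pos rfl, Matrix.one_apply_eq, inv_mul_cancel₀ hj₀]
      · rw [if_neg hab, Matrix.one_apply_ne hab, zero_mul]
    · intro j _ hj
      rw [if_neg (fun h => hj h.1), zero_mul]
    · intro h
      exact (h (Finset.mem_univ _)).elim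
  change (Yt K θ g _).PosDef
  rw [h]
  exact Matrix.PosDef.one

/-- **Density one** for the period matrices over a number field. -/
theorem density_K (hK : ∃ x ∈ K, starRingEnd ℂ x ≠ x)
    {P : MvPolynomial (Sym2 (Fin g) × Fin n) ℂ} (hP : P ≠ 0)
    {Q : Matrix (Fin g) (Fin g) ℂ → Prop} (hQ : ∀ t : Sym2 (Fin g) × Fin n → ℚ,
      ((Zt K θ g t).map Complex.im).PosDef →
      MvPolynomial.eval (fun i => (t i : ℂ)) P ≠ 0 → Q (Zt K θ g t)) :
    Tendsto (fun B : ℕ => (({t : Sym2 (Fin g) × Fin n → ℤ | (∀ i, |t i| ≤ B) ∧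
        ((Zt K θ g fun i => (t i : ℚ)).map Complex.im).PosDef ∧
        Q (Zt K θ g fun i => (t i : ℚ))}.ncard : ℕ) : ℝ) /
      ({t : Sym2 (Fin g) × Fin n → ℤ | (∀ i, |t i| ≤ B) ∧
        ((Zt K θ g fun i => (t i : ℚ)).map Complex.im).PosDef}.ncard : ℕ)) atTop (𝓝 1) := by
  have h := density_one (isOpen_Wc K θ g) (nonempty_Wc K θ g hK) (cone_Wc K θ g) hP
    (Q := fun t => Q (Zt K θ g fun i => (t i : ℚ))) (fun t ht h0 => by
      refine hQ (fun i => (t i : ℚ)) ?_ ?_
      · rw [imM_Zt]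
        exact ht
      · have e : (fun i => (((t i : ℚ)) : ℂ)) = fun i => (t i : ℂ) := by
          funext i
          push_cast
          rfl
        rw [e]
        exact h0)
  simp only [imM_Zt]
  exact h

end Pool.Agent.Q34.SD
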