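import Mathlib
import Pool.Agent.Q34.SD.Pcs
import Pool.Agent.Y4.G.Tr

/-!
# The rank of the endomorphism algebra
-/

set_option linter.unusedSectionVars false

namespace Pool.Agent.Q34.SD

open Matrix Module Submodule Pool.Agent.H204R3.CM Pool.Agent.H194R3.CM Pool.Agent.W437.HC
  Pool.Agent.W437.HD Pool.Agent.W437.HP Pool.Agent.W437.HR Pool.Agent.W437.HQ
  Pool.Agent.W548.Odd

variable {g : ℕ} {Z : Matrix (Fin g) (Fin g) ℂ}

/-- There are `g` linearly independent endomorphisms. -/
theorem exists_endos (hZ : Zᵀ = Z) (hpos : (imM Z).PosDef)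
    {φ : Matrix (Fin g ⊕ Fin g) (Fin g ⊕ Fin g) ℚ} (hφ : InCm (DZ '' {Z}) (qm φ))
    (h4 : Four Z φ) : ∃ ψ : Fin g → Matrix (Fin g ⊕ Fin g) (Fin g ⊕ Fin g) ℚ,
      LinearIndependent ℚ ψ ∧ ∀ k, InCm (DZ '' {Z}) (qm (ψ k)) := by
  obtain ⟨A, hA1, hA2, π, hd⟩ := exists_dec (cr_GE hZ hpos) _ 1
    (fun y _ => by rw [one_mul, mul_one]) (one_mul 1) le_rfl
  have hirr : ∀ a, Irr (dd hZ (hd.comm a)) := fun a => dd_irr hZ hpos (hd.comm a) (hd.irr a)
  have hfr : ∀ a, finrank ℂ (LinearMap.range (π a)) ≤ 2 := fun a =>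
    (hirr a).finrank_le_two (dd_eig hZ hpos (hd.comm a) (hd.idem a) (hd.irr a) hφ h4)
  let c : A → MM g := fun a => (ph (Fin g ⊕ Fin g)).symm (π a)
  have hcph : ∀ a, ph (Fin g ⊕ Fin g) (c a) = π a := fun a => AlgEquiv.apply_symm_apply _ _
  have hcc : ∀ a, c a * c a = c a := by
    intro a
    apply (ph (Fin g ⊕ Fin g)).injective
    rw [map_mul, hcph, hd.idem]
  have hcC : ∀ a, InCm (DZ '' {Z}) (c a) := fun a => inCm_of_comm (hd.comm a)
  have hc0 : ∀ a, c a ≠ 0 := by
    intro a h0
    apply (hd.irr a).2.1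
    rw [← hcph a, h0, map_zero, LinearMap.range_zero]
  have hco : ∀ a b, a ≠ b → c a * c b = 0 := by
    intro a b hab
    apply (ph (Fin g ⊕ Fin g)).injective
    rw [map_mul, hcph, hcph, hd.orth a b hab, map_zero]
  have hcs : ∑ a, c a = 1 := by
    apply (ph (Fin g ⊕ Fin g)).injective
    rw [map_sum, map_one, ← hd.sum]
    exact Finset.sum_congr rfl fun a _ => hcph a
  -- the number of the pieces
  have hcard : g ≤ Fintype.card A := by
    have h1 : trace (∑ a, c a) = ((∑ a, finrank ℂ (LinearMap.range (mulVecLin (c a))) : ℕ) : ℂ) := by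
      rw [trace_sum, Nat.cast_sum]
      exact Finset.sum_congr rfl fun a _ => Pool.Agent.Y4.G.trace_idemM (hcc a)
    rw [hcs, trace_one, Fintype.card_sum, Fintype.card_fin] at h1
    have h2 : g + g = ∑ a, finrank ℂ (LinearMap.range (mulVecLin (c a))) := by exact_mod_cast h1
    have h3 : ∀ a, LinearMap.range (mulVecLin (c a)) = LinearMap.range (π a) := by
      intro a
      rw [← hcph a]
      rfl
    have h5 : ∑ a, finrank ℂ (LinearMap.range (mulVecLin (c a))) ≤ ∑ _a : A, 2 := by
      refine Finset.sum_le_sum fun a _ => ?_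
      rw [h3]
      exact hfr a
    rw [Finset.sum_const, Finset.card_univ, smul_eq_mul] at h5
    omega
  -- linear independence of the projections
  have hli : LinearIndependent ℂ c := by
    rw [Fintype.linearIndependent_iff]
    intro r hr a
    have h1 := congrArg (fun M => M * c a) hr
    simp only [Finset.sum_mul, zero_mul] at h1
    rw [Finset.sum_eq_single a] at h1
    · rw [smul_mul_assoc, hcc] at h1
      exact (smul_eq_zero.1 h1).resolve_right (hc0 a)
    · intro b _ hb
      rw [smul_mul_assoc, hco b a hb, smul_zero]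
    · intro h2
      exact (h2 (Finset.mem_univ _)).elim
  -- rational spanning set
  obtain ⟨s, hs⟩ : ∃ s : Set (MM g), s = {X | ∃ u : Matrix (Fin g ⊕ Fin g) (Fin g ⊕ Fin g) ℚ,
      InCm (DZ '' {Z}) (qm u) ∧ X = qm u} := ⟨_, rfl⟩
  have hspan : ∀ X, InCm (DZ '' {Z}) X → X ∈ Submodule.span ℂ s := by
    refine Cm_induction ?_ ?_ ?_ ?_
    · intro u hu
      refine Submodule.subset_span ?_
      rw [hs]
      exact ⟨u, hu, rfl⟩
    · exact Submodule.zero_mem _
    · intro X Y hX hY
      exact Submodule.add_mem _ hX hY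
    · intro r X hX
      exact Submodule.smul_mem _ _ hX
  obtain ⟨t, hts, htsp, hti⟩ := exists_linearIndependent ℂ s
  have hfint : Fintype t := by
    have : Finite t := hti.finite
    exact Fintype.ofFinite _
  have hcardt : g ≤ Fintype.card t := by
    have h1 : finrank ℂ (Submodule.span ℂ t) = Fintype.card t := by
      have h2 := finrank_span_eq_card hti
      rw [Subtype.range_coe] at h2
      exact h2
    have h2 : finrank ℂ (Submodule.span ℂ (Set.range c)) = Fintype.card A :=
      finrank_span_eq_card hli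
    have h3 : Submodule.span ℂ (Set.range c) ≤ Submodule.span ℂ t := by
      rw [htsp, Submodule.span_le]
      rintro _ ⟨a, rfl⟩
      exact hspan _ (hcC a)
    have h5 := Submodule.finrank_mono h3
    omega
  obtain ⟨f⟩ : Nonempty (Fin g ↪ t) := by
    refine ⟨(Fin.castLEEmb hcardt).trans (Fintype.equivFin t).symm.toEmbedding⟩
  have hmem : ∀ k : Fin g, ∃ u : Matrix (Fin g ⊕ Fin g) (Fin g ⊕ Fin g) ℚ,
      InCm (DZ '' {Z}) (qm u) ∧ (f k : MM g) = qm u := by
    intro k
    have h1 := hts (f k).2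
    rw [hs] at h1
    exact h1
  choose ψ hψ1 hψ2 using hmem
  refine ⟨ψ, ?_, hψ1⟩
  rw [Fintype.linearIndependent_iff]
  intro r hr k
  have h1 : LinearIndependent ℂ (fun k => ((f k : t) : MM g)) := hti.comp f f.injective
  rw [Fintype.linearIndependent_iff] at h1
  have h2 := h1 (fun k => (r k : ℂ)) (by
    have h3 := congrArg qm hr
    rw [qm_zero] at h3
    rw [← h3]
    ext i j
    have e : ∀ k, ((f k : t) : MM g) i j = ((ψ k i j : ℚ) : ℂ) := fun k => by
      rw [hψ2 k]
      rfl
    change (∑ k, (r k : ℂ) • ((f k : t) : MM g)) i j = (((∑ k, r k • ψ k) i j : ℚ) : ℂ)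
    rw [Matrix.sum_apply, Matrix.sum_apply, Rat.cast_sum]
    refine Finset.sum_congr rfl fun k _ => ?_
    rw [Matrix.smul_apply, Matrix.smul_apply, e, smul_eq_mul, smul_eq_mul, Rat.cast_mul]) k
  exact_mod_cast h2

end Pool.Agent.Q34.SD
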